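import Pool.Agent.H907R2.HO.Asm

/-!
Compactness assembly with an additional compact set of parameters.
-/

open Metric Filter
open scoped Topology RealInnerProductSpace

noncomputable section

namespace Y934.PR

open Pool.Agent.H821R3 H758H H907H

variable {T : Type*} [TopologicalSpace T] {C : Set T}

/-- general assembly with parameters in a compact set `C` -/
theorem exists_genW (hC : IsCompact C) (P : ℝ → T → V3 → A6 → A6 → A6 → ℝ)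
    (hcont : Continuous fun t : ℝ × T × V3 × A6 × A6 × A6 =>
      P t.1 t.2.1 t.2.2.1 t.2.2.2.1 t.2.2.2.2.1 t.2.2.2.2.2)
    (hsl : ∀ ε c' x α β Γ (a b c d : ℝ),
      P ε c' x (a • α + b • β) (c • α + d • β) ((a * d - b * c) • Γ) =
        (a * d - b * c) ^ 2 * P ε c' x α β Γ)
    (hoff : ∀ c ∈ C, ∀ x (α β Γ : A6), (x, α, β, Γ) ∈ H907H.KK → ¬Zer α β Γ → 0 < P 0 c x α β Γ)
    (G : ℝ → V3 × A6 × A6 × A6 → Prop)
    (hnear : ∃ t0 : ℝ, 0 < t0 ∧ ∀ c ∈ C, ∀ (ε s : ℝ) (x n ρ d : V3) (Γ : A6), |ε| < t0 →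
      InCh t0 s x n ρ d Γ → (∀ p : V3 × A6 × A6 × A6, ∀ u w : ℝ, 0 < u → 0 < w → x = p.1 →
        ((n, ρ) : A6) = u • p.2.1 → ((s • cr x n, n + d) : A6) = w • p.2.2.1 →
        Γ = (u * w) • p.2.2.2 → G ε p → 0 < P ε c x (n, ρ) (s • cr x n, n + d) Γ)) :
    ∃ ε₀ : ℝ, 0 < ε₀ ∧ ∀ ε, |ε| < ε₀ → ∀ c ∈ C, ∀ x (α β Γ : A6), (x, α, β, Γ) ∈ H907H.KK →
      G ε (x, α, β, Γ) → 0 < P ε c x α β Γ := by
  obtain ⟨t0, ht0, hnear⟩ := hnear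
  have hloc : ∀ q ∈ C ×ˢ H907H.KK, ∀ᶠ z : ℝ × (T × V3 × A6 × A6 × A6) in 𝓝 ((0 : ℝ), q),
      z.2.1 ∈ C → z.2.2 ∈ H907H.KK → G z.1 z.2.2 →
        0 < P z.1 z.2.1 z.2.2.1 z.2.2.2.1 z.2.2.2.2.1 z.2.2.2.2.2 := by
    rintro ⟨c, x, α, β, Γ⟩ ⟨hc, hp⟩
    by_cases hz : Zer α β Γ
    · have hch := chart hp hz ht0
      have h1 : ∀ᶠ z : ℝ × (T × V3 × A6 × A6 × A6) in 𝓝 ((0 : ℝ), (c, x, α, β, Γ)),
          |z.1| < t0 := by
        have : ContinuousAt (fun z : ℝ × (T × V3 × A6 × A6 × A6) => |z.1|) (0, c, x, α, β, Γ) := by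
          fun_prop
        refine this.eventually_lt continuousAt_const ?_
        simpa using ht0
      have h2' : ContinuousAt (fun z : ℝ × (T × V3 × A6 × A6 × A6) => z.2.2)
          (0, c, x, α, β, Γ) := by fun_prop
      have h2 := h2'.eventually hch
      filter_upwards [h1, h2] with z hz1 hz2 hz0 hz3 hz4
      obtain ⟨ε, c, x, α, β, Γ⟩ := z
      simp only at hz0 hz1 hz2 hz3 hz4 ⊢
      obtain ⟨s, n, ρ, d, Γ', u, w, hu, hw, c1, c2, c3, c4, c5, c6, c7, c8, c9, ea, eb, eg⟩ :=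
        hz2 hz3
      have hx1 := hz3.1
      have key := hnear c hz0 ε s x n ρ d Γ' hz1 ⟨hx1, c1, c2, c3, c4, c5, c6, c7, c8, c9⟩
        (x, α, β, Γ) u w hu hw rfl ea eb eg hz4
      have h := hsl ε c x α β Γ u 0 0 w
      simp only [zero_smul, add_zero, zero_add, mul_zero, sub_zero] at h
      rw [ea, eb, eg, h] at key
      have hpos : 0 < (u * w) ^ 2 := by positivity
      exact (pos_iff_pos_of_mul_pos key).1 hpos
    · have h0 := hoff c hc x α β Γ hp hz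
      have := hcont.continuousAt (x := ((0 : ℝ), c, x, α, β, Γ))
      filter_upwards [this.eventually (lt_mem_nhds h0)] with z hz _ _ _
      exact hz
  have hglob := (hC.prod isCompact_KK).eventually_forall_of_forall_eventually
    (P := fun (ε : ℝ) (p : T × V3 × A6 × A6 × A6) => p.1 ∈ C → p.2 ∈ H907H.KK → G ε p.2 →
      0 < P ε p.1 p.2.1 p.2.2.1 p.2.2.2.1 p.2.2.2.2) hloc
  obtain ⟨ε₀, hε₀, hball⟩ := Metric.eventually_nhds_iff.1 hglob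
  refine ⟨ε₀, hε₀, fun ε hlt c hc x α β Γ hp hG => ?_⟩
  have hε' : dist ε 0 < ε₀ := by rw [Real.dist_eq, sub_zero]; exact hlt
  exact hball hε' (c, x, α, β, Γ) ⟨hc, hp⟩ hc hp hG

/-- Step in `μ`: positivity off the zero set persists for small `μ`. -/
theorem exists_muW (hC : IsCompact C) (P : ℝ → T → V3 → A6 → A6 → A6 → ℝ)
    (hcont : Continuous fun t : ℝ × T × V3 × A6 × A6 × A6 =>
      P t.1 t.2.1 t.2.2.1 t.2.2.2.1 t.2.2.2.2.1 t.2.2.2.2.2)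
    (hsl : ∀ ε c' x α β Γ (a b c d : ℝ),
      P ε c' x (a • α + b • β) (c • α + d • β) ((a * d - b * c) • Γ) =
        (a * d - b * c) ^ 2 * P ε c' x α β Γ)
    (hoff : ∀ c ∈ C, ∀ x (α β Γ : A6), (x, α, β, Γ) ∈ H907H.KK → ¬Zer α β Γ → 0 < P 0 c x α β Γ)
    (hnear : ∃ t0 : ℝ, 0 < t0 ∧ ∀ c ∈ C, ∀ (μ s : ℝ) (x n ρ d : V3) (Γ : A6), |μ| < t0 →
      InCh t0 s x n ρ d Γ → ¬(s = 0 ∧ ρ = 0 ∧ d = 0 ∧ Γ = 0) →
        0 < P μ c x (n, ρ) (s • cr x n, n + d) Γ) :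
    ∃ μ₀ : ℝ, 0 < μ₀ ∧ ∀ μ, |μ| < μ₀ → ∀ c ∈ C, ∀ x (α β Γ : A6), (x, α, β, Γ) ∈ H907H.KK →
      ¬Zer α β Γ → 0 < P μ c x α β Γ := by
  refine exists_genW hC P hcont hsl hoff (fun _ p => ¬Zer p.2.1 p.2.2.1 p.2.2.2) ?_
  obtain ⟨t0, ht0, hnear⟩ := hnear
  refine ⟨t0, ht0, fun c hc ε s x n ρ d Γ hε hch p u w hu hw hx ha hb hg hG =>
    hnear c hc ε s x n ρ d Γ hε hch ?_⟩
  rintro ⟨rfl, rfl, rfl, rfl⟩
  apply hG
  have ea : p.2.1 = u⁻¹ • ((n, 0) : A6) := by rw [ha, inv_smul_smul₀ hu.ne']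
  have eb : p.2.2.1 = w⁻¹ • (((0 : ℝ) • cr x n, n + 0) : A6) := by
    rw [hb, inv_smul_smul₀ hw.ne']
  have eg : p.2.2.2 = 0 := by
    have huw : u * w ≠ 0 := (mul_pos hu hw).ne'
    exact (smul_eq_zero.1 hg.symm).resolve_left huw
  have hself : ∀ a : V3, ∀ r q : ℝ, cr (r • a) (q • a) = 0 := by
    intro a r q
    refine ext3 ?_ ?_ ?_ <;> simp <;> ring
  refine ⟨?_, ?_, ?_, eg⟩
  · rw [ea, eb]
    have := hself n u⁻¹ 0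
    simpa using this
  · rw [ea, eb]
    have := hself n 0 w⁻¹
    simpa using this
  · rw [ea, eb]
    have := hself n u⁻¹ w⁻¹
    simpa using this

/-- Step in `ε`. -/
theorem exists_epsW (hC : IsCompact C) (P : ℝ → T → V3 → A6 → A6 → A6 → ℝ)
    (hcont : Continuous fun t : ℝ × T × V3 × A6 × A6 × A6 =>
      P t.1 t.2.1 t.2.2.1 t.2.2.2.1 t.2.2.2.2.1 t.2.2.2.2.2)
    (hsl : ∀ ε c' x α β Γ (a b c d : ℝ),
      P ε c' x (a • α + b • β) (c • α + d • β) ((a * d - b * c) • Γ) =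
        (a * d - b * c) ^ 2 * P ε c' x α β Γ)
    (hoff : ∀ c ∈ C, ∀ x (α β Γ : A6), (x, α, β, Γ) ∈ H907H.KK → ¬Zer α β Γ → 0 < P 0 c x α β Γ)
    (hnear : ∃ t0 : ℝ, 0 < t0 ∧ ∀ c ∈ C, ∀ (ε s : ℝ) (x n ρ d : V3) (Γ : A6), 0 < ε → ε < t0 →
      InCh t0 s x n ρ d Γ → 0 < P ε c x (n, ρ) (s • cr x n, n + d) Γ) :
    ∃ ε₀ : ℝ, 0 < ε₀ ∧ ∀ ε, 0 < ε → ε < ε₀ → ∀ c ∈ C, ∀ x (α β Γ : A6), ‖x‖ = 1 →
      ⟪x, α.1⟫ = 0 → ⟪x, β.1⟫ = 0 → ⟪x, Γ.1⟫ = 0 → pr α α = 1 → pr β β = 1 → pr α β = 0 →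
      0 < P ε c x α β Γ := by
  obtain ⟨t0, ht0, hnear⟩ := hnear
  obtain ⟨ε₀, hε₀, h⟩ := exists_genW hC P hcont hsl hoff (fun ε _ => 0 < ε)
    ⟨t0, ht0, fun c hc ε s x n ρ d Γ hε hch p u w hu hw hx ha hb hg hG =>
      hnear c hc ε s x n ρ d Γ hG ((abs_lt.1 hε).2) hch⟩
  refine ⟨ε₀, hε₀, fun ε h0 h1 c hc => of_KK (P ε c) (hsl ε c) fun x α β Γ hp => ?_⟩
  exact h ε (by rw [abs_of_pos h0]; exact h1) c hc x α β Γ hp h0

end Y934.PR
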