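import Pool.Agent.H878R5.S23.Act

/-!
Deformations of the product metrics on `S² × S²` and `S² × S³` to positive curvature: statements.
-/

open Bundle Manifold ContDiff Metric
open scoped Topology RealInnerProductSpace Quaternion Matrix

set_option autoImplicit false
set_option linter.unusedSectionVars false

noncomputable section

namespace Y934.PR

open Pool.Agent.H821R2 Pool.Agent.H878R5

/-- the momentum `x × b` of the covector `b` at the point `x` of the unit sphere of `ℝ³`, for the
rotations of the sphere -/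
def momS2 (x b : EuclideanSpace ℝ (Fin 3)) : Fin 3 → ℝ := crossProduct x.ofLp b.ofLp

/-- the momentum of the covector `b` at the unit quaternion `q`, for the left multiplications with
unit quaternions (which act on `ℝ³` as rotations): half of the imaginary part of `b q̄` -/
def momS3 (q b : ℍ[ℝ]) : Fin 3 → ℝ :=
  ![(b * star q).imI / 2, (b * star q).imJ / 2, (b * star q).imK / 2]

variable {E : Type*} [NormedAddCommGroup E] [NormedSpace ℝ E]
  {H : Type*} [TopologicalSpace H] {I : ModelWithCorners ℝ E H}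
  {M : Type*} [TopologicalSpace M] [ChartedSpace H M] [IsManifold I ∞ M]
  {V₁ : Type*} [NormedAddCommGroup V₁] [InnerProductSpace ℝ V₁]
  {V₂ : Type*} [NormedAddCommGroup V₂] [InnerProductSpace ℝ V₂]

/-- For a manifold `M` immersed in a normed vector space `A` by `j`: the metrics `G t` on `M`,
`0 ≤ t ≤ 1`, depend smoothly on `t`.  They are induced by bilinear forms `h (t, z)` on `A`, which
depend smoothly on `(t, z)` near the points `(t, j p)`. -/
def SmoothFamily {A : Type*} [NormedAddCommGroup A] [NormedSpace ℝ A] (j : M → A)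
    (G : ℝ → ContMDiffRiemannianMetric I ∞ E (fun x : M => TangentSpace I x)) : Prop :=
  ∃ h : ℝ × A → A →L[ℝ] A →L[ℝ] ℝ, ∀ t : ℝ, 0 ≤ t → t ≤ 1 → ∀ p : M,
    ContDiffAt ℝ ∞ h (t, j p) ∧ ∀ u v : TangentSpace I p,
      (G t).inner p u v = h (t, j p) (mvfderiv I j p u) (mvfderiv I j p v)

/-- `g = r² |dx|² + s² |dy|²`, for maps `x : M → V₁`, `y : M → V₂` to Euclidean spaces -/
def IsProductForm (x : M → V₁) (y : M → V₂) (r s : ℝ)
    (g : ContMDiffRiemannianMetric I ∞ E (fun x : M => TangentSpace I x)) : Prop :=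
  ∀ (p : M) (u v : TangentSpace I p),
    g.inner p u v = r ^ 2 * ⟪mvfderiv I x p u, mvfderiv I x p v⟫ +
      s ^ 2 * ⟪mvfderiv I y p u, mvfderiv I y p v⟫

/-- The metric `g` on `M` has the cometric `a |L|² + b |K|² + w |L + K|²` with the momenta
`L = L p b₁`, `K = K p b₂`: if the tangent vector `v` at `p` represents the covector
`⟨b₁, dx⟩ + ⟨b₂, dy⟩` with respect to `g`, then `g(v, v)` has this value. -/
def HasCometric (x : M → V₁) (y : M → V₂) (L : M → V₁ → Fin 3 → ℝ) (K : M → V₂ → Fin 3 → ℝ)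
    (a b w : ℝ) (g : ContMDiffRiemannianMetric I ∞ E (fun x : M => TangentSpace I x)) : Prop :=
  ∀ (p : M) (b₁ : V₁) (b₂ : V₂) (v : TangentSpace I p),
    (∀ u : TangentSpace I p,
      g.inner p v u = ⟪b₁, mvfderiv I x p u⟫ + ⟪b₂, mvfderiv I y p u⟫) →
    g.inner p v v = a * (L p b₁ ⬝ᵥ L p b₁) + b * (K p b₂ ⬝ᵥ K p b₂) +
      w * ((L p b₁ + K p b₂) ⬝ᵥ (L p b₁ + K p b₂))

/-- `G t`, `0 ≤ t ≤ 1`, is a smooth family of metrics, `G 0` has the cometric
`a |L|² + b |K|² + w |L + K|²` (and is `r² |dx|² + s² |dy|²` if `w = 0`), and `G t` has positive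
sectional curvature for `t > 0`. -/
def IsDeformation (x : M → V₁) (y : M → V₂) (L : M → V₁ → Fin 3 → ℝ) (K : M → V₂ → Fin 3 → ℝ)
    (a b w r s : ℝ)
    (G : ℝ → ContMDiffRiemannianMetric I ∞ E (fun x : M => TangentSpace I x)) : Prop :=
  SmoothFamily (fun p => (x p, y p)) G ∧
  HasCometric x y L K a b w (G 0) ∧ (w = 0 → IsProductForm x y r s (G 0)) ∧
  ∀ t : ℝ, 0 < t → t ≤ 1 → PositivelyCurved (G t)

variable (I M) in
/-- the smooth Riemannian metrics on `M` -/
abbrev Metric' : Type _ := ContMDiffRiemannianMetric I ∞ E (fun x : M => TangentSpace I x)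

variable (I) in
/-- There is a deformation `G` as in `IsDeformation` on the manifold `M`. -/
def HasDeformation (x : M → V₁) (y : M → V₂) (L : M → V₁ → Fin 3 → ℝ) (K : M → V₂ → Fin 3 → ℝ)
    (a b w r s : ℝ) : Prop :=
  ∃ G : ℝ → Metric' I M, IsDeformation x y L K a b w r s G

variable {E' : Type*} [NormedAddCommGroup E'] [NormedSpace ℝ E']
  {H' : Type*} [TopologicalSpace H'] (I' : ModelWithCorners ℝ E' H')
  {G' : Type*} [Group G'] [TopologicalSpace G'] [ChartedSpace H' G']

variable (I) in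
/-- There is a deformation `G` as in `IsDeformation` on the manifold `M`, such that `act` is a free
isometric action of the group `G'` for all the metrics `G t`, `0 ≤ t ≤ 1`. -/
def HasInvariantDeformation (x : M → V₁) (y : M → V₂) (L : M → V₁ → Fin 3 → ℝ)
    (K : M → V₂ → Fin 3 → ℝ) (a b w r s : ℝ) (act : G' → M → M) : Prop :=
  ∃ G : ℝ → Metric' I M, IsDeformation x y L K a b w r s G ∧
    ∀ t : ℝ, 0 ≤ t → t ≤ 1 → FreeIsometricAction I' (G t) act

/-- The deformation statement for `S² × S²`: `G 0` has the cometric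
`|L|² / r² + |K|² / s² + w |L + K|²` and is the product of the round metrics of radii `r` and `s` if
`w = 0`. -/
def Deformation22 (r s w : ℝ) : Prop :=
  HasDeformation ((𝓡 2).prod (𝓡 2)) (fun q : S23.S2 × S23.S2 => (q.1 : EuclideanSpace ℝ (Fin 3)))
    (fun q : S23.S2 × S23.S2 => (q.2 : EuclideanSpace ℝ (Fin 3)))
    (fun q => momS2 q.1) (fun q => momS2 q.2) (1 / r ^ 2) (1 / s ^ 2) w r s

/-- The deformation statement for `S² × S³`, with the action `h • (x, q) = (x, q h⁻¹)` of the unit
quaternions: `G 0` has the cometric `|L|² / r² + 4 |K|² / s² + w |L + K|²` and is the product of the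
round metrics of radii `r` and `s` if `w = 0`. -/
def Deformation23 (r s w : ℝ) : Prop :=
  HasInvariantDeformation ((𝓡 2).prod (𝓡 3)) (𝓡 3)
    (fun q : S23.S2 × S23.S3 => (q.1 : EuclideanSpace ℝ (Fin 3)))
    (fun q : S23.S2 × S23.S3 => (q.2 : ℍ[ℝ]))
    (fun q => momS2 q.1) (fun q => momS3 q.2) (1 / r ^ 2) (4 / s ^ 2) w r s S23.ract

end Y934.PR
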