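import Pool.Agent.Y934.PR.Near
import Pool.Agent.H907R2.HO.LocC

/-!
Local positivity of the polynomial `PP` near its zero set, in the slice
`x = e₁`, `n = e₃`, uniformly in the rotation (LOC0, LOC1).
-/

open Set Filter
open scoped Topology
open H563H HopfPP HopfPP.LocH

noncomputable section

namespace Y934.PR

theorem cont_W (w : ℝ) (i j : Fin 3) : Continuous fun θ : Th => Wr w (pμ θ) (pO θ) i j := by
  have h1 : Continuous pO := cO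
  have h2 : Continuous pμ := cμ
  fin_cases i <;> fin_cases j <;> simp only [Wr, symm3, Matrix.cons_val_zero, Matrix.cons_val_one,
    Matrix.cons_val, Fin.zero_eta, Fin.mk_one, Fin.reduceFinMk] <;> fun_prop

/-- the second order coefficient without quadratic term -/
def Aco (a w : ℝ) (θ : Th) : ℝ :=
  (PP (DT a (Wr w (pμ θ) (pO θ)) (fun _ => 0) (pe θ) (vr (pO θ))) (tv ![1, 0, 0] 0 0)
    (aT (pr' θ)) (bT (ps θ) (pd θ)) (gTT (pg θ) (ph θ))).c2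

/-- the second order coefficient -/
def Psi (a w : ℝ) (θ : Th) : ℝ := Aco a w θ + a * (pe θ ^ 2 * k4 (pO θ 2) / 32)

theorem cont_Aco (a w : ℝ) : Continuous (Aco a w) := by
  obtain ⟨D, hD⟩ : ∃ D : Dat (contT3 Th), ∀ θ, mapD (evT θ) D =
      DT a (Wr w (pμ θ) (pO θ)) (fun _ => 0) (pe θ) (vr (pO θ)) :=
    ⟨⟨fun i j => ctE (fun θ => ⟨Wr w (pμ θ) (pO θ) i j, 0, 0⟩) (cont_W w i j)
        continuous_const continuous_const, fun i j => ctE (fun _ => ⟨ida (a - 1) i j, 0, 0⟩)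
        continuous_const continuous_const continuous_const,
      ctE (fun θ => ⟨0, pe θ, 0⟩) continuous_const ce continuous_const,
      fun j => ctE (fun θ => ⟨vr (pO θ) j, 0, 0⟩) (cont_v j) continuous_const
        continuous_const⟩, fun θ => rfl⟩
  obtain ⟨x, hx⟩ : ∃ x : V (contT3 Th), ∀ θ, mapV (evT θ) x = tv ![1, 0, 0] 0 0 :=
    ⟨fun j => ctE (fun θ => ⟨(![1, 0, 0] : V ℝ) j, 0, 0⟩) continuous_const
        continuous_const continuous_const, fun θ => rfl⟩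
  obtain ⟨a1, ha⟩ : ∃ a : V6 (contT3 Th), ∀ θ, map6 (evT θ) a = aT (pr' θ) :=
    ⟨(fun j => ctE (fun θ => ⟨(![0, 0, 1] : V ℝ) j, 0, 0⟩) continuous_const
        continuous_const continuous_const,
      fun j => ctE (fun θ => ⟨0, pr' θ j, 0⟩) continuous_const (cr'j j) continuous_const),
      fun θ => rfl⟩
  obtain ⟨b, hb⟩ : ∃ b : V6 (contT3 Th), ∀ θ, map6 (evT θ) b = bT (ps θ) (pd θ) :=
    ⟨(fun j => ctE (fun θ => ⟨0, (![0, -ps θ, 0] : V ℝ) j, 0⟩) continuous_const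
        (by have := cs; fin_cases j <;> simp <;> fun_prop) continuous_const,
      fun j => ctE (fun θ => ⟨(![0, 0, 1] : V ℝ) j, pd θ j, 0⟩) continuous_const (cdj j)
        continuous_const), fun θ => rfl⟩
  obtain ⟨G, hG⟩ : ∃ G : V6 (contT3 Th), ∀ θ, map6 (evT θ) G = gTT (pg θ) (ph θ) :=
    ⟨(fun j => ctE (fun θ => ⟨0, pg θ j, 0⟩) continuous_const (cgj j) continuous_const,
      fun j => ctE (fun θ => ⟨0, ph θ j, 0⟩) continuous_const (chj j) continuous_const),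
      fun θ => rfl⟩
  have h := contT3_c2 (PP D x a1 b G)
  have e : Aco a w = fun θ => (evT θ (PP D x a1 b G)).c2 := by
    funext θ
    rw [map_PP, hD, hx, ha, hb, hG, Aco]
  rw [e]
  exact h

theorem cont_Psi (a w : ℝ) : Continuous (Psi a w) := by
  have h1 := cont_Aco a w
  have h2 := ce
  have h3 : Continuous pO := cO
  unfold Psi k4
  fun_prop

/-! ### Transfer from the second order coefficient -/

section transfer

variable {S : Set Th}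

theorem apQ (a : ℝ) {q : Th → ℝ} (i j : Fin 3) (hq : Bdd S fun θ => Qr (q θ) (pO θ) i j) :
    Approx S (fun θ t => ida (a - 1) i j + Qr (t ^ 2 * q θ) (pO θ) i j)
      (fun θ => ⟨ida (a - 1) i j, 0, Qr (q θ) (pO θ) i j⟩) := by
  have h := Approx.of_val (S := S) (c := fun θ => ⟨ida (a - 1) i j, 0, Qr (q θ) (pO θ) i j⟩)
    (Bdd.const S (ida (a - 1) i j))
    (Bdd.const S 0) hq
  have e : (fun θ t => ida (a - 1) i j + Qr (t ^ 2 * q θ) (pO θ) i j) =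
      fun θ t => T3.val ⟨ida (a - 1) i j, 0, Qr (q θ) (pO θ) i j⟩ t := by
    funext θ t
    rw [Qr_lin]
    simp only [T3.val]
    ring
  rw [e]
  exact h

/-- the second order coefficient of the full polynomial -/
theorem c2_full {O : Fin 3 → V ℝ} (hO : Rotn O) (a w μ q e s : ℝ) (r d g h : V ℝ)
    (hq : μ ^ 2 * q = a * (e ^ 2 / 128)) :
    (PP (DT a (Wr w μ O) (Qr q O) e (vr O)) (tv ![1, 0, 0] 0 0) (aT r) (bT s d) (gTT g h)).c2 =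
      Psi a w (O, μ, e, r, d, s, g, h) := by
  have h1 := c2_Q a (w + μ * (2 * (O 0 0 * O 0 2))) (μ * (O 0 0 * O 1 2 + O 0 2 * O 1 0))
    (μ * (O 0 0 * O 2 2 + O 0 2 * O 2 0)) (w + μ * (2 * (O 1 0 * O 1 2)))
    (μ * (O 1 0 * O 2 2 + O 1 2 * O 2 0)) (w + μ * (2 * (O 2 0 * O 2 2)))
    (q * (3 * (O 0 0 * O 0 0) - O 0 2 * O 0 2)) (q * (3 * (O 0 0 * O 1 0) - O 0 2 * O 1 2))
    (q * (3 * (O 0 0 * O 2 0) - O 0 2 * O 2 2)) (q * (3 * (O 1 0 * O 1 0) - O 1 2 * O 1 2))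
    (q * (3 * (O 1 0 * O 2 0) - O 1 2 * O 2 2)) (q * (3 * (O 2 0 * O 2 0) - O 2 2 * O 2 2))
    e (vr O) r d g h s
  rw [← KQv_e3] at h1
  have h2 := KQ_Dr hO w μ q
  have h3 : KQv (symm3 (w + μ * (2 * (O 0 0 * O 0 2))) (μ * (O 0 0 * O 1 2 + O 0 2 * O 1 0))
    (μ * (O 0 0 * O 2 2 + O 0 2 * O 2 0)) (w + μ * (2 * (O 1 0 * O 1 2)))
    (μ * (O 1 0 * O 2 2 + O 1 2 * O 2 0)) (w + μ * (2 * (O 2 0 * O 2 2))))
    (symm3 (q * (3 * (O 0 0 * O 0 0) - O 0 2 * O 0 2)) (q * (3 * (O 0 0 * O 1 0) - O 0 2 * O 1 2))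
    (q * (3 * (O 0 0 * O 2 0) - O 0 2 * O 2 2)) (q * (3 * (O 1 0 * O 1 0) - O 1 2 * O 1 2))
    (q * (3 * (O 1 0 * O 2 0) - O 1 2 * O 2 2)) (q * (3 * (O 2 0 * O 2 0) - O 2 2 * O 2 2)))
    ![0, 0, 1] = μ ^ 2 * q * k4 (O 2) := h2
  rw [h3, hq] at h1
  refine h1.trans ?_
  simp only [Psi, Aco, pO, pμ, pe, pr', pd, ps, pg, ph, Wr]
  ring

theorem main_transfer (a w : ℝ) (hS : IsCompact S) (hrot : ∀ θ ∈ S, Rotn (pO θ)) {q : Th → ℝ}
    (hq : Continuous q) (hqe : ∀ θ ∈ S, pμ θ ^ 2 * q θ = a * (pe θ ^ 2 / 128))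
    (hpos : ∀ θ ∈ S, 0 < Psi a w θ) :
    ∃ t0 > 0, ∀ θ ∈ S, ∀ t, 0 < t → t < t0 →
      0 < PP (Dr a w (pμ θ) (t ^ 2 * q θ) (t * pe θ) (pO θ)) ![1, 0, 0]
        (![0, 0, 1], fun j => t * pr' θ j)
        (fun j => t * (![0, -ps θ, 0] : V ℝ) j, fun j => (![0, 0, 1] : V ℝ) j + t * pd θ j)
        (fun j => t * pg θ j, fun j => t * ph θ j) := by
  have bd : ∀ {f : Th → ℝ}, Continuous f → Bdd S f := fun hf =>
    Bdd.of_continuousOn hS hf.continuousOn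
  -- the data over `approxRing S`
  let D : Dat (approxRing S) :=
    ⟨fun i j => (apC (bd (cont_W w i j))).mk', fun i j => (apQ a i j (bd (cont_Q hq i j))).mk',
      (apT (bd ce)).mk', fun j => (apC (bd (cont_v j))).mk'⟩
  let x : V (approxRing S) := fun j => (apC (Bdd.const S ((![1, 0, 0] : V ℝ) j))).mk'
  let a1 : V6 (approxRing S) := (fun j => (apC (Bdd.const S ((![0, 0, 1] : V ℝ) j))).mk',
    fun j => (apT (bd (cr'j j))).mk')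
  have hs : ∀ j : Fin 3, Continuous fun θ => (![0, -ps θ, 0] : V ℝ) j := by
    have := cs
    intro j
    fin_cases j <;> simp <;> fun_prop
  let b : V6 (approxRing S) := (fun j => (apT (bd (hs j))).mk',
    fun j => (apL j (bd (cdj j)) ![0, 0, 1]).mk')
  let G : V6 (approxRing S) := (fun j => (apT (bd (cgj j))).mk', fun j => (apT (bd (chj j))).mk')
  let P : approxRing S := PP D x a1 b G
  have hC : ∀ θ, evC S θ P = PP (DT a (Wr w (pμ θ) (pO θ)) (Qr (q θ) (pO θ)) (pe θ) (vr (pO θ)))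
      (tv ![1, 0, 0] 0 0) (aT (pr' θ)) (bT (ps θ) (pd θ)) (gTT (pg θ) (ph θ)) := by
    intro θ
    show evC S θ (PP D x a1 b G) = _
    rw [map_PP]
    rfl
  have hF : ∀ θ t, evF S θ t P = PP (Dr a w (pμ θ) (t ^ 2 * q θ) (t * pe θ) (pO θ)) ![1, 0, 0]
        (![0, 0, 1], fun j => t * pr' θ j)
        (fun j => t * (![0, -ps θ, 0] : V ℝ) j, fun j => (![0, 0, 1] : V ℝ) j + t * pd θ j)
        (fun j => t * pg θ j, fun j => t * ph θ j) := by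
    intro θ t
    show evF S θ t (PP D x a1 b G) = _
    rw [map_PP]
    rfl
  have hc2 : ∀ θ ∈ S, (evC S θ P).c2 = Psi a w θ := by
    intro θ hθ
    rw [hC]
    exact c2_full (hrot θ hθ) a w (pμ θ) (q θ) (pe θ) (ps θ) (pr' θ) (pd θ) (pg θ) (ph θ) (hqe θ hθ)
  obtain ⟨κ, hκ, hκ'⟩ : ∃ κ > 0, ∀ θ ∈ S, κ ≤ Psi a w θ := by
    rcases S.eq_empty_or_nonempty with h | h
    · exact ⟨1, one_pos, fun θ hθ => by rw [h] at hθ; exact hθ.elim⟩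
    · obtain ⟨θ₀, h₀, hmin⟩ := hS.exists_isMinOn h (cont_Psi a w).continuousOn
      exact ⟨Psi a w θ₀, hpos θ₀ h₀, fun θ hθ => hmin hθ⟩
  obtain ⟨t0, ht0, h⟩ := approxRing_pos P
    (fun θ _ => by rw [hC]; exact (c01_eq _ _ _ _ _ _ _ _ _ _ _ _ _ _ _).1)
    (fun θ _ => by rw [hC]; exact (c01_eq _ _ _ _ _ _ _ _ _ _ _ _ _ _ _).2) hκ
    (fun θ hθ => by rw [hc2 θ hθ]; exact hκ' θ hθ)
  refine ⟨t0, ht0, fun θ hθ t h1 h2 => ?_⟩
  have := h θ hθ t h1 h2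
  rwa [hF] at this

end transfer


theorem Wr_zero (w : ℝ) (O : Fin 3 → V ℝ) : Wr w 0 O = symm3 w 0 0 w 0 w := by
  simp [Wr]

theorem sum_zero' {a w a1 a2 a3 a4 a5 a6 a7 a8 a9 a10 a11 a12 a13 a14 a15 : ℝ} (ha : 0 < a)
    (hw : 0 < w) (h1 : 0 ≤ a1)
    (h2 : 0 ≤ a2) (h3 : 0 ≤ a3) (h4 : 0 ≤ a4) (h5 : 0 ≤ a5) (h6 : 0 ≤ a6) (h7 : 0 ≤ a7)
    (h8 : 0 ≤ a8) (h9 : 0 ≤ a9) (h10 : 0 ≤ a10) (h11 : 0 ≤ a11) (h12 : 0 ≤ a12) (h13 : 0 ≤ a13)
    (h14 : 0 ≤ a14) (h15 : 0 ≤ a15)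
    (h : a ^ 3 * a1 + (a2 + a3) + w ^ 3 * (a4 + a5) + 3 * (a * (a6 + a7 + a8) + (a9 + a10 + a11) +
      w * (a12 + a13 + a14)) + a * a15 ≤ 0) : a1 = 0 ∧ a2 = 0 ∧ a3 = 0 ∧ a4 = 0 ∧ a5 = 0 ∧ a6 = 0 ∧
      a7 = 0 ∧ a8 = 0 ∧ a9 = 0 ∧ a10 = 0 ∧ a11 = 0 ∧ a15 = 0 := by
  have pa := pow_pos ha 3
  have pw := pow_pos hw 3
  have z : ∀ {c t : ℝ}, 0 < c → c * t = 0 → t = 0 := by
    intro c t hc h
    rcases mul_eq_zero.1 h with h | h
    · exact absurd h hc.ne'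
    · exact h
  obtain ⟨z1, z2, z3, z4, z5, z6, z7, z8, z9, z10, z11, z12⟩ := sum_zero (mul_nonneg pa.le h1)
    h2 h3 (mul_nonneg pw.le h4) (mul_nonneg pw.le h5) (mul_nonneg ha.le h6) (mul_nonneg ha.le h7)
    (mul_nonneg ha.le h8) h9 h10 h11 (mul_nonneg hw.le h12) (mul_nonneg hw.le h13)
    (mul_nonneg hw.le h14) (mul_nonneg ha.le h15) (by linarith)
  exact ⟨z pa z1, z2, z3, z pw z4, z pw z5, z ha z6, z ha z7, z ha z8, z9, z10, z11, z ha z12⟩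

theorem Psi_zero_pos {a w : ℝ} (ha : 0 < a) (hw : 0 < w) {θ : Th} (hθ : θ ∈ KK1)
    (hμ : pμ θ = 0) : 0 < Psi a w θ := by
  obtain ⟨hO, hn, hr2, hd2, -⟩ := hθ
  have hS := S_pos hO.o22
  rw [Psi, Aco, hμ, Wr_zero, c2_one]
  have hv : vr (pO θ) 2 = pO θ 2 0 + pO θ 2 1 := rfl
  rw [hv]
  set e := pe θ
  set r := pr' θ
  set d := pd θ
  set s := ps θ
  set g := pg θ
  set h := ph θ
  set A := pO θ 2 0 + pO θ 2 1
  set K := k4 (pO θ 2)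
  have hn' : e ^ 2 + dt r r + dt d d + s ^ 2 + dt g g + dt h h = 1 := hn
  simp only [dt] at hn'
  by_contra hcon
  have hcon' := not_lt.mp hcon
  have he0 : 0 ≤ e ^ 2 * (A ^ 2 + 1 / 32 * K) := mul_nonneg (sq_nonneg e) hS.le
  have t1 := sq_nonneg s
  have t2 := sq_nonneg (r 0)
  have t3 := sq_nonneg (r 1)
  have t4 := sq_nonneg (s + r 1 - d 1)
  have t5 := sq_nonneg (r 0 - d 0)
  have t6 := sq_nonneg (g 0 - a * s)
  have t7 := sq_nonneg (g 1)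
  have t8 := sq_nonneg (g 2)
  have t9 := sq_nonneg (h 0 - r 1)
  have t10 := sq_nonneg (h 1 + r 0)
  have t11 := sq_nonneg (h 2)
  have t12 := sq_nonneg (g 0 + h 0 - (2 * a + w) * s - (2 + w) * r 1 + w * d 1)
  have t13 := sq_nonneg (g 1 + h 1 + (2 + w) * r 0 - w * d 0 + e * A)
  have t14 := sq_nonneg (g 2 + h 2)
  have hE : a * (e * A) ^ 2 + a * (e ^ 2 * K / 32) = a * (e ^ 2 * (A ^ 2 + 1 / 32 * K)) := by ring
  obtain ⟨z1, z2, z3, z4, z5, z6, z7, z8, z9, z10, z11, z12⟩ := sum_zero' ha hw t1 t2 t3 t4 t5 t6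
    t7 t8 t9 t10 t11 t12 t13 t14 he0 (by rw [← hE]; linarith)
  have hs : s = 0 := pow_eq_zero_iff two_ne_zero |>.1 z1
  have hr0 : r 0 = 0 := pow_eq_zero_iff two_ne_zero |>.1 z2
  have hr1 : r 1 = 0 := pow_eq_zero_iff two_ne_zero |>.1 z3
  have hd1 : s + r 1 - d 1 = 0 := pow_eq_zero_iff two_ne_zero |>.1 z4
  have hd0 : r 0 - d 0 = 0 := pow_eq_zero_iff two_ne_zero |>.1 z5
  have hg0 : g 0 - a * s = 0 := pow_eq_zero_iff two_ne_zero |>.1 z6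
  have hg1 : g 1 = 0 := pow_eq_zero_iff two_ne_zero |>.1 z7
  have hg2 : g 2 = 0 := pow_eq_zero_iff two_ne_zero |>.1 z8
  have hh0 : h 0 - r 1 = 0 := pow_eq_zero_iff two_ne_zero |>.1 z9
  have hh1 : h 1 + r 0 = 0 := pow_eq_zero_iff two_ne_zero |>.1 z10
  have hh2 : h 2 = 0 := pow_eq_zero_iff two_ne_zero |>.1 z11
  have he : e ^ 2 * (A ^ 2 + 1 / 32 * K) = 0 := z12
  have he' : e = 0 := by
    rcases mul_eq_zero.1 he with h1 | h1
    · exact pow_eq_zero_iff two_ne_zero |>.1 h1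
    · exact absurd h1 hS.ne'
  have hd1' : d 1 = 0 := by rw [hs, hr1] at hd1; linarith
  have hd0' : d 0 = 0 := by rw [hr0] at hd0; linarith
  have hg0' : g 0 = 0 := by rw [hs] at hg0; linarith [mul_zero a]
  have hh0' : h 0 = 0 := by rw [hr1] at hh0; linarith
  have hh1' : h 1 = 0 := by rw [hr0] at hh1; linarith
  rw [hs, hr0, hr1, hd1', hd0', hg0', hg1, hg2, hh0', hh1', hh2, he'] at hn'
  have a1 : r 2 * r 2 ≤ 1 / 4 * (1 / 4) := by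
    rw [← abs_mul_abs_self]
    exact mul_le_mul hr2 hr2 (abs_nonneg _) (by norm_num)
  have a2 : d 2 * d 2 ≤ 1 / 4 * (1 / 4) := by
    rw [← abs_mul_abs_self]
    exact mul_le_mul hd2 hd2 (abs_nonneg _) (by norm_num)
  clear t1 t2 t3 t4 t5 t6 t7 t8 t9 t10 t11 t12 t13 t14 he0 hE hcon hcon' hS
  linarith

/-- uniform positivity for small anisotropy -/
theorem exists_mu {a w : ℝ} (ha : 0 < a) (hw : 0 < w) :
    ∃ μ1 > 0, μ1 ≤ 1 ∧ ∀ θ ∈ KK1, |pμ θ| ≤ μ1 → 0 < Psi a w θ := by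
  have hK : IsCompact (KK1 ∩ {θ | Psi a w θ ≤ 0}) :=
    isCompact_KK1.inter_right (isClosed_le (cont_Psi a w) continuous_const)
  rcases (KK1 ∩ {θ | Psi a w θ ≤ 0}).eq_empty_or_nonempty with h | h
  · refine ⟨1, one_pos, le_rfl, fun θ hθ _ => ?_⟩
    by_contra hcon
    have : θ ∈ KK1 ∩ {θ | Psi a w θ ≤ 0} := ⟨hθ, not_lt.mp hcon⟩
    rw [h] at this
    exact this
  · obtain ⟨θ₀, h₀, hmin⟩ := hK.exists_isMinOn h (cμ.abs).continuousOn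
    have hp : 0 < |pμ θ₀| := by
      rw [abs_pos]
      intro h0
      exact absurd (Psi_zero_pos ha hw h₀.1 h0) (not_lt.mpr h₀.2)
    have hle : |pμ θ₀| ≤ 1 := h₀.1.2.2.2.2
    refine ⟨|pμ θ₀| / 2, by positivity, by linarith, fun θ hθ hμ => ?_⟩
    by_contra hcon
    have h1 : θ ∈ KK1 ∩ {θ | Psi a w θ ≤ 0} := ⟨hθ, not_lt.mp hcon⟩
    have h2 : |pμ θ₀| ≤ |pμ θ| := hmin h1
    linarith

/-- **LOC0**: the untwisted polynomial is positive near the zero set, for all small anisotropies. -/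
theorem loc0 {a w : ℝ} (ha : 0 < a) (hw : 0 < w) : ∃ t0 > 0, ∀ μ : ℝ, |μ| < t0 → ∀ O : Fin 3 → V ℝ, Rotn O → ∀ (r d : V ℝ) (s : ℝ)
    (G : V6 ℝ), dt r (![0, 0, 1] + d) = 0 → dt (![0, 0, 1] + d) (![0, 0, 1] + d) = 1 →
    (∀ j, |r j| < t0) → (∀ j, |d j| < t0) → |s| < t0 → (∀ j, |G.1 j| < t0) →
    (∀ j, |G.2 j| < t0) → ¬ (r = 0 ∧ d = 0 ∧ s = 0 ∧ G = 0) →
    0 < PP (Dr a w μ 0 0 O) ![1, 0, 0] (![0, 0, 1], r) (![0, -s, 0], ![0, 0, 1] + d) G := by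
  obtain ⟨μ1, hμ1, hμ1', hpos⟩ := exists_mu ha hw
  have hS : IsCompact (KK1 ∩ {θ | |pμ θ| ≤ μ1 ∧ pe θ = 0}) :=
    isCompact_KK1.inter_right
      ((isClosed_le cμ.abs continuous_const).inter (isClosed_eq ce continuous_const))
  obtain ⟨t0, ht0, h⟩ := main_transfer a w hS (fun θ hθ => hθ.1.1) (q := fun _ => 0) continuous_const
    (fun θ hθ => by rw [hθ.2.2]; ring) (fun θ hθ => hpos θ hθ.1 hθ.2.1)
  refine ⟨min (min μ1 (1 / 16)) (t0 / 4), by positivity, ?_⟩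
  intro μ hμ O hO r d s G h1 h2 hr hd hs hg hh hne
  set t1 := min (min μ1 (1 / 16)) (t0 / 4) with ht1
  have ht1p : 0 < t1 := by positivity
  have hle1 : t1 ≤ μ1 := (min_le_left _ _).trans (min_le_left _ _)
  have hle2 : t1 ≤ 1 / 16 := (min_le_left _ _).trans (min_le_right _ _)
  have hle3 : t1 ≤ t0 / 4 := min_le_right _ _
  obtain ⟨t, ht, ht', θ, hθ, e1, e2, e3, e4, e5, e6, e7⟩ := normalise hO (e := 0) (μ := μ)
    (by linarith) h1 h2 hle2 (by rw [abs_zero]; exact ht1p) hr hd hs hg hh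
    (fun hc => hne ⟨hc.2.1, hc.2.2.1, hc.2.2.2.1, hc.2.2.2.2⟩)
  have he : pe θ = 0 := by
    rcases mul_eq_zero.1 e3.symm with h | h
    · exact absurd h ht.ne'
    · exact h
  have := h θ ⟨hθ, by rw [mem_ofPred_eq, e2]; exact ⟨by linarith, he⟩⟩ t ht (by linarith)
  rw [e1, e2, he, mul_zero, mul_zero, ← e4, ← e5, ← e6, ← e7] at this
  exact this

/-- **LOC1**: for fixed small anisotropy `μ > 0` the full polynomial with `κ = ε²/(128 μ²)` is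
positive near the zero set for all small twists `ε > 0`. -/
theorem loc1 {a w : ℝ} (ha : 0 < a) (hw : 0 < w) : ∃ μ1 > 0, ∀ μ : ℝ, 0 < μ → μ < μ1 → ∃ t0 > 0, ∀ ε : ℝ, 0 < ε → ε < t0 →
    ∀ O : Fin 3 → V ℝ, Rotn O → ∀ (r d : V ℝ) (s : ℝ)
    (G : V6 ℝ), dt r (![0, 0, 1] + d) = 0 → dt (![0, 0, 1] + d) (![0, 0, 1] + d) = 1 →
    (∀ j, |r j| < t0) → (∀ j, |d j| < t0) → |s| < t0 → (∀ j, |G.1 j| < t0) →
    (∀ j, |G.2 j| < t0) →
    0 < PP (Dr a w μ (a * (ε ^ 2 / (128 * μ ^ 2))) ε O) ![1, 0, 0] (![0, 0, 1], r)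
      (![0, -s, 0], ![0, 0, 1] + d) G := by
  obtain ⟨μ1, hμ1, hμ1', hpos⟩ := exists_mu ha hw
  refine ⟨μ1, hμ1, fun μ hμ hμ' => ?_⟩
  have hS : IsCompact (KK1 ∩ {θ | pμ θ = μ}) :=
    isCompact_KK1.inter_right (isClosed_eq cμ continuous_const)
  have hq : Continuous fun θ : Th => a * (pe θ ^ 2 / (128 * μ ^ 2)) := by
    have := ce
    fun_prop
  obtain ⟨t0, ht0, h⟩ := main_transfer a w hS (fun θ hθ => hθ.1.1)
    (q := fun θ => a * (pe θ ^ 2 / (128 * μ ^ 2))) hq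
    (fun θ hθ => by
      have : pμ θ = μ := hθ.2
      rw [this]
      field_simp) (fun θ hθ => hpos θ hθ.1 (by
      have : pμ θ = μ := hθ.2
      rw [this, abs_of_pos hμ]
      exact hμ'.le))
  refine ⟨min (1 / 16) (t0 / 4), by positivity, ?_⟩
  intro ε hε hε' O hO r d s G h1 h2 hr hd hs hg hh
  set t1 := min (1 / 16) (t0 / 4) with ht1
  have ht1p : 0 < t1 := by positivity
  have hle2 : t1 ≤ 1 / 16 := min_le_left _ _
  have hle3 : t1 ≤ t0 / 4 := min_le_right _ _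
  obtain ⟨t, ht, ht', θ, hθ, e1, e2, e3, e4, e5, e6, e7⟩ := normalise hO (e := ε) (μ := μ)
    (by rw [abs_of_pos hμ]; linarith) h1 h2 hle2 (by rw [abs_of_pos hε]; exact hε') hr hd hs hg hh
    (fun hc => hε.ne' hc.1)
  have := h θ ⟨hθ, e2⟩ t ht (by linarith)
  have e8 : t ^ 2 * (a * (pe θ ^ 2 / (128 * μ ^ 2))) = a * (ε ^ 2 / (128 * μ ^ 2)) := by
    rw [e3]; ring
  rw [e8, e1, e2, ← e3, ← e4, ← e5, ← e6, ← e7] at this
  exact this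

theorem LOC0_holds {a w : ℝ} (ha : 0 < a) (hw : 0 < w) : LOC0 a w := by
  obtain ⟨t0, ht0, h⟩ := loc0 ha hw
  exact ⟨t0, ht0, fun μ O r d s G hμ hO h1 h2 h3 h4 =>
    h μ hμ O hO r d s G h1 h2 h3.1 h3.2.1 h3.2.2.1 h3.2.2.2.1 h3.2.2.2.2 h4⟩

theorem LOC1_holds {a w : ℝ} (ha : 0 < a) (hw : 0 < w) : LOC1 a w := by
  obtain ⟨μ1, hμ1, h⟩ := loc1 ha hw
  refine ⟨μ1, hμ1, fun μ m0 m1 => ?_⟩
  obtain ⟨t0, ht0, h⟩ := h μ m0 m1
  exact ⟨t0, ht0, fun e O r d s G e0 e1 hO h1 h2 h3 =>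
    h e e0 e1 O hO r d s G h1 h2 h3.1 h3.2.1 h3.2.2.1 h3.2.2.2.1 h3.2.2.2.2⟩

end Y934.PR
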