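import Pool.Agent.H907R2.HO.Glob
import Pool.Agent.Y934.PR.LocC

/-!
Global assembly: the polynomial `PP` of the family is positive.
-/

open Metric Filter HopfPP
open scoped Topology RealInnerProductSpace

noncomputable section

namespace Y934.PR

open Pool.Agent.H821R3 H758H H907H

/-- the curvature polynomial of the family -/
def PPf (a w μ κ ε : ℝ) (x : V3) (α β Γ : A6) : ℝ :=
  PP (Y934.PR.Dfr a w μ κ ε) (toV x) (toV6 α) (toV6 β) (toV6 Γ)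

theorem continuous_PPf (a w : ℝ) {X : Type*} [TopologicalSpace X] {μ κ ε : X → ℝ} {x : X → V3}
    {α β Γ : X → A6} (hμ : Continuous μ) (hκ : Continuous κ) (hε : Continuous ε)
    (hx : Continuous x) (hα : Continuous α) (hβ : Continuous β) (hΓ : Continuous Γ) :
    Continuous fun p => PPf a w (μ p) (κ p) (ε p) (x p) (α p) (β p) (Γ p) := by
  unfold PPf
  refine continuous_PP ?_ ?_ hε ?_ (continuous_toV hx) (continuous_toV hα.fst)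
    (continuous_toV hα.snd) (continuous_toV hβ.fst) (continuous_toV hβ.snd)
    (continuous_toV hΓ.fst) (continuous_toV hΓ.snd)
  · intro i j
    fin_cases i <;> fin_cases j <;> simp [Y934.PR.Dfr] <;> fun_prop
  · intro i j
    fin_cases i <;> fin_cases j <;> simp [Y934.PR.Dfr] <;> fun_prop
  · intro i
    exact continuous_const

theorem PPf_zero (a w : ℝ) (x : V3) (α β Γ : A6) : PPf a w 0 0 0 x α β Γ =
    PP (Y934.PR.D0 a w) (toV x) (toV6 α) (toV6 β) (toV6 Γ) := by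
  have hW : (Y934.PR.Dfr a w 0 0 0).W = (Y934.PR.D0 a w).W := rfl
  have hQ : (Y934.PR.Dfr a w 0 0 0).Q = (Y934.PR.D0 a w).Q := by
    funext i j
    fin_cases i <;> fin_cases j <;> simp [Y934.PR.Dfr, Y934.PR.D0]
  have h1 : ∀ b, HopfPP.KK (Y934.PR.Dfr a w 0 0 0) (toV x) b =
      HopfPP.KK (Y934.PR.D0 a w) (toV x) b := by
    intro b
    simp only [HopfPP.KK, hW, hQ]
    simp [Y934.PR.Dfr, Y934.PR.D0]
  have h2 : ∀ ζ b, TT (Y934.PR.Dfr a w 0 0 0) ζ b = TT (Y934.PR.D0 a w) ζ b := by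
    intro ζ b
    simp [TT, Y934.PR.Dfr, Y934.PR.D0]
  have h1' : HopfPP.KK (Y934.PR.Dfr a w 0 0 0) (toV x) = HopfPP.KK (Y934.PR.D0 a w) (toV x) :=
    funext h1
  have h2' : TT (Y934.PR.Dfr a w 0 0 0) = TT (Y934.PR.D0 a w) :=
    funext fun ζ => funext fun b => h2 ζ b
  rw [PPf, PP, PP, h1', h2']

/-- positivity off the zero set for the unperturbed cometric -/
theorem PPf_off {a w : ℝ} (ha : 0 < a) (hw : 0 < w) (x : V3) (α β Γ : A6) (h : ¬Zer α β Γ) : 0 < PPf a w 0 0 0 x α β Γ := by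
  rw [PPf_zero]
  by_contra hcon
  obtain ⟨h1, h2, h3, h4⟩ := Y934.PR.PP_D0_zero ha hw (not_lt.1 hcon)
  apply h
  have e1 : cx (toV α.1) (toV β.1) = 0 := h1
  have e2 : cx (toV α.2) (toV β.2) = 0 := h2
  have e3 : cx (toV α.1) (toV β.2) - cx (toV β.1) (toV α.2) = 0 := h3
  rw [cx_toV] at e1 e2
  rw [cx_toV, cx_toV] at e3
  refine ⟨toV_eq_zero e1, toV_eq_zero e2, ?_, toV6_eq_zero h4⟩
  have a1 := toV_eq_zero e1
  have a2 := toV_eq_zero e2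
  have b : cr (α.1 + α.2) (β.1 + β.2) = cr α.1 β.1 + cr α.2 β.2 + (cr α.1 β.2 - cr β.1 α.2) := by
    refine ext3 ?_ ?_ ?_ <;> simp <;> ring
  have c : cr α.1 β.2 - cr β.1 α.2 = 0 := by
    refine ext3 ?_ ?_ ?_
    · have := congrFun e3 0; simpa [toV] using this
    · have := congrFun e3 1; simpa [toV] using this
    · have := congrFun e3 2; simpa [toV] using this
  rw [b, a1, a2, c]
  simp

/-- THE GLOBAL THEOREM from the local statements `near_mu`, `near_eps` and the transformation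
law `hGL2`. -/
theorem pp_pos {a' w : ℝ} (ha : 0 < a') (hw : 0 < w)
    (near_mu : ∃ t0 : ℝ, 0 < t0 ∧ ∀ (μ s : ℝ) (x n ρ d : HopfPP.V ℝ) (G : HopfPP.V6 ℝ),
      |μ| < t0 → dt x x = 1 → dt n n = 1 → dt x n = 0 → dt ρ (n + d) = 0 →
      dt (n + d) (n + d) = 1 → dt x G.1 = 0 → (∀ i, |ρ i| < t0) → |s| < t0 → (∀ i, |d i| < t0) →
      (∀ i, |G.1 i| < t0) → (∀ i, |G.2 i| < t0) → ¬(s = 0 ∧ ρ = 0 ∧ d = 0 ∧ G = 0) →
      0 < PP (Y934.PR.Dfr a' w μ 0 0) x (n, ρ) (s • cx x n, n + d) G)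
    (near_eps : ∃ μ0 : ℝ, 0 < μ0 ∧ ∀ μ, 0 < μ → μ < μ0 → ∃ t0 : ℝ, 0 < t0 ∧
      ∀ (ε s : ℝ) (x n ρ d : HopfPP.V ℝ) (G : HopfPP.V6 ℝ),
      0 < ε → ε < t0 → dt x x = 1 → dt n n = 1 → dt x n = 0 → dt ρ (n + d) = 0 →
      dt (n + d) (n + d) = 1 → dt x G.1 = 0 → (∀ i, |ρ i| < t0) → |s| < t0 → (∀ i, |d i| < t0) →
      (∀ i, |G.1 i| < t0) → (∀ i, |G.2 i| < t0) →
      0 < PP (Y934.PR.Dfr a' w μ (a' * (ε ^ 2 / (128 * μ ^ 2))) ε) x (n, ρ) (s • cx x n, n + d) G) :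
    ∃ μ0 : ℝ, 0 < μ0 ∧ ∀ μ, 0 < μ → μ < μ0 → ∃ ε0 : ℝ, 0 < ε0 ∧ ∀ ε, 0 < ε → ε < ε0 →
      ∀ x (α β Γ : A6), ‖x‖ = 1 → ⟪x, α.1⟫ = 0 → ⟪x, β.1⟫ = 0 → ⟪x, Γ.1⟫ = 0 →
      pr α α = 1 → pr β β = 1 → pr α β = 0 →
      0 < PPf a' w μ (a' * (ε ^ 2 / (128 * μ ^ 2))) ε x α β Γ := by
  have hsl : ∀ (μ κ ε : ℝ) x (α β Γ : A6) (a b c d : ℝ),
      PPf a' w μ κ ε x (a • α + b • β) (c • α + d • β) ((a * d - b * c) • Γ) =
        (a * d - b * c) ^ 2 * PPf a' w μ κ ε x α β Γ := by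
    intro μ κ ε x α β Γ a b c d
    simp only [PPf, toV6_add, toV6_smul]
    exact GL2_fr a' w μ κ ε _ _ _ _ a b c d
  have hnn : ∀ {x : V3}, ‖x‖ = 1 → dt (toV x) (toV x) = 1 := by
    intro x hx
    rw [dt_toV, real_inner_self_eq_norm_sq, hx, one_pow]
  have hch : ∀ {t0 s : ℝ} {x n ρ d : V3} {Γ : A6}, InCh t0 s x n ρ d Γ →
      dt (toV x) (toV x) = 1 ∧ dt (toV n) (toV n) = 1 ∧ dt (toV x) (toV n) = 0 ∧
      dt (toV ρ) (toV n + toV d) = 0 ∧ dt (toV n + toV d) (toV n + toV d) = 1 ∧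
      dt (toV x) (toV6 Γ).1 = 0 ∧ (∀ i, |toV ρ i| < t0) ∧ |s| < t0 ∧ (∀ i, |toV d i| < t0) ∧
      (∀ i, |(toV6 Γ).1 i| < t0) ∧ (∀ i, |(toV6 Γ).2 i| < t0) := by
    intro t0 s x n ρ d Γ h
    obtain ⟨h1, h2, h3, h4, h5, h6, h7, h8, h9, h10⟩ := h
    refine ⟨hnn h1, hnn h2, by rw [dt_toV]; exact h3, by rw [← toV_add, dt_toV]; exact h4,
      by rw [← toV_add]; exact hnn h5, by rw [toV6, dt_toV]; exact h6,
      fun i => lt_of_le_of_lt (abs_toV_le _ _) h7, h8,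
      fun i => lt_of_le_of_lt (abs_toV_le _ _) h9,
      fun i => lt_of_le_of_lt (abs_toV_le _ _) (lt_of_le_of_lt ?_ h10),
      fun i => lt_of_le_of_lt (abs_toV_le _ _) (lt_of_le_of_lt ?_ h10)⟩
    · rw [Prod.norm_def]; exact le_max_left _ _
    · rw [Prod.norm_def]; exact le_max_right _ _
  have hform : ∀ (s : ℝ) (x n ρ d : V3), toV6 ((n, ρ) : A6) = (toV n, toV ρ) ∧
      toV6 ((s • cr x n, n + d) : A6) = (s • cx (toV x) (toV n), toV n + toV d) := by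
    intro s x n ρ d
    refine ⟨rfl, ?_⟩
    rw [cx_toV, ← toV_smul, ← toV_add]
    rfl
  obtain ⟨μ1, hμ1, near_eps⟩ := near_eps
  -- the step in `μ`
  obtain ⟨μ2, hμ2, hmu⟩ := H907H.exists_mu (fun μ x α β Γ => PPf a' w μ 0 0 x α β Γ)
    (continuous_PPf a' w (by fun_prop) (by fun_prop) (by fun_prop) (by fun_prop) (by fun_prop)
      (by fun_prop) (by fun_prop))
    (fun μ x α β Γ a b c d => hsl μ 0 0 x α β Γ a b c d)
    (fun x α β Γ _ hz => PPf_off ha hw x α β Γ hz) (by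
      obtain ⟨t0, ht0, h⟩ := near_mu
      refine ⟨t0, ht0, fun μ s x n ρ d Γ hμ hc hne => ?_⟩
      obtain ⟨c1, c2, c3, c4, c5, c6, c7, c8, c9, c10, c11⟩ := hch hc
      obtain ⟨f1, f2⟩ := hform s x n ρ d
      simp only [PPf, f1, f2]
      refine h μ s _ _ _ _ _ hμ c1 c2 c3 c4 c5 c6 c7 c8 c9 c10 c11 ?_
      rintro ⟨r1, r2, r3, r4⟩
      exact hne ⟨r1, toV_eq_zero r2, toV_eq_zero r3, toV6_eq_zero r4⟩)
  refine ⟨min μ1 μ2, lt_min hμ1 hμ2, fun μ h0 hlt => ?_⟩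
  have hμ1' : μ < μ1 := lt_of_lt_of_le hlt (min_le_left _ _)
  have hμ2' : |μ| < μ2 := by
    rw [abs_of_pos h0]; exact lt_of_lt_of_le hlt (min_le_right _ _)
  refine H907H.exists_eps (fun ε x α β Γ => PPf a' w μ (a' * (ε ^ 2 / (128 * μ ^ 2))) ε x α β Γ)
    (continuous_PPf a' w (by fun_prop) (by fun_prop) (by fun_prop) (by fun_prop) (by fun_prop)
      (by fun_prop) (by fun_prop))
    (fun ε x α β Γ a b c d => hsl μ _ ε x α β Γ a b c d) ?_ ?_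
  · intro x α β Γ hp hz
    have := hmu μ hμ2' x α β Γ hp hz
    simpa using this
  · obtain ⟨t0, ht0, h⟩ := near_eps μ h0 hμ1'
    refine ⟨t0, ht0, fun ε s x n ρ d Γ hε hεt hc => ?_⟩
    obtain ⟨c1, c2, c3, c4, c5, c6, c7, c8, c9, c10, c11⟩ := hch hc
    obtain ⟨f1, f2⟩ := hform s x n ρ d
    simp only [PPf, f1, f2]
    exact h ε s _ _ _ _ _ hε hεt c1 c2 c3 c4 c5 c6 c7 c8 c9 c10 c11

/-- global positivity of the polynomial -/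
theorem pp_pos_all {a w : ℝ} (ha : 0 < a) (hw : 0 < w) :
    ∃ μ0 : ℝ, 0 < μ0 ∧ ∀ μ, 0 < μ → μ < μ0 → ∃ ε0 : ℝ, 0 < ε0 ∧ ∀ ε, 0 < ε → ε < ε0 →
      ∀ x (α β Γ : A6), ‖x‖ = 1 → ⟪x, α.1⟫ = 0 → ⟪x, β.1⟫ = 0 → ⟪x, Γ.1⟫ = 0 →
      pr α α = 1 → pr β β = 1 → pr α β = 0 →
      0 < PPf a w μ (a * (ε ^ 2 / (128 * μ ^ 2))) ε x α β Γ := by
  refine pp_pos ha hw ?_ ?_
  · obtain ⟨t0, ht0, h⟩ := Y934.PR.near_mu (LOC0_holds ha hw)
    refine ⟨t0, ht0, fun μ s x n ρ d G hμ a1 a2 a3 a4 a5 _ b1 b2 b3 b4 b5 hne => ?_⟩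
    exact h μ s x n ρ d G hμ a1 a2 a3 a4 a5 ⟨b1, b3, b2, b4, b5⟩ hne
  · obtain ⟨μ1, hμ1, h⟩ := Y934.PR.near_eps (LOC1_holds ha hw)
    refine ⟨μ1, hμ1, fun μ m0 m1 => ?_⟩
    obtain ⟨t0, ht0, h⟩ := h μ m0 m1
    refine ⟨t0, ht0, fun ε s x n ρ d G e0 e1 a1 a2 a3 a4 a5 _ b1 b2 b3 b4 b5 => ?_⟩
    exact h ε s x n ρ d G e0 e1 a1 a2 a3 a4 a5 ⟨b1, b3, b2, b4, b5⟩

end Y934.PR
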