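import Pool.Agent.Y934.PR.Par
import Pool.Agent.Y934.PR.Glob
import Pool.Agent.H878R5.S23.Main

/-!
Positively curved metrics near the metrics with cometric `a |L|² + |M|² + w |L + M|²`, `w ≥ 0`, on
manifolds with an infinitesimal action of `ℝ³ × ℝ³` and an equivariant projection to `S²`.
-/

open Bundle Manifold ContDiff ContinuousLinearMap Filter
open scoped Topology RealInnerProductSpace

set_option autoImplicit false
set_option synthInstance.maxHeartbeats 400000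
set_option maxHeartbeats 4000000
set_option linter.unusedSectionVars false

noncomputable section

namespace Y934.PR

open Pool.Agent.H821R2 Pool.Agent.H821R3 H907H Pool.Agent.H893R5.HO Pool.Agent.H878R5 HopfPP

/-! ### good parameters -/

/-- positivity of the cometric -/
theorem Dfr_pos {a w μ κ e : ℝ} (hμ : |μ| ≤ w) (hκ : 0 ≤ κ) (he : κ + 2 * |e| < a) (he1 : |e| < 1)
    (x : V ℝ) (b : V6 ℝ) (hx : dt x x = 1) (hb : b ≠ 0) :
    0 < dt6 b (KK (Y934.PR.Dfr a w μ κ e) x b) := by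
  have h0 := dt6_self_pos hb
  obtain ⟨v, hv⟩ : ∃ v : V ℝ, v = ![1, 1, 0] := ⟨_, rfl⟩
  have hK : dt6 b (KK (Y934.PR.Dfr a w μ κ e) x b) = a * dt b.1 b.1 + dt b.2 b.2 +
      (w * ((b.1 0 + b.2 0) ^ 2 + (b.1 1 + b.2 1) ^ 2 + (b.1 2 + b.2 2) ^ 2) +
        2 * μ * ((b.1 0 + b.2 0) * (b.1 2 + b.2 2))) +
      κ * (3 * b.1 0 ^ 2 - b.1 2 ^ 2) + 2 * e * (dt v b.1 * dt x b.2) := by
    simp only [Y934.PR.Dfr, mv, dt, dt6, HopfPP.KK, hv, Pi.add_apply, Pi.smul_apply, smul_eq_mul,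
      Matrix.cons_val]
    ring
  have hw : 0 ≤ w := (abs_nonneg μ).trans hμ
  have h1 : 0 ≤ w * ((b.1 0 + b.2 0) ^ 2 + (b.1 1 + b.2 1) ^ 2 + (b.1 2 + b.2 2) ^ 2) +
        2 * μ * ((b.1 0 + b.2 0) * (b.1 2 + b.2 2)) := by
    have h2 := abs_le.1 hμ
    nlinarith [mul_nonneg hw (sq_nonneg (b.1 1 + b.2 1)),
      mul_nonneg (by linarith : (0 : ℝ) ≤ w + μ)
      (sq_nonneg (b.1 0 + b.2 0 + (b.1 2 + b.2 2))), mul_nonneg (by linarith : (0 : ℝ) ≤ w - μ)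
      (sq_nonneg (b.1 0 + b.2 0 - (b.1 2 + b.2 2)))]
  have h3 : (dt v b.1) ^ 2 ≤ 2 * dt b.1 b.1 := by
    simp [dt, hv]
    nlinarith [sq_nonneg (b.1 0 - b.1 1), sq_nonneg (b.1 2)]
  have h4 : (dt x b.2) ^ 2 ≤ dt b.2 b.2 := by
    have h5 : (dt x b.2) ^ 2 ≤ dt x x * dt b.2 b.2 := by
      simp only [dt]
      nlinarith [sq_nonneg (x 0 * b.2 1 - x 1 * b.2 0), sq_nonneg (x 0 * b.2 2 - x 2 * b.2 0),
        sq_nonneg (x 1 * b.2 2 - x 2 * b.2 1)]
    rwa [hx, one_mul] at h5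
  have h6 : |2 * e * (dt v b.1 * dt x b.2)| ≤ |e| * (2 * dt b.1 b.1 + dt b.2 b.2) := by
    rw [abs_mul, abs_mul, abs_two, abs_mul]
    have h7 : 2 * (|dt v b.1| * |dt x b.2|) ≤ 2 * dt b.1 b.1 + dt b.2 b.2 := by
      have := two_mul_le_add_sq |dt v b.1| |dt x b.2|
      rw [sq_abs, sq_abs] at this
      linarith
    nlinarith [abs_nonneg e]
  have h8 := neg_abs_le (2 * e * (dt v b.1 * dt x b.2))
  have h9 : 0 ≤ dt b.1 b.1 := by
    simp only [dt]; nlinarith [sq_nonneg (b.1 0), sq_nonneg (b.1 1), sq_nonneg (b.1 2)]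
  have h10 : 0 ≤ dt b.2 b.2 := by
    simp only [dt]; nlinarith [sq_nonneg (b.2 0), sq_nonneg (b.2 1), sq_nonneg (b.2 2)]
  have h11 : -(κ * dt b.1 b.1) ≤ κ * (3 * b.1 0 ^ 2 - b.1 2 ^ 2) := by
    have : 0 ≤ κ * (dt b.1 b.1 + (3 * b.1 0 ^ 2 - b.1 2 ^ 2)) := by
      apply mul_nonneg hκ
      simp only [dt]
      nlinarith [sq_nonneg (b.1 0), sq_nonneg (b.1 1)]
    linarith
  have h12 : dt6 b b = dt b.1 b.1 + dt b.2 b.2 := rfl
  have p1 : 0 ≤ (a - κ - 2 * |e|) * dt b.1 b.1 := mul_nonneg (by linarith) h9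
  have p2 : 0 ≤ (1 - |e|) * dt b.2 b.2 := mul_nonneg (by linarith) h10
  have h13 : 0 < (a - κ - 2 * |e|) * dt b.1 b.1 + (1 - |e|) * dt b.2 b.2 := by
    rcases h9.lt_or_eq with h | h
    · have := mul_pos (by linarith : 0 < a - κ - 2 * |e|) h
      linarith
    · have h' : 0 < dt b.2 b.2 := by rw [h12, ← h, zero_add] at h0; exact h0
      have := mul_pos (by linarith : 0 < 1 - |e|) h'
      linarith
  rw [hK]
  nlinarith

/-- good parameters near `(w₀, 0, 0, 0)` -/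
theorem exists_good {a w₀ δ : ℝ} (ha : 0 < a) (hw : 0 ≤ w₀) (hδ : 0 < δ) :
    ∃ w μ κ e : ℝ, |w - w₀| < δ ∧ |μ| < δ ∧ |κ| < δ ∧ |e| < δ ∧
      Good (Y934.PR.Dfr a w μ κ e) := by
  obtain ⟨w, hw1⟩ : ∃ w, w = w₀ + δ / 2 := ⟨_, rfl⟩
  have hw0 : 0 < w := by rw [hw1]; linarith
  obtain ⟨μ0, hμ0, h⟩ := pp_pos_all ha hw0
  obtain ⟨μ, m1, m2⟩ := exists_between (lt_min hμ0 (lt_min hw0 hδ))
  have m3 : μ < μ0 := m2.trans_le (min_le_left _ _)
  have m4 : μ < w := m2.trans_le ((min_le_right _ _).trans (min_le_left _ _))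
  have m5 : μ < δ := m2.trans_le ((min_le_right _ _).trans (min_le_right _ _))
  obtain ⟨ε0, hε0, h⟩ := h μ m1 m3
  obtain ⟨c, hc⟩ : ∃ c, c = min δ (a / 2) := ⟨_, rfl⟩
  have hc0 : 0 < c := by rw [hc]; exact lt_min hδ (by linarith)
  have hc1 : c ≤ δ := by rw [hc]; exact min_le_left _ _
  have hc2 : c ≤ a / 2 := by rw [hc]; exact min_le_right _ _
  have hd : 0 < 128 * μ ^ 2 * c / a := by positivity
  obtain ⟨ε, e1, e2⟩ := exists_between
    (lt_min hε0 (lt_min (lt_min hδ (by linarith : 0 < a / 4)) (lt_min one_pos hd)))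
  have e3 : ε < ε0 := e2.trans_le (min_le_left _ _)
  have e4 : ε < δ := e2.trans_le ((min_le_right _ _).trans ((min_le_left _ _).trans
    (min_le_left _ _)))
  have e5 : ε < a / 4 := e2.trans_le ((min_le_right _ _).trans ((min_le_left _ _).trans
    (min_le_right _ _)))
  have e6 : ε < 1 := e2.trans_le ((min_le_right _ _).trans ((min_le_right _ _).trans
    (min_le_left _ _)))
  have e7 : ε < 128 * μ ^ 2 * c / a := e2.trans_le ((min_le_right _ _).trans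
    ((min_le_right _ _).trans (min_le_right _ _)))
  obtain ⟨κ, hκ⟩ : ∃ κ, κ = a * (ε ^ 2 / (128 * μ ^ 2)) := ⟨_, rfl⟩
  have k0 : 0 ≤ κ := by rw [hκ]; positivity
  have k1 : κ < c := by
    rw [hκ]
    have q1 : ε ^ 2 < ε * 1 := by nlinarith
    have q2 : a * (ε ^ 2 / (128 * μ ^ 2)) < a * ((128 * μ ^ 2 * c / a) / (128 * μ ^ 2)) := by
      apply mul_lt_mul_of_pos_left _ ha
      apply div_lt_div_of_pos_right _ (by positivity)
      linarith
    have q3 : a * ((128 * μ ^ 2 * c / a) / (128 * μ ^ 2)) = c := by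
      field_simp
    linarith
  refine ⟨w, μ, κ, ε, ?_, ?_, ?_, ?_, ?_, ?_, ?_, ?_, ?_⟩
  · rw [hw1, add_sub_cancel_left, abs_of_pos (by linarith)]; linarith
  · rw [abs_of_pos m1]; exact m5
  · rw [abs_of_nonneg k0]; linarith
  · rw [abs_of_pos e1]; exact e4
  · intro i j
    fin_cases i <;> fin_cases j <;> rfl
  · intro i j
    fin_cases i <;> fin_cases j <;> rfl
  · intro x b hx hb
    exact Dfr_pos (by rw [abs_of_pos m1]; exact m4.le) k0
      (by rw [abs_of_pos e1]; linarith) (by rw [abs_of_pos e1]; exact e6) x b hx hb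
  · intro x α β Γ hx hα hβ hΓ h1 h2 h3
    have hn : ‖(WithLp.toLp 2 x : V3)‖ = 1 := by
      have h4 : ⟪(WithLp.toLp 2 x : V3), (WithLp.toLp 2 x : V3)⟫ = 1 := by
        rw [← dt_toV]; exact hx
      rw [real_inner_self_eq_norm_sq] at h4
      exact (pow_eq_one_iff_of_nonneg (norm_nonneg _) two_ne_zero).1 h4
    rw [hκ]
    exact h ε e1 e3 (WithLp.toLp 2 x) (WithLp.toLp 2 α.1, WithLp.toLp 2 α.2)
      (WithLp.toLp 2 β.1, WithLp.toLp 2 β.2) (WithLp.toLp 2 Γ.1, WithLp.toLp 2 Γ.2) hn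
      (by rw [← dt_toV]; exact hα) (by rw [← dt_toV]; exact hβ) (by rw [← dt_toV]; exact hΓ)
      (by rw [pr, ← dt_toV, ← dt_toV]; exact h1) (by rw [pr, ← dt_toV, ← dt_toV]; exact h2)
      (by rw [pr, ← dt_toV, ← dt_toV]; exact h3)
  · intro x α β Γ a' b' c' d'
    exact Y934.PR.GL2_fr _ _ _ _ _ x α β Γ a' b' c' d'

/-! ### the family of cometrics -/

theorem K0D_affine (a w μ κ e : ℝ) : K0D (Y934.PR.Dfr a w μ κ e) =
    K0D (Y934.PR.Dfr a 0 0 0 0) +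
      w • (K0D (Y934.PR.Dfr a 1 0 0 0) - K0D (Y934.PR.Dfr a 0 0 0 0)) +
      μ • (K0D (Y934.PR.Dfr a 0 1 0 0) - K0D (Y934.PR.Dfr a 0 0 0 0)) +
      κ • (K0D (Y934.PR.Dfr a 0 0 1 0) - K0D (Y934.PR.Dfr a 0 0 0 0)) := by
  refine ContinuousLinearMap.ext fun b => ?_
  simp only [ContinuousLinearMap.add_apply, ContinuousLinearMap.smul_apply,
    ContinuousLinearMap.sub_apply, K0D_apply, Y934.PR.Dfr]
  refine Prod.ext ?_ ?_
  · funext i
    fin_cases i <;> simp [mv, dt, Matrix.vecHead, Matrix.vecTail] <;> ring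
  · funext i
    fin_cases i <;> simp [mv, dt, Matrix.vecHead, Matrix.vecTail] <;> ring

theorem TD_linear (a w μ κ e : ℝ) : TD (Y934.PR.Dfr a w μ κ e) =
    e • TD (Y934.PR.Dfr a 0 0 0 1) := by
  refine ContinuousLinearMap.ext fun ζ => ContinuousLinearMap.ext fun b => ?_
  rw [ContinuousLinearMap.smul_apply, ContinuousLinearMap.smul_apply, TD_apply, TD_apply]
  simp only [TT, Y934.PR.Dfr]
  refine Prod.ext ?_ ?_
  · funext i
    fin_cases i <;> simp [dt]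
  · funext i
    fin_cases i <;> simp [dt] <;> ring

variable {E : Type*} [NormedAddCommGroup E] [NormedSpace ℝ E] [FiniteDimensional ℝ E]
  {H : Type*} [TopologicalSpace H] {I : ModelWithCorners ℝ E H}
  {M : Type*} [TopologicalSpace M] [ChartedSpace H M] [IsManifold I ∞ M]
  {A : Type*} [NormedAddCommGroup A] [NormedSpace ℝ A] [FiniteDimensional ℝ A]

/-- the parameters `(w, μ, κ, e)` -/
abbrev Pa : Type := ℝ × ℝ × ℝ × ℝ

/-- the cometric with the parameters `a` and `(w, μ, κ, e)` -/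
def Wa {X : Emb I M A} (Y : LA X) (pj : A →L[ℝ] V ℝ) (a : ℝ) (t : Pa) : A → A →L[ℝ] A :=
  Y.W (LA.KD (Y934.PR.Dfr a t.1 t.2.1 t.2.2.1 t.2.2.2) pj)

theorem smooth_Wa {X : Emb I M A} (Y : LA X) (pj : A →L[ℝ] V ℝ) (a : ℝ) :
    ContDiff ℝ ∞ (fun q : Pa × A => Wa Y pj a q.1 q.2) := by
  have hK : ContDiff ℝ ∞ (fun q : Pa × A =>
      LA.KD (Y934.PR.Dfr a q.1.1 q.1.2.1 q.1.2.2.1 q.1.2.2.2) pj q.2) := by
    have e : (fun q : Pa × A => LA.KD (Y934.PR.Dfr a q.1.1 q.1.2.1 q.1.2.2.1 q.1.2.2.2) pj q.2) =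
        fun q : Pa × A => K0D (Y934.PR.Dfr a 0 0 0 0) +
      q.1.1 • (K0D (Y934.PR.Dfr a 1 0 0 0) - K0D (Y934.PR.Dfr a 0 0 0 0)) +
      q.1.2.1 • (K0D (Y934.PR.Dfr a 0 1 0 0) - K0D (Y934.PR.Dfr a 0 0 0 0)) +
      q.1.2.2.1 • (K0D (Y934.PR.Dfr a 0 0 1 0) - K0D (Y934.PR.Dfr a 0 0 0 0)) +
      q.1.2.2.2 • (TD (Y934.PR.Dfr a 0 0 0 1) (pj q.2)) := by
      funext q
      rw [← K0D_affine a q.1.1 q.1.2.1 q.1.2.2.1 q.1.2.2.2]
      change K0D _ + TD (Y934.PR.Dfr a q.1.1 q.1.2.1 q.1.2.2.1 q.1.2.2.2) (pj q.2) = _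
      rw [TD_linear]
      rfl
    rw [e]
    have c1 : ContDiff ℝ ∞ (fun q : Pa × A => q.1.1) := contDiff_fst.fst
    have c2 : ContDiff ℝ ∞ (fun q : Pa × A => q.1.2.1) := contDiff_fst.snd.fst
    have c3 : ContDiff ℝ ∞ (fun q : Pa × A => q.1.2.2.1) := contDiff_fst.snd.snd.fst
    have c4 : ContDiff ℝ ∞ (fun q : Pa × A => q.1.2.2.2) := contDiff_fst.snd.snd.snd
    have c5 : ContDiff ℝ ∞ (fun q : Pa × A => TD (Y934.PR.Dfr a 0 0 0 1) (pj q.2)) :=
      (TD (Y934.PR.Dfr a 0 0 0 1)).contDiff.comp (pj.contDiff.comp contDiff_snd)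
    exact (((contDiff_const.add (c1.smul contDiff_const)).add (c2.smul contDiff_const)).add
      (c3.smul contDiff_const)).add (c4.smul c5)
  have h1 : ContDiff ℝ ∞ (fun q : Pa × A => Y.E.flip q.2) :=
    Y.E.flip.contDiff.comp contDiff_snd
  have h2 : ContDiff ℝ ∞ (fun q : Pa × A => Y.J q.2) := Y.J.contDiff.comp contDiff_snd
  exact h1.clm_comp (hK.clm_comp h2)

/-- an infinitesimal action of `ℝ³ × ℝ³` with an equivariant projection to `S²` -/
structure Fib {X : Emb I M A} (Y : LA X) (pj : A →L[ℝ] V ℝ) : Prop where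
  hpj : ∀ w z, pj (Y.E w z) = cx w.1 (pj z)
  unit : ∀ p, dt (pj (X.j p)) (pj (X.j p)) = 1
  ker : ∀ p, Y.E (pj (X.j p), 0) (X.j p) = 0
  inj : ∀ p a, X.P (X.j p) a = a → Y.J (X.j p) a = 0 → a = 0

section

variable {X : Emb I M A} {Y : LA X} {pj : A →L[ℝ] V ℝ} (hF : Fib Y pj) {D : Dat ℝ}

include hF

theorem com' (hW : SymM D.W) (hQ : SymM D.Q)
    (hpos : ∀ (x : V ℝ) (a : V6 ℝ), dt x x = 1 → a ≠ 0 → 0 < dt6 a (KK D x a)) :
    X.Com (Y.W (LA.KD D pj)) where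
  smooth := Y.smooth_W (LA.smooth_Ka _ _)
  symm z a b := by
    rw [X.Bsymm, Y.B_W, Y.B_W]
    exact LA.Ka_symm' (K0D D) ((TD D).comp pj) (K0D_symm hW hQ)
      (fun ζ u v => TD_symm D (pj ζ) u v) z _ _
  tan p a := Y.tan _ p
  pos p a ha hne := by
    rw [Y.B_W]
    exact hpos _ _ (hF.unit p) fun h => hne (hF.inj p a ha h)

theorem x_perp_J' (p : M) (a : A) : dt (pj (X.j p)) (Y.J (X.j p) a).1 = 0 := by
  have h := Y.dt6_J (X.j p) a (pj (X.j p), 0)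
  rw [hF.ker, map_zero] at h
  simp only [dt6, dt] at h ⊢
  simp at h
  linarith

theorem Gamma_perp' (p : M) (a b γ : A) :
    dt (pj (X.j p)) (Y.J (X.j p) γ + (cx6 (Y.J (X.j p) a) (KK D (pj (X.j p)) (Y.J (X.j p) b)) -
        cx6 (Y.J (X.j p) b) (KK D (pj (X.j p)) (Y.J (X.j p) a))) -
          (Y.J (Y.E (KK D (pj (X.j p)) (Y.J (X.j p) a)) (X.j p)) b -
            Y.J (Y.E (KK D (pj (X.j p)) (Y.J (X.j p) b)) (X.j p)) a)).1 = 0 := by
  obtain ⟨A', hA⟩ : ∃ A', A' = KK D (pj (X.j p)) (Y.J (X.j p) a) := ⟨_, rfl⟩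
  obtain ⟨B', hB⟩ : ∃ B', B' = KK D (pj (X.j p)) (Y.J (X.j p) b) := ⟨_, rfl⟩
  rw [← hA, ← hB]
  have c1 := Y.closed (X.j p) b A' (pj (X.j p), 0)
  have c2 := Y.closed (X.j p) a B' (pj (X.j p), 0)
  rw [hF.ker] at c1 c2
  have hg := x_perp_J' hF p γ
  have z0 : ∀ c w, dt6 (Y.J 0 c) w = 0 := fun c w => by
    rw [map_zero]; simp [dt6, dt]
  rw [z0] at c1 c2
  simp only [dt6, dt, cx6, cx, Prod.fst_add, Prod.fst_sub, Pi.add_apply, Pi.sub_apply,
    Matrix.cons_val, Pi.zero_apply] at c1 c2 hg ⊢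
  linear_combination hg - c1 + c2

/-- positivity of the curvature expression -/
theorem Pexp_pos' (hD : Good D)
    (p : M) (a b γ : A) (ha : X.P (X.j p) a = a) (hb : X.P (X.j p) b = b)
    (haa : X.B a a = 1) (hbb : X.B b b = 1) (hab : X.B a b = 0) :
    0 < X.Pexp (Y.W (LA.KD D pj)) (X.j p) a b γ := by
  have h := Y.Pexp_eq_PP D hD.symW hD.symQ pj hF.hpj (X.j p) a b γ
  have hpos : 0 < 4 * X.Pexp (Y.W (LA.KD D pj)) (X.j p) a b γ := by
    rw [h]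
    refine pos_LI hD.on hD.gl _ _ _ _ (hF.unit p) (x_perp_J' hF p a) (x_perp_J' hF p b)
      (Gamma_perp' hF p a b γ) ?_
    intro r s hrs
    have h1 : Y.J (X.j p) (r • a + s • b) = 0 := by rw [map_add, map_smul, map_smul, hrs]
    have h2 : X.P (X.j p) (r • a + s • b) = r • a + s • b := by
      rw [map_add, map_smul, map_smul, ha, hb]
    have h3 := hF.inj p _ h2 h1
    have h4 := congrArg (X.B a) h3
    have h5 := congrArg (X.B b) h3
    rw [map_add, map_smul, map_smul, haa, hab, map_zero] at h4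
    rw [map_add, map_smul, map_smul, hbb, X.Bsymm b a, hab, map_zero] at h5
    simp only [smul_eq_mul, mul_one, mul_zero, add_zero, zero_add] at h4 h5
    exact ⟨h4, h5⟩
  linarith

variable [T2Space M] [SigmaCompactSpace M] [Nontrivial E]

theorem curved (hD : Good D)
    {g : ContMDiffRiemannianMetric I ∞ E (fun x : M => TangentSpace I x)}
    (hg : X.Dual g (Y.W (LA.KD D pj))) : PositivelyCurved g := by
  have hC := com' hF hD.symW hD.symQ hD.pos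
  obtain ⟨cov, R, h, hR⟩ := Emb.exists_cov hC hg
  refine ⟨⟨cov, R, h, hR⟩, ?_⟩
  intro cov R h hR p u v huv
  exact Emb.sec_pos hC hg h hR (fun p a b γ ha hb haa hbb hab _ _ =>
    Pexp_pos' hF hD p a b γ ha hb haa hbb hab) p u v huv

omit hF [T2Space M] [SigmaCompactSpace M] [Nontrivial E] in
theorem base_sym (a w : ℝ) : SymM (Y934.PR.Dfr a w 0 0 0).W ∧ SymM (Y934.PR.Dfr a w 0 0 0).Q := by
  constructor <;>
  · intro i j
    fin_cases i <;> fin_cases j <;> rfl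

omit [T2Space M] [SigmaCompactSpace M] [Nontrivial E] in
theorem com_base {a w : ℝ} (ha : 0 < a) (hw : 0 ≤ w) : X.Com (Wa Y pj a (w, 0, 0, 0)) :=
  com' hF (base_sym a w).1 (base_sym a w).2 fun x b hx hb =>
    Dfr_pos (by rw [abs_zero]; exact hw) le_rfl (by rw [abs_zero]; linarith)
      (by rw [abs_zero]; exact one_pos) x b hx hb

/-- **The limit theorem**: the metric with cometric `a |L|² + |M|² + w |L + M|²`, `a > 0`, `w ≥ 0`,
is a limit in `C^N` of metrics of positive curvature with the explicit cometrics. -/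
theorem limit [CompactSpace M] {a w : ℝ} (ha : 0 < a) (hw : 0 ≤ w)
    {g₀ : ContMDiffRiemannianMetric I ∞ E (fun x : M => TangentSpace I x)}
    (hg₀ : X.Dual g₀ (Wa Y pj a (w, 0, 0, 0))) (N : ℕ) {η : ℝ} (hη : 0 < η) :
    ∃ g : ContMDiffRiemannianMetric I ∞ E (fun x : M => TangentSpace I x),
      PositivelyCurved g ∧ CloseCN X.j N η g g₀ ∧
      ∃ D : Dat ℝ, Good D ∧ X.Dual g (Y.W (LA.KD D pj)) := by
  obtain ⟨δ, hδ, h⟩ := close_of_param X (smooth_Wa Y pj a) (com_base hF ha hw) N hη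
  obtain ⟨w', μ, κ, e, h1, h2, h3, h4, hD⟩ := exists_good ha hw hδ
  have hC : X.Com (Wa Y pj a (w', μ, κ, e)) := com' hF hD.symW hD.symQ hD.pos
  obtain ⟨g, hg⟩ := Emb.exists_metric hC
  refine ⟨g, curved hF hD hg, h (w', μ, κ, e) ?_ hC g g₀ hg hg₀, _, hD, hg⟩
  simp only [Prod.mk_sub_mk, Prod.norm_mk, Real.norm_eq_abs, sub_zero, max_lt_iff]
  exact ⟨h1, h2, h3, h4⟩

end

end Y934.PR
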