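import Pool.Agent.Y934.PR.Fib

/-!
The manifolds `S² × S²` and `S² × S³` with their infinitesimal actions of `ℝ³ × ℝ³`.
-/

open Bundle Manifold ContDiff ContinuousLinearMap Filter VectorField Metric
open scoped Topology RealInnerProductSpace Quaternion

set_option autoImplicit false
set_option synthInstance.maxHeartbeats 400000
set_option maxHeartbeats 4000000
set_option linter.unusedSectionVars false

noncomputable section

namespace Y934.PR

open Pool.Agent.H821R2 Pool.Agent.H821R3 H907H Pool.Agent.H893R5.HO Pool.Agent.H878R5 HopfPP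

/-! ### `S² × S³` -/

theorem fib23 : Fib S23.Y S23.pj where
  hpj := S23.pj_E
  unit := S23.dt_unit
  ker p := by
    rw [S23.Y_E]
    refine Prod.ext ?_ ?_
    · ext i; fin_cases i <;> simp [S23.cr3, cx, S23.pj_apply] <;> ring
    · have h0 : S23.im (0 : V ℝ) = 0 := by ext <;> simp [S23.im]
      change (1 / 2 : ℝ) • (S23.im 0 * (S23.X.j p).2) = 0
      rw [h0, zero_mul, smul_zero]
  inj p a ha h := S23.J_inj p a ha h

/-! ### `S² × S²` -/

namespace S22

open S23 (R3 S2 cr3 inner_R3 inner_cr3 finR3)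

/-- the ambient space -/
abbrev AA : Type := R3 × R3

/-- the immersed manifold -/
def X : Emb ((𝓡 2).prod (𝓡 2)) (SS R3 R3) AA := sph 2 2 R3 R3

theorem X_B (a b : AA) : X.B a b = ⟪a.1, b.1⟫ + ⟪a.2, b.2⟫ := rfl

theorem X_j (p : SS R3 R3) : X.j p = ((p.1 : R3), (p.2 : R3)) := rfl

theorem X_P (z a : AA) : X.P z a = (a.1 - ⟪z.1, a.1⟫ • z.1, a.2 - ⟪z.2, a.2⟫ • z.2) := by
  have h : X.P z a = a - sN z a := rfl
  rw [h, sN_apply]
  rfl

/-- the action of the Lie algebra -/
def act : V6 ℝ →L[ℝ] AA →L[ℝ] AA :=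
  bil (LinearMap.mk₂ ℝ (fun w z => ((cr3 w.1 z.1, cr3 w.2 z.2) : AA))
    (fun a b c => by
      refine Prod.ext ?_ ?_ <;>
      · ext i; fin_cases i <;> simp [cr3, cx] <;> ring)
    (fun r a c => by
      refine Prod.ext ?_ ?_ <;>
      · ext i; fin_cases i <;> simp [cr3, cx] <;> ring)
    (fun a b c => by
      refine Prod.ext ?_ ?_ <;>
      · ext i; fin_cases i <;> simp [cr3, cx] <;> ring)
    (fun r a c => by
      refine Prod.ext ?_ ?_ <;>
      · ext i; fin_cases i <;> simp [cr3, cx] <;> ring))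

theorem act_apply (w : V6 ℝ) (z : AA) : act w z = (cr3 w.1 z.1, cr3 w.2 z.2) := rfl

/-- the action -/
def Y : LA X where
  E := act
  lie h t z := by
    rw [act_apply, act_apply, act_apply, act_apply, act_apply]
    refine Prod.ext ?_ ?_ <;>
    · ext i; fin_cases i <;> simp [cr3, cx, cx6] <;> ring
  tan h p := by
    rw [X_P, act_apply]
    refine Prod.ext ?_ ?_ <;>
    · simp only [inner_cr3, zero_smul, sub_zero]

theorem Y_E (w : V6 ℝ) (z : AA) : Y.E w z = (cr3 w.1 z.1, cr3 w.2 z.2) := rfl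

/-- projection to the coordinates of the first factor -/
def pj : AA →L[ℝ] V ℝ :=
  LinearMap.toContinuousLinearMap
    { toFun := fun z => z.1.ofLp
      map_add' := fun a b => rfl
      map_smul' := fun r a => rfl }

theorem pj_apply (z : AA) : pj z = z.1.ofLp := rfl

theorem dt_unit (p : SS R3 R3) : dt (pj (X.j p)) (pj (X.j p)) = 1 := by
  have h := inner_self_sph p.1
  rw [inner_R3] at h
  exact h

/-- a tangent vector of the sphere is a value of the action -/
theorem cr3_tan {x q : R3} (h1 : ⟪x, q⟫ = 0) (u1 : ⟪x, x⟫ = 1) : cr3 (cx x.ofLp q.ofLp) x = q := by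
  rw [inner_R3] at h1 u1
  simp only [dt] at h1 u1
  ext i
  fin_cases i
  · simp [cr3, cx]
    linear_combination q.ofLp 0 * u1 - x.ofLp 0 * h1
  · simp [cr3, cx]
    linear_combination q.ofLp 1 * u1 - x.ofLp 1 * h1
  · simp [cr3, cx]
    linear_combination q.ofLp 2 * u1 - x.ofLp 2 * h1

theorem tan_perp (p : SS R3 R3) {a : AA} (ha : X.P (X.j p) a = a) :
    ⟪(p.1 : R3), a.1⟫ = 0 ∧ ⟪(p.2 : R3), a.2⟫ = 0 := by
  rw [X_P] at ha
  constructor
  · have h := congrArg Prod.fst ha
    simp only [X_j, sub_eq_self] at h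
    have h2 := congrArg (fun v => ⟪(p.1 : R3), v⟫) h
    simp only [real_inner_smul_right, inner_self_sph, mul_one, inner_zero_right] at h2
    exact h2
  · have h := congrArg Prod.snd ha
    simp only [X_j, sub_eq_self] at h
    have h2 := congrArg (fun v => ⟪(p.2 : R3), v⟫) h
    simp only [real_inner_smul_right, inner_self_sph, mul_one, inner_zero_right] at h2
    exact h2

/-- every tangent vector comes from the action -/
theorem exists_E (p : SS R3 R3) (a : AA) (ha : X.P (X.j p) a = a) :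
    ∃ w, Y.E w (X.j p) = a := by
  obtain ⟨h1, h2⟩ := tan_perp p ha
  refine ⟨(cx (p.1 : R3).ofLp a.1.ofLp, cx (p.2 : R3).ofLp a.2.ofLp), ?_⟩
  rw [Y_E]
  exact Prod.ext (cr3_tan h1 (inner_self_sph p.1)) (cr3_tan h2 (inner_self_sph p.2))

/-- the momentum is injective on tangent covectors -/
theorem J_inj (p : SS R3 R3) (a : AA) (ha : X.P (X.j p) a = a) (h : Y.J (X.j p) a = 0) :
    a = 0 := by
  obtain ⟨w, hw⟩ := exists_E p a ha
  by_contra hne
  have h1 := X.Bpos a hne
  have h2 := Y.dt6_J (X.j p) a w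
  rw [hw, h] at h2
  simp [dt6, dt] at h2
  linarith

end S22

theorem fib22 : Fib S22.Y S22.pj where
  hpj w z := rfl
  unit := S22.dt_unit
  ker p := by
    rw [S22.Y_E]
    refine Prod.ext ?_ ?_
    · ext i; fin_cases i <;> simp [S23.cr3, cx, S22.pj_apply] <;> ring
    · ext i; fin_cases i <;> simp [S23.cr3, cx]
  inj p a ha h := S22.J_inj p a ha h

end Y934.PR
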