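import Pool.Agent.Y934.PR.Path
import Pool.Agent.Y934.PR.Two

/-!
Deformations of the product metrics on `S² × S²` and `S² × S³` to positive curvature.
-/

open Bundle Manifold ContDiff Metric ContinuousLinearMap
open scoped Topology RealInnerProductSpace Quaternion Matrix

set_option autoImplicit false
set_option synthInstance.maxHeartbeats 400000
set_option maxHeartbeats 4000000
set_option linter.unusedSectionVars false

noncomputable section

namespace Y934.PR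

open Pool.Agent.H821R2 Pool.Agent.H821R3 H907H Pool.Agent.H893R5.HO Pool.Agent.H878R5 HopfPP

section general

variable {E : Type*} [NormedAddCommGroup E] [NormedSpace ℝ E] [FiniteDimensional ℝ E]
  {H : Type*} [TopologicalSpace H] {I : ModelWithCorners ℝ E H}
  {M : Type*} [TopologicalSpace M] [ChartedSpace H M] [IsManifold I ∞ M]
  {A : Type*} [NormedAddCommGroup A] [NormedSpace ℝ A] [FiniteDimensional ℝ A]

/-- the matrix `W` applied to the inverse matrix -/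
theorem W_G {X : Emb I M A} {W : A → A →L[ℝ] A} (hW : X.Com W) (p : M) (u : TangentSpace I p) :
    W (X.j p) (X.G W (X.j p) (X.d p u)) = X.d p u := by
  have h := Emb.full_G hW p (X.d p u)
  rw [Emb.full_apply] at h
  have h2 := congrArg (X.P (X.j p)) h
  rw [map_add, map_sub, hW.tan, X.PP, sub_self, add_zero, X.P_d] at h2
  exact h2

/-- the cometric of `c` times the metric with cometric `W` -/
theorem cometric_of {X : Emb I M A} {W : A → A →L[ℝ] A} (hW : X.Com W) {c : ℝ} (hc : 0 < c)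
    {g : ContMDiffRiemannianMetric I ∞ E (fun x : M => TangentSpace I x)}
    (hg : ∀ (p : M) (u v : TangentSpace I p),
      g.inner p u v = c * X.B (X.G W (X.j p) (X.d p u)) (X.d p v)) (p : M) (b : A)
    (v : TangentSpace I p) (hv : ∀ u, g.inner p v u = X.B b (X.d p u)) :
    g.inner p v v = c⁻¹ * X.B b (W (X.j p) b) := by
  have h1 : W (X.j p) (c • X.G W (X.j p) (X.d p v)) = W (X.j p) b := by
    obtain ⟨e, he⟩ : ∃ e, e = c • X.G W (X.j p) (X.d p v) - b := ⟨_, rfl⟩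
    have h2 : ∀ y : A, X.B (X.P (X.j p) e) y = 0 := by
      intro y
      obtain ⟨u, hu⟩ := X.rng p y
      rw [X.Psymm]
      have hu' : X.P (X.j p) y = X.d p u := hu.symm
      rw [hu', he, map_sub, sub_apply, map_smul, smul_apply, smul_eq_mul, ← hg, hv, sub_self]
    have h3 : X.P (X.j p) e = 0 := by
      apply X.B_inj
      intro y
      rw [h2]
      simp
    have h4 : W (X.j p) e = 0 := by
      rw [← Emb.W_P hW, h3, map_zero]
    rw [he, map_sub, sub_eq_zero] at h4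
    exact h4
  rw [map_smul, W_G hW] at h1
  rw [hv, ← h1, map_smul, smul_eq_mul, ← mul_assoc, inv_mul_cancel₀ hc.ne', one_mul]

/-- the metric when `W e = d u` for tangent `e` -/
theorem G_of_W {X : Emb I M A} {W : A → A →L[ℝ] A} (hW : X.Com W) (p : M) (e : A)
    (u : TangentSpace I p) (he : X.P (X.j p) e = e) (h : W (X.j p) e = X.d p u) :
    X.G W (X.j p) (X.d p u) = e := by
  rw [← h, Emb.G_W hW, he]

/-- the matrix of the base metric -/
theorem KK_base (a w : ℝ) (x : V ℝ) (b : V6 ℝ) :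
    HopfPP.KK (Y934.PR.Dfr a w 0 0 0) x b = (a • b.1 + w • (b.1 + b.2), b.2 + w • (b.1 + b.2)) := by
  refine Prod.ext (V_ext ?_ ?_ ?_) (V_ext ?_ ?_ ?_) <;>
    simp [HopfPP.KK, Y934.PR.Dfr, mv, dt, Matrix.vecHead, Matrix.vecTail] <;> ring

theorem Wa_base {X : Emb I M A} (Y : LA X) (pj : A →L[ℝ] V ℝ) (a w : ℝ) (z e : A) :
    Wa Y pj a (w, 0, 0, 0) z e = Y.E (a • (Y.J z e).1 + w • ((Y.J z e).1 + (Y.J z e).2),
      (Y.J z e).2 + w • ((Y.J z e).1 + (Y.J z e).2)) z := by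
  rw [← KK_base a w (pj z) (Y.J z e)]
  rfl

theorem B_base {X : Emb I M A} (Y : LA X) (pj : A →L[ℝ] V ℝ) (a w : ℝ) (z e : A) :
    X.B e (Wa Y pj a (w, 0, 0, 0) z e) = a * dt (Y.J z e).1 (Y.J z e).1 +
      dt (Y.J z e).2 (Y.J z e).2 +
      w * dt ((Y.J z e).1 + (Y.J z e).2) ((Y.J z e).1 + (Y.J z e).2) := by
  rw [Wa_base, ← Y.dt6_J]
  simp only [dt6, dt, Pi.add_apply, Pi.smul_apply, smul_eq_mul]
  ring

end general

section coords

variable {m n : ℕ} {V₁ V₂ : Type*} [NormedAddCommGroup V₁] [InnerProductSpace ℝ V₁]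
  [NormedAddCommGroup V₂] [InnerProductSpace ℝ V₂] [Fact (Module.finrank ℝ V₁ = m + 1)]
  [Fact (Module.finrank ℝ V₂ = n + 1)] [FiniteDimensional ℝ V₁] [FiniteDimensional ℝ V₂]

theorem d_fst (p : SS V₁ V₂) (u : TangentSpace ((𝓡 m).prod (𝓡 n)) p) :
    ((sph m n V₁ V₂).d p u).1 =
      mvfderiv ((𝓡 m).prod (𝓡 n)) (fun q : SS V₁ V₂ => (q.1 : V₁)) p u := by
  have h := (sph m n V₁ V₂).d_comp p
    (ContinuousLinearMap.fst ℝ V₁ V₂).differentiableAt u
  rw [ContinuousLinearMap.fderiv] at h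
  exact h.symm

theorem d_snd (p : SS V₁ V₂) (u : TangentSpace ((𝓡 m).prod (𝓡 n)) p) :
    ((sph m n V₁ V₂).d p u).2 =
      mvfderiv ((𝓡 m).prod (𝓡 n)) (fun q : SS V₁ V₂ => (q.2 : V₂)) p u := by
  have h := (sph m n V₁ V₂).d_comp p
    (ContinuousLinearMap.snd ℝ V₁ V₂).differentiableAt u
  rw [ContinuousLinearMap.fderiv] at h
  exact h.symm

end coords

theorem cx_cross (a b : V ℝ) : cx a b = crossProduct a b := (cross_apply a b).symm

theorem dt_dot (a b : V ℝ) : dt a b = a ⬝ᵥ b := by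
  simp [dt, dotProduct, Fin.sum_univ_three]

/-! ### `S² × S²` -/

theorem J22 (z b : S22.AA) : S22.Y.J z b = (cx z.1.ofLp b.1.ofLp, cx z.2.ofLp b.2.ofLp) := by
  apply dt6_ext
  intro w
  rw [S22.Y.dt6_J, S22.X_B, S22.Y_E, S23.inner_R3, S23.inner_R3]
  simp [dt6, dt, cx, S23.cr3]
  ring

theorem base22 {a : ℝ} (ha : 0 < a) (p : SS S23.R3 S23.R3)
    (u v : TangentSpace ((𝓡 2).prod (𝓡 2)) p) :
    S22.X.B (S22.X.G (Wa S22.Y S22.pj a (0, 0, 0, 0)) (S22.X.j p) (S22.X.d p u)) (S22.X.d p v) =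
      a⁻¹ * ⟪(S22.X.d p u).1, (S22.X.d p v).1⟫ + ⟪(S22.X.d p u).2, (S22.X.d p v).2⟫ := by
  obtain ⟨h1, h2⟩ := S22.tan_perp p (S22.X.P_d p u)
  have hC := com_base (Y := S22.Y) fib22 ha (w := 0) le_rfl
  obtain ⟨q, hq⟩ : ∃ q, q = S22.X.d p u := ⟨_, rfl⟩
  have he : S22.X.G (Wa S22.Y S22.pj a (0, 0, 0, 0)) (S22.X.j p) (S22.X.d p u) =
      (a⁻¹ • q.1, q.2) := by
    refine G_of_W hC p _ u ?_ ?_
    · rw [S22.X_P, S22.X_j]
      simp only [real_inner_smul_right, hq, h1, h2, mul_zero, zero_smul, sub_zero]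
    · rw [Wa_base, J22, ← hq]
      rw [← hq] at h1 h2
      simp only [zero_smul, add_zero, S22.Y_E, S22.X_j]
      have e1 : a • cx (p.1 : S23.R3).ofLp (a⁻¹ • q.1).ofLp = cx (p.1 : S23.R3).ofLp q.1.ofLp := by
        have := ha.ne'
        refine V_ext ?_ ?_ ?_ <;> simp <;> field_simp
      rw [e1]
      exact Prod.ext (S22.cr3_tan h1 (inner_self_sph p.1)) (S22.cr3_tan h2 (inner_self_sph p.2))
  rw [he, S22.X_B, real_inner_smul_left, ← hq]

/-- **`S² × S²`** -/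
theorem main22 {r s w : ℝ} (hr : 0 < r) (hs : 0 < s) (hw : 0 ≤ w) :
    ∃ G : ℝ → ContMDiffRiemannianMetric ((𝓡 2).prod (𝓡 2)) ∞
      (EuclideanSpace ℝ (Fin 2) × EuclideanSpace ℝ (Fin 2))
      (fun x : S23.S2 × S23.S2 => TangentSpace ((𝓡 2).prod (𝓡 2)) x),
      IsDeformation (fun q => (q.1 : S23.R3)) (fun q => (q.2 : S23.R3))
        (fun q => momS2 q.1) (fun q => momS2 q.2) (1 / r ^ 2) (1 / s ^ 2) w r s G := by
  have ha : 0 < s ^ 2 / r ^ 2 := by positivity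
  have hw' : 0 ≤ s ^ 2 * w := by positivity
  have hc : 0 < s ^ 2 := by positivity
  obtain ⟨G, h1, h2, h3, -⟩ := deformation (Y := S22.Y) fib22 ha hw' hc
  refine ⟨G, h1, ?_, ?_, h3⟩
  · intro p b₁ b₂ v hv
    have h := cometric_of (com_base (Y := S22.Y) fib22 ha hw') hc h2 p (b₁, b₂) v (by
      intro u
      rw [hv u, S22.X_B]
      congr 1
      · exact congrArg (fun y => ⟪b₁, y⟫) (d_fst (m := 2) (n := 2) p u).symm
      · exact congrArg (fun y => ⟪b₂, y⟫) (d_snd (m := 2) (n := 2) p u).symm)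
    rw [h, B_base, J22]
    have e1 : cx (S22.X.j p).1.ofLp (b₁ : S23.R3).ofLp = momS2 p.1 b₁ := cx_cross _ _
    have e2 : cx (S22.X.j p).2.ofLp (b₂ : S23.R3).ofLp = momS2 p.2 b₂ := cx_cross _ _
    simp only [e1, e2, dt_dot]
    field_simp
  · intro hw0 p u v
    subst hw0
    rw [h2, mul_zero, base22 ha]
    have a1 := d_fst (m := 2) (n := 2) (V₁ := S23.R3) (V₂ := S23.R3) p
    have a2 := d_snd (m := 2) (n := 2) (V₁ := S23.R3) (V₂ := S23.R3) p
    have b1 : (S22.X.d p u).1 = mvfderiv ((𝓡 2).prod (𝓡 2))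
      (fun q : S23.S2 × S23.S2 => (q.1 : S23.R3)) p u := a1 u
    have b2 : (S22.X.d p v).1 = mvfderiv ((𝓡 2).prod (𝓡 2))
      (fun q : S23.S2 × S23.S2 => (q.1 : S23.R3)) p v := a1 v
    have b3 : (S22.X.d p u).2 = mvfderiv ((𝓡 2).prod (𝓡 2))
      (fun q : S23.S2 × S23.S2 => (q.2 : S23.R3)) p u := a2 u
    have b4 : (S22.X.d p v).2 = mvfderiv ((𝓡 2).prod (𝓡 2))
      (fun q : S23.S2 × S23.S2 => (q.2 : S23.R3)) p v := a2 v
    rw [b1, b2, b3, b4]
    field_simp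

/-! ### `S² × S³` -/

theorem J23 (z b : S23.AA) : S23.Y.J z b = (cx z.1.ofLp b.1.ofLp, momS3 z.2 b.2) := by
  apply dt6_ext
  intro w
  rw [S23.Y.dt6_J, S23.X_B, S23.Y_E, S23.inner_R3, real_inner_smul_right, S23.inner_quat]
  simp only [momS3, Quaternion.re_mul, Quaternion.imI_mul, Quaternion.imJ_mul,
    Quaternion.imK_mul]
  simp [dt6, dt, cx, S23.cr3, S23.im]
  ring

theorem tan_perp23 (p : SS S23.R3 S23.Hq) {a : S23.AA} (ha : S23.X.P (S23.X.j p) a = a) :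
    ⟪(p.1 : S23.R3), a.1⟫ = 0 ∧ ⟪(p.2 : S23.Hq), a.2⟫ = 0 := by
  rw [S23.X_P] at ha
  constructor
  · have h := congrArg Prod.fst ha
    simp only [S23.X_j, sub_eq_self] at h
    have h2 := congrArg (fun v => ⟪(p.1 : S23.R3), v⟫) h
    simp only [real_inner_smul_right, inner_self_sph, mul_one, inner_zero_right] at h2
    exact h2
  · have h := congrArg Prod.snd ha
    simp only [S23.X_j, sub_eq_self] at h
    have h2 := congrArg (fun v => ⟪(p.2 : S23.Hq), v⟫) h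
    simp only [real_inner_smul_right, inner_self_sph, mul_one, inner_zero_right] at h2
    exact h2

theorem quat_tan {g b : S23.Hq} (h2 : ⟪g, b⟫ = 0) (u2 : ⟪g, g⟫ = 1) :
    (1 / 2 : ℝ) • (S23.im (momS3 g ((4 : ℝ) • b)) * g) = b := by
  rw [S23.inner_quat] at h2 u2
  ext
  · simp only [momS3, Quaternion.re_smul, Quaternion.imI_smul, Quaternion.imJ_smul,
      Quaternion.imK_smul, Quaternion.re_mul, Quaternion.imI_mul, Quaternion.imJ_mul,
      Quaternion.imK_mul]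
    simp [S23.im]
    linear_combination b.re * u2 - g.re * h2
  · simp only [momS3, Quaternion.re_smul, Quaternion.imI_smul, Quaternion.imJ_smul,
      Quaternion.imK_smul, Quaternion.re_mul, Quaternion.imI_mul, Quaternion.imJ_mul,
      Quaternion.imK_mul]
    simp [S23.im]
    linear_combination b.imI * u2 - g.imI * h2
  · simp only [momS3, Quaternion.re_smul, Quaternion.imI_smul, Quaternion.imJ_smul,
      Quaternion.imK_smul, Quaternion.re_mul, Quaternion.imI_mul, Quaternion.imJ_mul,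
      Quaternion.imK_mul]
    simp [S23.im]
    linear_combination b.imJ * u2 - g.imJ * h2
  · simp only [momS3, Quaternion.re_smul, Quaternion.imI_smul, Quaternion.imJ_smul,
      Quaternion.imK_smul, Quaternion.re_mul, Quaternion.imI_mul, Quaternion.imJ_mul,
      Quaternion.imK_mul]
    simp [S23.im]
    linear_combination b.imK * u2 - g.imK * h2

theorem base23 {a : ℝ} (ha : 0 < a) (p : SS S23.R3 S23.Hq)
    (u v : TangentSpace ((𝓡 2).prod (𝓡 3)) p) :
    S23.X.B (S23.X.G (Wa S23.Y S23.pj a (0, 0, 0, 0)) (S23.X.j p) (S23.X.d p u)) (S23.X.d p v) =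
      a⁻¹ * ⟪(S23.X.d p u).1, (S23.X.d p v).1⟫ + 4 * ⟪(S23.X.d p u).2, (S23.X.d p v).2⟫ := by
  obtain ⟨h1, h2⟩ := tan_perp23 p (S23.X.P_d p u)
  have hC := com_base (Y := S23.Y) fib23 ha (w := 0) le_rfl
  obtain ⟨q, hq⟩ : ∃ q, q = S23.X.d p u := ⟨_, rfl⟩
  have he : S23.X.G (Wa S23.Y S23.pj a (0, 0, 0, 0)) (S23.X.j p) (S23.X.d p u) =
      (a⁻¹ • q.1, (4 : ℝ) • q.2) := by
    refine G_of_W hC p _ u ?_ ?_
    · rw [S23.X_P, S23.X_j]
      simp only [real_inner_smul_right, hq, h1, h2, mul_zero, zero_smul, sub_zero]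
    · rw [Wa_base, J23, ← hq]
      rw [← hq] at h1 h2
      simp only [zero_smul, add_zero, S23.Y_E, S23.X_j]
      have e1 : a • cx (p.1 : S23.R3).ofLp (a⁻¹ • q.1).ofLp = cx (p.1 : S23.R3).ofLp q.1.ofLp := by
        have := ha.ne'
        refine V_ext ?_ ?_ ?_ <;> simp <;> field_simp
      rw [e1]
      exact Prod.ext (S22.cr3_tan h1 (inner_self_sph p.1)) (quat_tan h2 (inner_self_sph p.2))
  rw [he, S23.X_B, real_inner_smul_left, real_inner_smul_left, ← hq]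

/-- **`S² × S³`** -/
theorem main23 {r s w : ℝ} (hr : 0 < r) (hs : 0 < s) (hw : 0 ≤ w) :
    ∃ G : ℝ → ContMDiffRiemannianMetric ((𝓡 2).prod (𝓡 3)) ∞
      (EuclideanSpace ℝ (Fin 2) × EuclideanSpace ℝ (Fin 3))
      (fun x : S23.S2 × S23.S3 => TangentSpace ((𝓡 2).prod (𝓡 3)) x),
      IsDeformation (fun q => (q.1 : S23.R3)) (fun q => (q.2 : S23.Hq))
        (fun q => momS2 q.1) (fun q => momS3 q.2) (1 / r ^ 2) (4 / s ^ 2) w r s G ∧
      ∀ t, 0 ≤ t → t ≤ 1 → FreeIsometricAction (𝓡 3) (G t) S23.ract := by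
  have ha : 0 < s ^ 2 / (4 * r ^ 2) := by positivity
  have hw' : 0 ≤ s ^ 2 / 4 * w := by positivity
  have hc : 0 < s ^ 2 / 4 := by positivity
  obtain ⟨G, h1, h2, h3, h4⟩ := deformation (Y := S23.Y) fib23 ha hw' hc
  refine ⟨G, ⟨h1, ?_, ?_, h3⟩, ?_⟩
  · intro p b₁ b₂ v hv
    have h := cometric_of (com_base (Y := S23.Y) fib23 ha hw') hc h2 p (b₁, b₂) v (by
      intro u
      rw [hv u, S23.X_B]
      congr 1
      · exact congrArg (fun y => ⟪b₁, y⟫) (d_fst (m := 2) (n := 3) p u).symm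
      · exact congrArg (fun y => ⟪b₂, y⟫) (d_snd (m := 2) (n := 3) p u).symm)
    rw [h, B_base, J23]
    have e1 : cx (S23.X.j p).1.ofLp (b₁ : S23.R3).ofLp = momS2 p.1 b₁ := cx_cross _ _
    have e2 : momS3 (S23.X.j p).2 b₂ = momS3 p.2 b₂ := rfl
    simp only [e1, e2, dt_dot]
    field_simp
  · intro hw0 p u v
    subst hw0
    rw [h2, mul_zero, base23 ha]
    have a1 := d_fst (m := 2) (n := 3) (V₁ := S23.R3) (V₂ := S23.Hq) p
    have a2 := d_snd (m := 2) (n := 3) (V₁ := S23.R3) (V₂ := S23.Hq) p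
    have b1 : (S23.X.d p u).1 = mvfderiv ((𝓡 2).prod (𝓡 3))
      (fun q : S23.S2 × S23.S3 => (q.1 : S23.R3)) p u := a1 u
    have b2 : (S23.X.d p v).1 = mvfderiv ((𝓡 2).prod (𝓡 3))
      (fun q : S23.S2 × S23.S3 => (q.1 : S23.R3)) p v := a1 v
    have b3 : (S23.X.d p u).2 = mvfderiv ((𝓡 2).prod (𝓡 3))
      (fun q : S23.S2 × S23.S3 => (q.2 : S23.Hq)) p u := a2 u
    have b4 : (S23.X.d p v).2 = mvfderiv ((𝓡 2).prod (𝓡 3))
      (fun q : S23.S2 × S23.S3 => (q.2 : S23.Hq)) p v := a2 v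
    rw [b1, b2, b3, b4]
    field_simp
  · intro t h0 h1
    obtain ⟨D, g, hC, hg, hG⟩ := h4 t h0 h1
    refine ⟨S23.ract_one, S23.ract_mul, S23.smooth_ract, S23.ract_free, ?_⟩
    intro h p u v
    rw [hG, hG, S23.isometric hC hg]

end Y934.PR
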