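import Pool.Agent.Y934.PR.Tay

/-!
The parameters of the family, their rotations, and the second order term.
-/

noncomputable section

open HopfPP

namespace Y934.PR

variable {R : Type*} [CommRing R]

/-- the parameters of the family: the cometric
`a |L|² + |M|² + w |L + M|² + 2 μ (L + M)₀ (L + M)₂ + κ (3 L₀² - L₂²) + 2 e (L₀ + L₁) (M·x)` -/
def Dfr (a w μ κ e : R) : Dat R :=
  ⟨![![w, 0, μ], ![0, w, 0], ![μ, 0, w]],
    ![![a - 1 + 3 * κ, 0, 0], ![0, a - 1, 0], ![0, 0, a - 1 - κ]], e, ![1, 1, 0]⟩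

/-- rotated matrix `w + μ (e₁ e₃ + e₃ e₁)` -/
def Wr (w μ : R) (O : Fin 3 → V R) : Fin 3 → V R :=
  symm3 (w + μ * (2 * (O 0 0 * O 0 2))) (μ * (O 0 0 * O 1 2 + O 0 2 * O 1 0))
    (μ * (O 0 0 * O 2 2 + O 0 2 * O 2 0)) (w + μ * (2 * (O 1 0 * O 1 2)))
    (μ * (O 1 0 * O 2 2 + O 1 2 * O 2 0)) (w + μ * (2 * (O 2 0 * O 2 2)))

/-- rotated parameters -/
def Dr (a w μ κ e : R) (O : Fin 3 → V R) : Dat R :=
  ⟨Wr w μ O, fun i j => ida (a - 1) i j + Qr κ O i j, e, vr O⟩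

theorem rotD_Dfr {O : Fin 3 → V R} (hO : Rotn O) (a w μ κ e : R) :
    rotD O (Dfr a w μ κ e) = Dr a w μ κ e O := by
  have h00 := hO.o00
  have h11 := hO.o11
  have h22 := hO.o22
  have h01 := hO.o01
  have h02 := hO.o02
  have h12 := hO.o12
  simp only [dt] at h00 h11 h22 h01 h02 h12
  have hW : rotW O (Dfr a w μ κ e).W = Wr w μ O := by
    funext i
    fin_cases i
    · refine V_ext ?_ ?_ ?_
      · simp [rotW, mv, mvT, dt, Dfr, Wr, symm3]; linear_combination w * h00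
      · simp [rotW, mv, mvT, dt, Dfr, Wr, symm3]; linear_combination w * h01
      · simp [rotW, mv, mvT, dt, Dfr, Wr, symm3]; linear_combination w * h02
    · refine V_ext ?_ ?_ ?_
      · simp [rotW, mv, mvT, dt, Dfr, Wr, symm3]; linear_combination w * h01
      · simp [rotW, mv, mvT, dt, Dfr, Wr, symm3]; linear_combination w * h11
      · simp [rotW, mv, mvT, dt, Dfr, Wr, symm3]; linear_combination w * h12
    · refine V_ext ?_ ?_ ?_
      · simp [rotW, mv, mvT, dt, Dfr, Wr, symm3]; linear_combination w * h02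
      · simp [rotW, mv, mvT, dt, Dfr, Wr, symm3]; linear_combination w * h12
      · simp [rotW, mv, mvT, dt, Dfr, Wr, symm3]; linear_combination w * h22
  have hQ : rotW O (Dfr a w μ κ e).Q = fun i j => ida (a - 1) i j + Qr κ O i j := by
    funext i
    fin_cases i
    · refine V_ext ?_ ?_ ?_
      · simp [rotW, mv, mvT, dt, Dfr, Qr, ida, symm3]; linear_combination (a - 1) * h00
      · simp [rotW, mv, mvT, dt, Dfr, Qr, ida, symm3]; linear_combination (a - 1) * h01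
      · simp [rotW, mv, mvT, dt, Dfr, Qr, ida, symm3]; linear_combination (a - 1) * h02
    · refine V_ext ?_ ?_ ?_
      · simp [rotW, mv, mvT, dt, Dfr, Qr, ida, symm3]; linear_combination (a - 1) * h01
      · simp [rotW, mv, mvT, dt, Dfr, Qr, ida, symm3]; linear_combination (a - 1) * h11
      · simp [rotW, mv, mvT, dt, Dfr, Qr, ida, symm3]; linear_combination (a - 1) * h12
    · refine V_ext ?_ ?_ ?_
      · simp [rotW, mv, mvT, dt, Dfr, Qr, ida, symm3]; linear_combination (a - 1) * h02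
      · simp [rotW, mv, mvT, dt, Dfr, Qr, ida, symm3]; linear_combination (a - 1) * h12
      · simp [rotW, mv, mvT, dt, Dfr, Qr, ida, symm3]; linear_combination (a - 1) * h22
  have hv : mv O (Dfr a w μ κ e).v = vr O := by
    refine V_ext ?_ ?_ ?_ <;> simp [mv, dt, Dfr, vr, Matrix.vecHead, Matrix.vecTail]
  rw [rotD, hW, hQ, hv, Dr, Dfr]

theorem KQv_Dfr (a w μ κ e : R) (n : V R) :
    KQv (Dfr a w μ κ e).W (HopfPP.Dfr μ κ e).Q n = μ ^ 2 * κ * k4 n := by
  simp [KQv, Dfr, HopfPP.Dfr, mv, dt, k4]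
  ring

theorem KQ_Dr {O : Fin 3 → V R} (hO : Rotn O) (w μ κ : R) :
    KQv (Wr w μ O) (Qr κ O) ![0, 0, 1] = μ ^ 2 * κ * k4 (O 2) := by
  have h := KQv_rot hO (Dfr 1 w μ κ 0).W (HopfPP.Dfr μ κ 0).Q (O 2)
  rw [KQv_Dfr, mv_row2 hO] at h
  have hW : rotW O (Dfr 1 w μ κ 0).W = Wr w μ O := congrArg Dat.W (rotD_Dfr hO 1 w μ κ 0)
  have hQ : rotW O (HopfPP.Dfr μ κ 0).Q = Qr κ O := congrArg Dat.Q (HopfPP.rotD_Dfr hO μ κ 0)
  rw [hW, hQ] at h
  exact h

end Y934.PR
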