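import Pool.Agent.Y934.PR.LocC

/-!
Local positivity of the polynomial `PP` near its zero set, uniformly in the parameters `w` and `μ`.
-/

open Set Filter
open scoped Topology
open H563H HopfPP HopfPP.LocH

noncomputable section

namespace Y934.PR

/-- parameters with `w` -/
abbrev Th2 := ℝ × Th

theorem cont_W2 (i j : Fin 3) : Continuous fun θ : Th2 => Wr θ.1 (pμ θ.2) (pO θ.2) i j := by
  have h0 : Continuous fun θ : Th2 => θ.1 := continuous_fst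
  have h1 : Continuous fun θ : Th2 => pO θ.2 := cO.comp continuous_snd
  have h2 : Continuous fun θ : Th2 => pμ θ.2 := cμ.comp continuous_snd
  fin_cases i <;> fin_cases j <;> simp only [Wr, symm3, Matrix.cons_val_zero, Matrix.cons_val_one,
    Matrix.cons_val, Fin.zero_eta, Fin.mk_one, Fin.reduceFinMk] <;> fun_prop

theorem cont_Q2 {q : Th2 → ℝ} (hq : Continuous q) (i j : Fin 3) :
    Continuous fun θ : Th2 => Qr (q θ) (pO θ.2) i j := by
  have h1 : Continuous fun θ : Th2 => pO θ.2 := cO.comp continuous_snd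
  fin_cases i <;> fin_cases j <;> simp only [Qr, symm3, Matrix.cons_val_zero, Matrix.cons_val_one,
    Matrix.cons_val, Fin.zero_eta, Fin.mk_one, Fin.reduceFinMk] <;> fun_prop

theorem cont_v2 (i : Fin 3) : Continuous fun θ : Th2 => vr (pO θ.2) i :=
  (cont_v i).comp continuous_snd

/-- a continuous function as a continuous family of truncated series -/
def ctE2 (c : Th2 → T3 ℝ) (h0 : Continuous fun θ => (c θ).c0) (h1 : Continuous fun θ => (c θ).c1)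
    (h2 : Continuous fun θ => (c θ).c2) : contT3 Th2 := ⟨c, h0, h1, h2⟩

theorem cont_Aco2 (a : ℝ) : Continuous fun θ : Th2 => Aco a θ.1 θ.2 := by
  obtain ⟨D, hD⟩ : ∃ D : Dat (contT3 Th2), ∀ θ, mapD (evT θ) D =
      DT a (Wr θ.1 (pμ θ.2) (pO θ.2)) (fun _ => 0) (pe θ.2) (vr (pO θ.2)) :=
    ⟨⟨fun i j => ctE2 (fun θ => ⟨Wr θ.1 (pμ θ.2) (pO θ.2) i j, 0, 0⟩) (cont_W2 i j)
        continuous_const continuous_const, fun i j => ctE2 (fun _ => ⟨ida (a - 1) i j, 0, 0⟩)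
        continuous_const continuous_const continuous_const,
      ctE2 (fun θ => ⟨0, pe θ.2, 0⟩) continuous_const (ce.comp continuous_snd) continuous_const,
      fun j => ctE2 (fun θ => ⟨vr (pO θ.2) j, 0, 0⟩) (cont_v2 j) continuous_const
        continuous_const⟩, fun θ => rfl⟩
  obtain ⟨x, hx⟩ : ∃ x : V (contT3 Th2), ∀ θ, mapV (evT θ) x = tv ![1, 0, 0] 0 0 :=
    ⟨fun j => ctE2 (fun θ => ⟨(![1, 0, 0] : V ℝ) j, 0, 0⟩) continuous_const
        continuous_const continuous_const, fun θ => rfl⟩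
  obtain ⟨a1, ha⟩ : ∃ a : V6 (contT3 Th2), ∀ θ, map6 (evT θ) a = aT (pr' θ.2) :=
    ⟨(fun j => ctE2 (fun θ => ⟨(![0, 0, 1] : V ℝ) j, 0, 0⟩) continuous_const
        continuous_const continuous_const,
      fun j => ctE2 (fun θ => ⟨0, pr' θ.2 j, 0⟩) continuous_const ((cr'j j).comp continuous_snd)
        continuous_const), fun θ => rfl⟩
  obtain ⟨b, hb⟩ : ∃ b : V6 (contT3 Th2), ∀ θ, map6 (evT θ) b = bT (ps θ.2) (pd θ.2) :=
    ⟨(fun j => ctE2 (fun θ => ⟨0, (![0, -ps θ.2, 0] : V ℝ) j, 0⟩) continuous_const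
        (by have : Continuous fun θ : Th2 => ps θ.2 := cs.comp continuous_snd
            fin_cases j <;> simp <;> fun_prop) continuous_const,
      fun j => ctE2 (fun θ => ⟨(![0, 0, 1] : V ℝ) j, pd θ.2 j, 0⟩) continuous_const
        ((cdj j).comp continuous_snd) continuous_const), fun θ => rfl⟩
  obtain ⟨G, hG⟩ : ∃ G : V6 (contT3 Th2), ∀ θ, map6 (evT θ) G = gTT (pg θ.2) (ph θ.2) :=
    ⟨(fun j => ctE2 (fun θ => ⟨0, pg θ.2 j, 0⟩) continuous_const ((cgj j).comp continuous_snd)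
        continuous_const,
      fun j => ctE2 (fun θ => ⟨0, ph θ.2 j, 0⟩) continuous_const ((chj j).comp continuous_snd)
        continuous_const), fun θ => rfl⟩
  have h := contT3_c2 (PP D x a1 b G)
  have e : (fun θ : Th2 => Aco a θ.1 θ.2) = fun θ => (evT θ (PP D x a1 b G)).c2 := by
    funext θ
    rw [map_PP, hD, hx, ha, hb, hG, Aco]
  rw [e]
  exact h

theorem cont_Psi2 (a : ℝ) : Continuous fun θ : Th2 => Psi a θ.1 θ.2 := by
  have h1 := cont_Aco2 a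
  have h2 : Continuous fun θ : Th2 => pe θ.2 := ce.comp continuous_snd
  have h3 : Continuous fun θ : Th2 => pO θ.2 := cO.comp continuous_snd
  unfold Psi k4
  fun_prop

section transfer

variable {S : Set Th2}

theorem apC2 {a : Th2 → ℝ} (ha : Bdd S a) :
    Approx S (fun θ _ => a θ) (fun θ => ⟨a θ, 0, 0⟩) := Approx.of_bdd ha

theorem apT2 {a : Th2 → ℝ} (ha : Bdd S a) :
    Approx S (fun θ t => t * a θ) (fun θ => ⟨0, a θ, 0⟩) := Approx.of_mul_t ha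

theorem apQ2 (a : ℝ) {q : Th2 → ℝ} (i j : Fin 3) (hq : Bdd S fun θ => Qr (q θ) (pO θ.2) i j) :
    Approx S (fun θ t => ida (a - 1) i j + Qr (t ^ 2 * q θ) (pO θ.2) i j)
      (fun θ => ⟨ida (a - 1) i j, 0, Qr (q θ) (pO θ.2) i j⟩) := by
  have h := Approx.of_val (S := S) (c := fun θ => ⟨ida (a - 1) i j, 0, Qr (q θ) (pO θ.2) i j⟩)
    (Bdd.const S (ida (a - 1) i j)) (Bdd.const S 0) hq
  have e : (fun θ t => ida (a - 1) i j + Qr (t ^ 2 * q θ) (pO θ.2) i j) =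
      fun θ t => T3.val ⟨ida (a - 1) i j, 0, Qr (q θ) (pO θ.2) i j⟩ t := by
    funext θ t
    rw [Qr_lin]
    simp only [T3.val]
    ring
  rw [e]
  exact h

theorem apL2 (j : Fin 3) {d : Th2 → V ℝ} (hd : Bdd S fun θ => d θ j) (c : V ℝ) :
    Approx S (fun θ t => c j + t * d θ j) (fun θ => ⟨c j, d θ j, 0⟩) := by
  have h := Approx.of_val (S := S) (c := fun θ => ⟨c j, d θ j, 0⟩) (Bdd.const S (c j))
    hd (Bdd.const S 0)
  have e : (fun θ t => c j + t * d θ j) = fun θ t => T3.val ⟨c j, d θ j, 0⟩ t := by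
    funext θ t
    simp only [T3.val]
    ring
  rw [e]
  exact h

theorem main_transfer2 (a : ℝ) (hS : IsCompact S) (hrot : ∀ θ ∈ S, Rotn (pO θ.2)) {q : Th2 → ℝ}
    (hq : Continuous q) (hqe : ∀ θ ∈ S, pμ θ.2 ^ 2 * q θ = a * (pe θ.2 ^ 2 / 128))
    (hpos : ∀ θ ∈ S, 0 < Psi a θ.1 θ.2) :
    ∃ t0 > 0, ∀ θ ∈ S, ∀ t, 0 < t → t < t0 →
      0 < PP (Dr a θ.1 (pμ θ.2) (t ^ 2 * q θ) (t * pe θ.2) (pO θ.2)) ![1, 0, 0]
        (![0, 0, 1], fun j => t * pr' θ.2 j)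
        (fun j => t * (![0, -ps θ.2, 0] : V ℝ) j,
          fun j => (![0, 0, 1] : V ℝ) j + t * pd θ.2 j)
        (fun j => t * pg θ.2 j, fun j => t * ph θ.2 j) := by
  have bd : ∀ {f : Th2 → ℝ}, Continuous f → Bdd S f := fun hf =>
    Bdd.of_continuousOn hS hf.continuousOn
  have bs : ∀ {f : Th → ℝ}, Continuous f → Bdd S (fun θ : Th2 => f θ.2) := fun hf =>
    bd (hf.comp continuous_snd)
  -- the data over `approxRing S`
  let D : Dat (approxRing S) :=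
    ⟨fun i j => (apC2 (bd (cont_W2 i j))).mk', fun i j => (apQ2 a i j (bd (cont_Q2 hq i j))).mk',
      (apT2 (bs ce)).mk', fun j => (apC2 (bd (cont_v2 j))).mk'⟩
  let x : V (approxRing S) := fun j => (apC2 (Bdd.const S ((![1, 0, 0] : V ℝ) j))).mk'
  let a1 : V6 (approxRing S) := (fun j => (apC2 (Bdd.const S ((![0, 0, 1] : V ℝ) j))).mk',
    fun j => (apT2 (bs (cr'j j))).mk')
  have hs : ∀ j : Fin 3, Continuous fun θ : Th => (![0, -ps θ, 0] : V ℝ) j := by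
    have := cs
    intro j
    fin_cases j <;> simp <;> fun_prop
  let b : V6 (approxRing S) := (fun j => (apT2 (bs (hs j))).mk',
    fun j => (apL2 j (bs (cdj j)) ![0, 0, 1]).mk')
  let G : V6 (approxRing S) := (fun j => (apT2 (bs (cgj j))).mk',
    fun j => (apT2 (bs (chj j))).mk')
  let P : approxRing S := PP D x a1 b G
  have hC : ∀ θ, evC S θ P = PP (DT a (Wr θ.1 (pμ θ.2) (pO θ.2)) (Qr (q θ) (pO θ.2)) (pe θ.2)
      (vr (pO θ.2))) (tv ![1, 0, 0] 0 0) (aT (pr' θ.2)) (bT (ps θ.2) (pd θ.2))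
      (gTT (pg θ.2) (ph θ.2)) := by
    intro θ
    show evC S θ (PP D x a1 b G) = _
    rw [map_PP]
    rfl
  have hF : ∀ θ t, evF S θ t P = PP (Dr a θ.1 (pμ θ.2) (t ^ 2 * q θ) (t * pe θ.2) (pO θ.2))
        ![1, 0, 0] (![0, 0, 1], fun j => t * pr' θ.2 j)
        (fun j => t * (![0, -ps θ.2, 0] : V ℝ) j,
          fun j => (![0, 0, 1] : V ℝ) j + t * pd θ.2 j)
        (fun j => t * pg θ.2 j, fun j => t * ph θ.2 j) := by
    intro θ t
    show evF S θ t (PP D x a1 b G) = _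
    rw [map_PP]
    rfl
  have hc2 : ∀ θ ∈ S, (evC S θ P).c2 = Psi a θ.1 θ.2 := by
    intro θ hθ
    rw [hC]
    exact c2_full (hrot θ hθ) a θ.1 (pμ θ.2) (q θ) (pe θ.2) (ps θ.2) (pr' θ.2) (pd θ.2) (pg θ.2)
      (ph θ.2) (hqe θ hθ)
  obtain ⟨κ, hκ, hκ'⟩ : ∃ κ > 0, ∀ θ ∈ S, κ ≤ Psi a θ.1 θ.2 := by
    rcases S.eq_empty_or_nonempty with h | h
    · exact ⟨1, one_pos, fun θ hθ => by rw [h] at hθ; exact hθ.elim⟩
    · obtain ⟨θ₀, h₀, hmin⟩ := hS.exists_isMinOn h (cont_Psi2 a).continuousOn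
      exact ⟨Psi a θ₀.1 θ₀.2, hpos θ₀ h₀, fun θ hθ => hmin hθ⟩
  obtain ⟨t0, ht0, h⟩ := approxRing_pos P
    (fun θ _ => by rw [hC]; exact (c01_eq _ _ _ _ _ _ _ _ _ _ _ _ _ _ _).1)
    (fun θ _ => by rw [hC]; exact (c01_eq _ _ _ _ _ _ _ _ _ _ _ _ _ _ _).2) hκ
    (fun θ hθ => by rw [hc2 θ hθ]; exact hκ' θ hθ)
  refine ⟨t0, ht0, fun θ hθ t h1 h2 => ?_⟩
  have := h θ hθ t h1 h2
  rwa [hF] at this

end transfer

/-- uniform positivity for small anisotropy -/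
theorem exists_mu2 {a w1 w2 : ℝ} (ha : 0 < a) (hw : 0 < w1) :
    ∃ μ1 > 0, μ1 ≤ 1 ∧ ∀ w ∈ Icc w1 w2, ∀ θ ∈ KK1, |pμ θ| ≤ μ1 → 0 < Psi a w θ := by
  have hK : IsCompact ((Icc w1 w2 ×ˢ KK1) ∩ {θ : Th2 | Psi a θ.1 θ.2 ≤ 0}) :=
    (isCompact_Icc.prod isCompact_KK1).inter_right (isClosed_le (cont_Psi2 a) continuous_const)
  rcases ((Icc w1 w2 ×ˢ KK1) ∩ {θ : Th2 | Psi a θ.1 θ.2 ≤ 0}).eq_empty_or_nonempty with h | h
  · refine ⟨1, one_pos, le_rfl, fun w hw θ hθ _ => ?_⟩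
    by_contra hcon
    have : (w, θ) ∈ (Icc w1 w2 ×ˢ KK1) ∩ {θ : Th2 | Psi a θ.1 θ.2 ≤ 0} :=
      ⟨⟨hw, hθ⟩, not_lt.mp hcon⟩
    rw [h] at this
    exact this
  · obtain ⟨θ₀, h₀, hmin⟩ := hK.exists_isMinOn h
      ((cμ.comp (continuous_snd : Continuous fun θ : Th2 => θ.2)).abs).continuousOn
    have hp : 0 < |pμ θ₀.2| := by
      rw [abs_pos]
      intro h0
      exact absurd (Psi_zero_pos ha (hw.trans_le h₀.1.1.1) h₀.1.2 h0) (not_lt.mpr h₀.2)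
    have hle : |pμ θ₀.2| ≤ 1 := h₀.1.2.2.2.2.2
    refine ⟨|pμ θ₀.2| / 2, by positivity, by linarith, fun w hw θ hθ hμ => ?_⟩
    by_contra hcon
    have h1 : (w, θ) ∈ (Icc w1 w2 ×ˢ KK1) ∩ {θ : Th2 | Psi a θ.1 θ.2 ≤ 0} :=
      ⟨⟨hw, hθ⟩, not_lt.mp hcon⟩
    have h2 : |pμ θ₀.2| ≤ |pμ θ| := hmin h1
    linarith

/-- local positivity for `e = 0`, uniformly in `w` -/
theorem loc0' {a w1 w2 : ℝ} (ha : 0 < a) (hw : 0 < w1) :
    ∃ t0 > 0, ∀ w ∈ Icc w1 w2, ∀ μ : ℝ, |μ| < t0 → ∀ O : Fin 3 → V ℝ, Rotn O →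
    ∀ (r d : V ℝ) (s : ℝ)
    (G : V6 ℝ), dt r (![0, 0, 1] + d) = 0 → dt (![0, 0, 1] + d) (![0, 0, 1] + d) = 1 →
    SmallPt t0 r d s G → ¬ (r = 0 ∧ d = 0 ∧ s = 0 ∧ G = 0) →
    0 < PP (Dr a w μ 0 0 O) ![1, 0, 0] (![0, 0, 1], r) (![0, -s, 0], ![0, 0, 1] + d) G := by
  obtain ⟨μ1, hμ1, hμ1', hpos⟩ := exists_mu2 (w2 := w2) ha hw
  have hS : IsCompact ((Icc w1 w2 ×ˢ KK1) ∩ {θ : Th2 | |pμ θ.2| ≤ μ1 ∧ pe θ.2 = 0}) :=
    (isCompact_Icc.prod isCompact_KK1).inter_right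
      ((isClosed_le (cμ.comp continuous_snd).abs continuous_const).inter
        (isClosed_eq (ce.comp continuous_snd) continuous_const))
  obtain ⟨t0, ht0, h⟩ := main_transfer2 a hS (fun θ hθ => hθ.1.2.1) (q := fun _ => 0)
    continuous_const
    (fun θ hθ => by rw [hθ.2.2]; ring) (fun θ hθ => hpos θ.1 hθ.1.1 θ.2 hθ.1.2 hθ.2.1)
  refine ⟨min (min μ1 (1 / 16)) (t0 / 4), by positivity, ?_⟩
  intro w hw μ hμ O hO r d s G h1 h2 hsm hne
  obtain ⟨hr, hd, hs, hg, hh⟩ := hsm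
  set t1 := min (min μ1 (1 / 16)) (t0 / 4) with ht1
  have ht1p : 0 < t1 := by positivity
  have hle1 : t1 ≤ μ1 := (min_le_left _ _).trans (min_le_left _ _)
  have hle2 : t1 ≤ 1 / 16 := (min_le_left _ _).trans (min_le_right _ _)
  have hle3 : t1 ≤ t0 / 4 := min_le_right _ _
  obtain ⟨t, ht, ht', θ, hθ, e1, e2, e3, e4, e5, e6, e7⟩ := normalise hO (e := 0) (μ := μ)
    (by linarith) h1 h2 hle2 (by rw [abs_zero]; exact ht1p) hr hd hs hg hh
    (fun hc => hne ⟨hc.2.1, hc.2.2.1, hc.2.2.2.1, hc.2.2.2.2⟩)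
  have he : pe θ = 0 := by
    rcases mul_eq_zero.1 e3.symm with h | h
    · exact absurd h ht.ne'
    · exact h
  have := h (w, θ) ⟨⟨hw, hθ⟩, by
    show |pμ θ| ≤ μ1 ∧ pe θ = 0
    rw [e2]; exact ⟨by linarith, he⟩⟩ t ht (by linarith)
  simp only at this
  rw [e1, e2, he, mul_zero, mul_zero, ← e4, ← e5, ← e6, ← e7] at this
  exact this

/-- local positivity with twist, uniformly in `w` and `μ` in a compact set -/
theorem loc1' {a c : ℝ} {C : Set (ℝ × ℝ)} (hC : IsCompact C) (hc : 0 < c)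
    (hCc : ∀ q ∈ C, c ≤ q.2 ∧ q.2 ≤ 1)
    (hpos : ∀ q ∈ C, ∀ θ ∈ KK1, pμ θ = q.2 → 0 < Psi a q.1 θ) :
    ∃ t0 > 0, ∀ q ∈ C, ∀ ε : ℝ, 0 < ε → ε < t0 →
    ∀ O : Fin 3 → V ℝ, Rotn O → ∀ (r d : V ℝ) (s : ℝ)
    (G : V6 ℝ), dt r (![0, 0, 1] + d) = 0 → dt (![0, 0, 1] + d) (![0, 0, 1] + d) = 1 →
    SmallPt t0 r d s G →
    0 < PP (Dr a q.1 q.2 (a * (ε ^ 2 / (128 * q.2 ^ 2))) ε O) ![1, 0, 0] (![0, 0, 1], r)
      (![0, -s, 0], ![0, 0, 1] + d) G := by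
  have hS : IsCompact {θ : Th2 | θ.2 ∈ KK1 ∧ (θ.1, pμ θ.2) ∈ C} := by
    have h1 : IsCompact ((Prod.fst '' C) ×ˢ KK1) := (hC.image continuous_fst).prod isCompact_KK1
    refine h1.of_isClosed_subset ?_ ?_
    · have c1 : Continuous fun θ : Th2 => (θ.1, pμ θ.2) :=
        continuous_fst.prodMk (cμ.comp continuous_snd)
      exact (isCompact_KK1.isClosed.preimage continuous_snd).inter (hC.isClosed.preimage c1)
    · rintro θ ⟨hθ, hq⟩
      exact ⟨⟨_, hq, rfl⟩, hθ⟩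
  have hq : Continuous fun θ : Th2 => a * (pe θ.2 ^ 2 / (128 * max (pμ θ.2) c ^ 2)) := by
    have c1 : Continuous fun θ : Th2 => pe θ.2 := ce.comp continuous_snd
    have c2 : Continuous fun θ : Th2 => pμ θ.2 := cμ.comp continuous_snd
    refine continuous_const.mul ((c1.pow 2).div (continuous_const.mul
      ((c2.max continuous_const).pow 2)) fun θ => ?_)
    have : 0 < max (pμ θ.2) c := hc.trans_le (le_max_right _ _)
    positivity
  obtain ⟨t0, ht0, h⟩ := main_transfer2 a hS (fun θ hθ => hθ.1.1)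
    (q := fun θ => a * (pe θ.2 ^ 2 / (128 * max (pμ θ.2) c ^ 2))) hq
    (fun θ hθ => by
      have h1 : c ≤ pμ θ.2 := (hCc _ hθ.2).1
      rw [max_eq_left h1]
      have : 0 < pμ θ.2 := hc.trans_le h1
      field_simp) (fun θ hθ => hpos _ hθ.2 θ.2 hθ.1 rfl)
  refine ⟨min (1 / 16) (t0 / 4), by positivity, ?_⟩
  intro q hqC ε hε hε' O hO r d s G h1 h2 hsm
  obtain ⟨hr, hd, hs, hg, hh⟩ := hsm
  set t1 := min (1 / 16) (t0 / 4) with ht1
  have ht1p : 0 < t1 := by positivity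
  have hle2 : t1 ≤ 1 / 16 := min_le_left _ _
  have hle3 : t1 ≤ t0 / 4 := min_le_right _ _
  have hq1 := hCc q hqC
  have hq0 : 0 < q.2 := hc.trans_le hq1.1
  obtain ⟨t, ht, ht', θ, hθ, e1, e2, e3, e4, e5, e6, e7⟩ := normalise hO (e := ε) (μ := q.2)
    (by rw [abs_of_pos hq0]; exact hq1.2) h1 h2 hle2 (by rw [abs_of_pos hε]; exact hε') hr hd hs
    hg hh (fun hc => hε.ne' hc.1)
  have := h (q.1, θ) ⟨hθ, by show (q.1, pμ θ) ∈ C; rw [e2]; exact hqC⟩ t ht (by linarith)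
  have e8 : t ^ 2 * (a * (pe θ ^ 2 / (128 * max (pμ θ) c ^ 2))) = a * (ε ^ 2 / (128 * q.2 ^ 2)) := by
    rw [e3, e2, max_eq_left hq1.1]; ring
  simp only at this
  rw [e8, e1, e2, ← e3, ← e4, ← e5, ← e6, ← e7] at this
  exact this

end Y934.PR
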