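import Pool.Agent.Y934.PR.Glob
import Pool.Agent.Y934.PR.LocW
import Pool.Agent.Y934.PR.AsmW

/-!
Positivity of the polynomial `PP` of the family, uniformly in the parameters `w` and `μ`.
-/

open Metric Filter HopfPP HopfPP.LocH
open scoped Topology RealInnerProductSpace

noncomputable section

namespace Y934.PR

open Pool.Agent.H821R3 H758H H907H

/-- local positivity for `e = 0` in the chart, uniformly in `w` -/
theorem near_muW {a w1 w2 : ℝ} (ha : 0 < a) (hw : 0 < w1) : ∃ t0 : ℝ, 0 < t0 ∧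
    ∀ w ∈ Set.Icc w1 w2, ∀ (μ s : ℝ) (x n ρ d : V ℝ) (G : V6 ℝ),
    |μ| < t0 → dt x x = 1 → dt n n = 1 → dt x n = 0 → dt ρ (n + d) = 0 →
    dt (n + d) (n + d) = 1 → SmallPt t0 ρ d s G → ¬(s = 0 ∧ ρ = 0 ∧ d = 0 ∧ G = 0) →
    0 < PP (Y934.PR.Dfr a w μ 0 0) x (n, ρ) (s • cx x n, n + d) G := by
  obtain ⟨t0, ht0, h⟩ := loc0' (w2 := w2) ha hw
  refine ⟨t0 / 3, by positivity, ?_⟩
  intro w hw μ s x n ρ d G hμ hx hn hxn hρ hnd hsm hne
  have hO := rotn_frO hx hn hxn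
  rw [Y934.PR.PP_chart hx hn hxn]
  refine h w hw μ (by linarith) (frO x n) hO _ _ s _ ?_ ?_ (smallPt_rot hO ht0 hsm) ?_
  · rw [← mv_frO_l hn hxn, ← mv_add, dt_rot hO, hρ]
  · rw [← mv_frO_l hn hxn, ← mv_add, dt_rot hO, hnd]
  · rintro ⟨a1, a2, a3, a4⟩
    refine hne ⟨a3, mv_eq_zero hO a1, mv_eq_zero hO a2, Prod.ext ?_ ?_⟩
    · exact mv_eq_zero hO (congrArg Prod.fst a4)
    · exact mv_eq_zero hO (congrArg Prod.snd a4)

/-- local positivity in the chart, uniformly in a compact set of parameters -/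
theorem near_epsW {a c : ℝ} {C : Set (ℝ × ℝ)} (hC : IsCompact C) (hc : 0 < c)
    (hCc : ∀ q ∈ C, c ≤ q.2 ∧ q.2 ≤ 1)
    (hpos : ∀ q ∈ C, ∀ θ ∈ KK1, pμ θ = q.2 → 0 < Psi a q.1 θ) :
    ∃ t0 : ℝ, 0 < t0 ∧ ∀ q ∈ C, ∀ (e s : ℝ) (x n ρ d : V ℝ) (G : V6 ℝ),
    0 < e → e < t0 → dt x x = 1 → dt n n = 1 →
    dt x n = 0 → dt ρ (n + d) = 0 → dt (n + d) (n + d) = 1 → SmallPt t0 ρ d s G →
    0 < PP (Y934.PR.Dfr a q.1 q.2 (a * (e ^ 2 / (128 * q.2 ^ 2))) e) x (n, ρ)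
      (s • cx x n, n + d) G := by
  obtain ⟨t0, ht0, h⟩ := loc1' hC hc hCc hpos
  refine ⟨t0 / 3, by positivity, ?_⟩
  intro q hq e s x n ρ d G he he' hx hn hxn hρ hnd hsm
  have hO := rotn_frO hx hn hxn
  rw [Y934.PR.PP_chart hx hn hxn]
  refine h q hq e he (by linarith) (frO x n) hO _ _ s _ ?_ ?_ (smallPt_rot hO ht0 hsm)
  · rw [← mv_frO_l hn hxn, ← mv_add, dt_rot hO, hρ]
  · rw [← mv_frO_l hn hxn, ← mv_add, dt_rot hO, hnd]

/-- The polynomial of the family is continuous in all variables. -/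
theorem continuous_PPW (a : ℝ) {X : Type*} [TopologicalSpace X] {w μ κ ε : X → ℝ} {x : X → V3}
    {α β Γ : X → A6} (hw : Continuous w) (hμ : Continuous μ) (hκ : Continuous κ)
    (hε : Continuous ε)
    (hx : Continuous x) (hα : Continuous α) (hβ : Continuous β) (hΓ : Continuous Γ) :
    Continuous fun p => PPf a (w p) (μ p) (κ p) (ε p) (x p) (α p) (β p) (Γ p) := by
  unfold PPf
  refine continuous_PP ?_ ?_ hε ?_ (continuous_toV hx) (continuous_toV hα.fst)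
    (continuous_toV hα.snd) (continuous_toV hβ.fst) (continuous_toV hβ.snd)
    (continuous_toV hΓ.fst) (continuous_toV hΓ.snd)
  · intro i j
    fin_cases i <;> fin_cases j <;> simp [Y934.PR.Dfr] <;> fun_prop
  · intro i j
    fin_cases i <;> fin_cases j <;> simp [Y934.PR.Dfr] <;> fun_prop
  · intro i
    exact continuous_const

theorem PPf_sl (a' w μ κ ε : ℝ) (x : V3) (α β Γ : A6) (a b c d : ℝ) :
    PPf a' w μ κ ε x (a • α + b • β) (c • α + d • β) ((a * d - b * c) • Γ) =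
      (a * d - b * c) ^ 2 * PPf a' w μ κ ε x α β Γ := by
  simp only [PPf, toV6_add, toV6_smul]
  exact GL2_fr a' w μ κ ε _ _ _ _ a b c d

theorem chart_coord {t0 s : ℝ} {x n ρ d : V3} {Γ : A6} (h : InCh t0 s x n ρ d Γ) :
    dt (toV x) (toV x) = 1 ∧ dt (toV n) (toV n) = 1 ∧ dt (toV x) (toV n) = 0 ∧
      dt (toV ρ) (toV n + toV d) = 0 ∧ dt (toV n + toV d) (toV n + toV d) = 1 ∧
      SmallPt t0 (toV ρ) (toV d) s (toV6 Γ) := by
  have hnn : ∀ {x : V3}, ‖x‖ = 1 → dt (toV x) (toV x) = 1 := by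
    intro x hx
    rw [dt_toV, real_inner_self_eq_norm_sq, hx, one_pow]
  obtain ⟨h1, h2, h3, h4, h5, h6, h7, h8, h9, h10⟩ := h
  refine ⟨hnn h1, hnn h2, by rw [dt_toV]; exact h3, by rw [← toV_add, dt_toV]; exact h4,
    by rw [← toV_add]; exact hnn h5,
    fun i => lt_of_le_of_lt (abs_toV_le _ _) h7,
    fun i => lt_of_le_of_lt (abs_toV_le _ _) h9, h8,
    fun i => lt_of_le_of_lt (abs_toV_le _ _) (lt_of_le_of_lt ?_ h10),
    fun i => lt_of_le_of_lt (abs_toV_le _ _) (lt_of_le_of_lt ?_ h10)⟩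
  · rw [Prod.norm_def]; exact le_max_left _ _
  · rw [Prod.norm_def]; exact le_max_right _ _

theorem chart_form (s : ℝ) (x n ρ d : V3) : toV6 ((n, ρ) : A6) = (toV n, toV ρ) ∧
    toV6 ((s • cr x n, n + d) : A6) = (s • cx (toV x) (toV n), toV n + toV d) := by
  refine ⟨rfl, ?_⟩
  rw [cx_toV, ← toV_smul, ← toV_add]
  rfl

/-- admissible parameters `w`, `μ` -/
structure Adm (a w μ : ℝ) : Prop where
  pos : 0 < μ
  le : μ ≤ 1
  psi : ∀ θ ∈ KK1, pμ θ = μ → 0 < Psi a w θ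
  off : ∀ x (α β Γ : A6), (x, α, β, Γ) ∈ H907H.KK → ¬Zer α β Γ → 0 < PPf a w μ 0 0 x α β Γ

/-- small `μ` are admissible, locally uniformly in `w > 0` -/
theorem exists_adm {a w1 w2 : ℝ} (ha : 0 < a) (hw : 0 < w1) :
    ∃ μ0 : ℝ, 0 < μ0 ∧ ∀ w ∈ Set.Icc w1 w2, ∀ μ, 0 < μ → μ < μ0 → Adm a w μ := by
  obtain ⟨μ1, hμ1, hμ1', hpsi⟩ := exists_mu2 (w2 := w2) ha hw
  obtain ⟨μ2, hμ2, hmu⟩ := exists_muW (isCompact_Icc (a := w1) (b := w2))
    (fun μ w x α β Γ => PPf a w μ 0 0 x α β Γ)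
    (continuous_PPW a (by fun_prop) (by fun_prop) (by fun_prop) (by fun_prop) (by fun_prop)
      (by fun_prop) (by fun_prop) (by fun_prop))
    (fun μ w x α β Γ a' b c d => PPf_sl a w μ 0 0 x α β Γ a' b c d)
    (fun w hwm x α β Γ _ hz => PPf_off ha (hw.trans_le hwm.1) x α β Γ hz) (by
      obtain ⟨t0, ht0, h⟩ := near_muW (w2 := w2) ha hw
      refine ⟨t0, ht0, fun w hwm μ s x n ρ d Γ hμ hc hne => ?_⟩
      obtain ⟨c1, c2, c3, c4, c5, c6⟩ := chart_coord hc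
      obtain ⟨f1, f2⟩ := chart_form s x n ρ d
      simp only [PPf, f1, f2]
      refine h w hwm μ s _ _ _ _ _ hμ c1 c2 c3 c4 c5 c6 ?_
      rintro ⟨r1, r2, r3, r4⟩
      exact hne ⟨r1, toV_eq_zero r2, toV_eq_zero r3, toV6_eq_zero r4⟩)
  refine ⟨min μ1 μ2, lt_min hμ1 hμ2, fun w hwm μ h0 hlt => ⟨h0, ?_, ?_, ?_⟩⟩
  · exact (hlt.trans_le (min_le_left _ _)).le.trans hμ1'
  · intro θ hθ hθμ
    refine hpsi w hwm θ hθ ?_
    rw [hθμ, abs_of_pos h0]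
    exact (hlt.trans_le (min_le_left _ _)).le
  · intro x α β Γ hp hz
    exact hmu μ (by rw [abs_of_pos h0]; exact hlt.trans_le (min_le_right _ _)) w hwm x α β Γ hp hz

/-- positivity for a compact set of admissible parameters -/
theorem exists_nu {a : ℝ} {C : Set (ℝ × ℝ)} (hC : IsCompact C)
    (hadm : ∀ q ∈ C, Adm a q.1 q.2) :
    ∃ ν0 : ℝ, 0 < ν0 ∧ ∀ ν, 0 < ν → ν < ν0 → ∀ q ∈ C,
      ∀ x (α β Γ : A6), ‖x‖ = 1 → ⟪x, α.1⟫ = 0 → ⟪x, β.1⟫ = 0 → ⟪x, Γ.1⟫ = 0 →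
      pr α α = 1 → pr β β = 1 → pr α β = 0 →
      0 < PPf a q.1 q.2 (a * (ν ^ 2 / 128)) (q.2 * ν) x α β Γ := by
  obtain ⟨c, hc, hCc⟩ : ∃ c > 0, ∀ q ∈ C, c ≤ q.2 ∧ q.2 ≤ 1 := by
    rcases C.eq_empty_or_nonempty with h | h
    · exact ⟨1, one_pos, fun q hq => by rw [h] at hq; exact hq.elim⟩
    · obtain ⟨q₀, h₀, hmin⟩ := hC.exists_isMinOn h (continuous_snd).continuousOn
      exact ⟨q₀.2, (hadm q₀ h₀).pos, fun q hq => ⟨hmin hq, (hadm q hq).le⟩⟩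
  obtain ⟨t0, ht0, hnear⟩ := near_epsW hC hc hCc fun q hq => (hadm q hq).psi
  refine exists_epsW hC (fun ν q x α β Γ => PPf a q.1 q.2 (a * (ν ^ 2 / 128)) (q.2 * ν) x α β Γ)
    (continuous_PPW a (by fun_prop) (by fun_prop) (by fun_prop) (by fun_prop) (by fun_prop)
      (by fun_prop) (by fun_prop) (by fun_prop))
    (fun ν q x α β Γ a' b c d => PPf_sl a q.1 q.2 _ _ x α β Γ a' b c d) ?_ ?_
  · intro q hq x α β Γ hp hz
    have := (hadm q hq).off x α β Γ hp hz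
    simpa using this
  · refine ⟨t0, ht0, fun q hq ν s x n ρ d Γ h0 h1 hch => ?_⟩
    obtain ⟨c1, c2, c3, c4, c5, c6⟩ := chart_coord hch
    obtain ⟨f1, f2⟩ := chart_form s x n ρ d
    have hq0 := (hadm q hq).pos
    have h2 : q.2 * ν < t0 := by
      have := (hadm q hq).le
      nlinarith
    have h3 := hnear q hq (q.2 * ν) s _ _ _ _ _ (mul_pos hq0 h0) h2 c1 c2 c3 c4 c5 c6
    have e : a * ((q.2 * ν) ^ 2 / (128 * q.2 ^ 2)) = a * (ν ^ 2 / 128) := by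
      have := hq0.ne'
      field_simp
    simp only [PPf, f1, f2]
    rw [e] at h3
    exact h3

end Y934.PR
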