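import Pool.Agent.Y934.PR.Fro
import Pool.Agent.H754R2.HO.Near
import Pool.Agent.H754R2.HO.GLP

/-!
Local positivity near the zero set, from the slice.
-/

noncomputable section

open HopfPP

namespace Y934.PR

/-- local positivity in the slice for `e = 0` -/
def LOC0 (a w : ℝ) : Prop := ∃ t0 : ℝ, 0 < t0 ∧ ∀ (μ : ℝ) (O : Fin 3 → V ℝ) (r d : V ℝ) (s : ℝ)
  (G : V6 ℝ), |μ| < t0 → Rotn O → dt r (![0, 0, 1] + d) = 0 →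
  dt (![0, 0, 1] + d) (![0, 0, 1] + d) = 1 →
  SmallPt t0 r d s G → ¬(r = 0 ∧ d = 0 ∧ s = 0 ∧ G = 0) →
  0 < PP (Dr a w μ 0 0 O) ![1, 0, 0] (![0, 0, 1], r) (![0, -s, 0], ![0, 0, 1] + d) G

/-- local positivity in the slice -/
def LOC1 (a w : ℝ) : Prop := ∃ μ1 : ℝ, 0 < μ1 ∧ ∀ μ : ℝ, 0 < μ → μ < μ1 → ∃ t0 : ℝ, 0 < t0 ∧
  ∀ (e : ℝ) (O : Fin 3 → V ℝ) (r d : V ℝ) (s : ℝ) (G : V6 ℝ), 0 < e → e < t0 →
  Rotn O → dt r (![0, 0, 1] + d) = 0 → dt (![0, 0, 1] + d) (![0, 0, 1] + d) = 1 →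
  SmallPt t0 r d s G →
  0 < PP (Dr a w μ (a * (e ^ 2 / (128 * μ ^ 2))) e O) ![1, 0, 0] (![0, 0, 1], r)
    (![0, -s, 0], ![0, 0, 1] + d) G

theorem PP_chart {x n : V ℝ} (hx : dt x x = 1) (hn : dt n n = 1) (hxn : dt x n = 0) (a w μ κ e : ℝ)
    (ρ d : V ℝ) (s : ℝ) (G : V6 ℝ) :
    PP (Dfr a w μ κ e) x (n, ρ) (s • cx x n, n + d) G =
      PP (Dr a w μ κ e (frO x n)) ![1, 0, 0] (![0, 0, 1], mv (frO x n) ρ)
        (![0, -s, 0], ![0, 0, 1] + mv (frO x n) d) (mv6 (frO x n) G) := by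
  have hO := rotn_frO hx hn hxn
  rw [← PP_rot hO (Dfr a w μ κ e) x, rotD_Dfr hO, mv_frO_x hx hxn]
  have e1 : mv6 (frO x n) (n, ρ) = (![0, 0, 1], mv (frO x n) ρ) := by
    rw [mv6, mv_frO_l hn hxn]
  have e2 : mv6 (frO x n) (s • cx x n, n + d) =
      (![0, -s, 0], ![0, 0, 1] + mv (frO x n) d) := by
    rw [mv6, mv_smul, mv_add, mv_frO_l hn hxn, mv_frO_k hx hn hxn]
    refine Prod.ext ?_ rfl
    refine V_ext ?_ ?_ ?_ <;> simp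
  rw [e1, e2]

/-- local positivity for `e = 0` -/
theorem near_mu {a w : ℝ} (hL : LOC0 a w) : ∃ t0 : ℝ, 0 < t0 ∧ ∀ (μ s : ℝ) (x n ρ d : V ℝ) (G : V6 ℝ),
    |μ| < t0 → dt x x = 1 → dt n n = 1 → dt x n = 0 → dt ρ (n + d) = 0 →
    dt (n + d) (n + d) = 1 → SmallPt t0 ρ d s G → ¬(s = 0 ∧ ρ = 0 ∧ d = 0 ∧ G = 0) →
    0 < PP (Dfr a w μ 0 0) x (n, ρ) (s • cx x n, n + d) G := by
  obtain ⟨t0, ht0, h⟩ := hL
  refine ⟨t0 / 3, by positivity, ?_⟩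
  intro μ s x n ρ d G hμ hx hn hxn hρ hnd hsm hne
  have hO := rotn_frO hx hn hxn
  rw [PP_chart hx hn hxn]
  refine h μ (frO x n) _ _ s _ (by linarith) hO ?_ ?_ (smallPt_rot hO ht0 hsm) ?_
  · rw [← mv_frO_l hn hxn, ← mv_add, dt_rot hO, hρ]
  · rw [← mv_frO_l hn hxn, ← mv_add, dt_rot hO, hnd]
  · rintro ⟨a1, a2, a3, a4⟩
    refine hne ⟨a3, mv_eq_zero hO a1, mv_eq_zero hO a2, Prod.ext ?_ ?_⟩
    · exact mv_eq_zero hO (congrArg Prod.fst a4)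
    · exact mv_eq_zero hO (congrArg Prod.snd a4)

/-- local positivity -/
theorem near_eps {a w : ℝ} (hL : LOC1 a w) : ∃ μ1 : ℝ, 0 < μ1 ∧ ∀ μ : ℝ, 0 < μ → μ < μ1 → ∃ t0 : ℝ, 0 < t0 ∧
    ∀ (e s : ℝ) (x n ρ d : V ℝ) (G : V6 ℝ), 0 < e → e < t0 → dt x x = 1 → dt n n = 1 →
    dt x n = 0 → dt ρ (n + d) = 0 → dt (n + d) (n + d) = 1 → SmallPt t0 ρ d s G →
    0 < PP (Dfr a w μ (a * (e ^ 2 / (128 * μ ^ 2))) e) x (n, ρ) (s • cx x n, n + d) G := by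
  obtain ⟨μ1, hμ1, h⟩ := hL
  refine ⟨μ1, hμ1, fun μ hμ hμ' => ?_⟩
  obtain ⟨t0, ht0, h⟩ := h μ hμ hμ'
  refine ⟨t0 / 3, by positivity, ?_⟩
  intro e s x n ρ d G he he' hx hn hxn hρ hnd hsm
  have hO := rotn_frO hx hn hxn
  rw [PP_chart hx hn hxn]
  refine h e (frO x n) _ _ s _ he (by linarith) hO ?_ ?_ (smallPt_rot hO ht0 hsm)
  · rw [← mv_frO_l hn hxn, ← mv_add, dt_rot hO, hρ]
  · rw [← mv_frO_l hn hxn, ← mv_add, dt_rot hO, hnd]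

/-- the transformation law -/
theorem GL2_fr (a' w μ κ e : ℝ) (x : V ℝ) (α β Γ : V6 ℝ) (a b c d : ℝ) :
    PP (Dfr a' w μ κ e) x (a • α + b • β) (c • α + d • β) ((a * d - b * c) • Γ) =
    (a * d - b * c) ^ 2 * PP (Dfr a' w μ κ e) x α β Γ := by
  refine PP_GL2 ⟨?_, ?_⟩ α β Γ a b c d
  · intro u w
    simp [Dfr, dt]
    ring
  · intro u w
    simp [Dfr, dt]
    ring

end Y934.PR
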