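import Pool.Agent.H754R2.HO.P0

/-!
The polynomial `PP` for the cometric `a |L|² + |M|² + w |L + M|²` is a sum of squares.
-/

open HopfPP

namespace Y934.PR

variable {R : Type*} [CommRing R]

/-- the unperturbed parameters -/
def D0 (a w : R) : Dat R :=
  ⟨![![w, 0, 0], ![0, w, 0], ![0, 0, w]], ![![a - 1, 0, 0], ![0, a - 1, 0], ![0, 0, a - 1]], 0, 0⟩

theorem KK_D0 (a w : R) (x : V R) (b : V6 R) :
    KK (D0 a w) x b = (a • b.1 + w • (b.1 + b.2), b.2 + w • (b.1 + b.2)) := by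
  refine Prod.ext (V_ext ?_ ?_ ?_) (V_ext ?_ ?_ ?_) <;>
    simp [KK, D0, mv, dt, Matrix.vecHead, Matrix.vecTail] <;> ring

theorem TT_D0 (a w : R) (ζ : V R) (b : V6 R) : TT (D0 a w) ζ b = 0 := by
  refine Prod.ext (V_ext ?_ ?_ ?_) (V_ext ?_ ?_ ?_) <;> simp [TT, D0]

theorem gT_D0 (a w : R) (c d : V6 R) : gT (TT (D0 a w)) c d = 0 := by
  rw [gT_TT]
  simp [D0]

theorem PP_D0 (a w : R) (x : V R) (α β Γ : V6 R) : PP (D0 a w) x α β Γ =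
    a ^ 3 * nq (cx α.1 β.1) + nq (cx α.2 β.2) +
      w ^ 3 * nq (cx α.1 β.1 + cx α.2 β.2 + (cx α.1 β.2 - cx β.1 α.2)) +
      3 * (a * nq (Γ.1 - a • cx α.1 β.1) + nq (Γ.2 - cx α.2 β.2) +
        w * nq (Γ.1 + Γ.2 - (2 * a + w) • cx α.1 β.1 - (2 + w) • cx α.2 β.2 -
          w • (cx α.1 β.2 - cx β.1 α.2))) := by
  obtain ⟨L, M⟩ := α
  obtain ⟨L', M'⟩ := β
  obtain ⟨G, H⟩ := Γ
  have hcx : ∀ a : V R, cx (0 : V R) a = 0 := fun a => by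
    refine V_ext ?_ ?_ ?_ <;> simp
  have hcx' : ∀ a : V R, cx a (0 : V R) = 0 := fun a => by
    refine V_ext ?_ ?_ ?_ <;> simp
  simp only [PP, PPg, sS, KK_D0, TT_D0, gT_D0, cx6, hcx, hcx', dt6, nq, Prod.fst_zero, Prod.snd_zero,
    Prod.fst_add, Prod.snd_add, Prod.fst_sub, Prod.snd_sub, Prod.mk_add_mk]
  simp only [dt, Pi.add_apply, Pi.sub_apply, Pi.zero_apply, cx_0, cx_1, cx_2, Pi.smul_apply,
    smul_eq_mul]
  ring

section real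

variable {a w : ℝ}

/-- the zero set of the unperturbed polynomial -/
theorem PP_D0_zero (ha : 0 < a) (hw : 0 < w) {x : V ℝ} {α β Γ : V6 ℝ}
    (h : PP (D0 a w) x α β Γ ≤ 0) :
    cx α.1 β.1 = 0 ∧ cx α.2 β.2 = 0 ∧ cx α.1 β.2 - cx β.1 α.2 = 0 ∧ Γ = 0 := by
  rw [PP_D0] at h
  have h1 := nq_nonneg (cx α.1 β.1)
  have h2 := nq_nonneg (cx α.2 β.2)
  have h3 := nq_nonneg (cx α.1 β.1 + cx α.2 β.2 + (cx α.1 β.2 - cx β.1 α.2))
  have h4 := nq_nonneg (Γ.1 - a • cx α.1 β.1)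
  have h5 := nq_nonneg (Γ.2 - cx α.2 β.2)
  have h6 := nq_nonneg (Γ.1 + Γ.2 - (2 * a + w) • cx α.1 β.1 - (2 + w) • cx α.2 β.2 -
          w • (cx α.1 β.2 - cx β.1 α.2))
  have ha3 : 0 < a ^ 3 := by positivity
  have hw3 : 0 < w ^ 3 := by positivity
  have k1 := mul_nonneg ha3.le h1
  have k3 := mul_nonneg hw3.le h3
  have k4 := mul_nonneg ha.le h4
  have k6 := mul_nonneg hw.le h6
  have z : ∀ {c t : ℝ}, 0 < c → c * t ≤ 0 → 0 ≤ t → t = 0 := by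
    intro c t hc h1 h2
    by_contra hne
    have := mul_pos hc (lt_of_le_of_ne h2 (Ne.symm hne))
    linarith
  have e1 := nq_eq_zero (a := cx α.1 β.1) (z ha3 (by linarith) h1)
  have e2 := nq_eq_zero (a := cx α.2 β.2) (by linarith)
  have e3 := nq_eq_zero (a := cx α.1 β.1 + cx α.2 β.2 + (cx α.1 β.2 - cx β.1 α.2))
    (z hw3 (by linarith) h3)
  have e4 := nq_eq_zero (a := Γ.1 - a • cx α.1 β.1) (z ha (by linarith) h4)
  have e5 := nq_eq_zero (a := Γ.2 - cx α.2 β.2) (by linarith)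
  rw [e1, e2, zero_add, zero_add] at e3
  rw [e1, smul_zero, sub_zero] at e4
  rw [e2, sub_zero] at e5
  exact ⟨e1, e2, e3, Prod.ext e4 e5⟩

end real

end Y934.PR
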