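import Pool.Agent.H893R5.HO.Gen

/-!
Closeness of metrics on immersed manifolds in `C^N`, and its proof for metrics whose cometrics
depend smoothly on parameters.
-/

open Bundle Manifold ContDiff ContinuousLinearMap Filter
open scoped Topology

set_option autoImplicit false
set_option linter.unusedSectionVars false

noncomputable section

namespace Y934.PR

section calculus

variable {P A F : Type*} [NormedAddCommGroup P] [NormedSpace ℝ P] [NormedAddCommGroup A]
  [NormedSpace ℝ A] [NormedAddCommGroup F] [NormedSpace ℝ F]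

/-- the derivatives in the second variable are jointly smooth -/
theorem contDiffAt_iter {f : P → A → F} {x₀ : P} {z₀ : A}
    (hf : ContDiffAt ℝ ∞ (fun q : P × A => f q.1 q.2) (x₀, z₀)) (k : ℕ) :
    ContDiffAt ℝ ∞ (fun q : P × A => iteratedFDeriv ℝ k (f q.1) q.2) (x₀, z₀) := by
  induction k with
  | zero =>
    have e : (fun q : P × A => iteratedFDeriv ℝ 0 (f q.1) q.2) = fun q : P × A =>
        (continuousMultilinearCurryFin0 ℝ A F).symm (f q.1 q.2) := by
      funext q
      rw [iteratedFDeriv_zero_eq_comp]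
      rfl
    rw [e]
    exact (LinearIsometryEquiv.contDiff _).contDiffAt.comp _ hf
  | succ k ih =>
    have e : (fun q : P × A => iteratedFDeriv ℝ (k + 1) (f q.1) q.2) = fun q : P × A =>
        (continuousMultilinearCurryLeftEquiv ℝ (fun _ : Fin (k + 1) => A) F).symm
          (fderiv ℝ (iteratedFDeriv ℝ k (f q.1)) q.2) := by
      funext q
      rw [iteratedFDeriv_succ_eq_comp_left]
      rfl
    rw [e]
    have h1 : ContDiffAt ℝ ∞ (Function.uncurry
        (fun (q : P × A) (z : A) => iteratedFDeriv ℝ k (f q.1) z)) ((x₀, z₀), (x₀, z₀).2) := by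
      have h2 : ContDiffAt ℝ ∞ (fun p : (P × A) × A => ((p.1.1, p.2) : P × A))
          ((x₀, z₀), (x₀, z₀).2) :=
        (contDiffAt_fst.fst).prodMk contDiffAt_snd
      exact ContDiffAt.comp (g := fun q : P × A => iteratedFDeriv ℝ k (f q.1) q.2)
        ((x₀, z₀), (x₀, z₀).2) ih h2
    have h3 : ContDiffAt ℝ ∞ (fun q : P × A => fderiv ℝ (iteratedFDeriv ℝ k (f q.1)) q.2)
        (x₀, z₀) :=
      ContDiffAt.fderiv (f := fun (q : P × A) (z : A) => iteratedFDeriv ℝ k (f q.1) z)
        (g := fun q : P × A => q.2) (n := ∞) (m := ∞) h1 contDiffAt_snd le_rfl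
    exact (LinearIsometryEquiv.contDiff _).contDiffAt.comp _ h3

/-- uniform smallness of the derivatives of a difference -/
theorem small_deriv {f : P → A → F} {x₀ : P} {K : Set A} (hK : IsCompact K)
    (hf : ∀ z ∈ K, ContDiffAt ℝ ∞ (fun q : P × A => f q.1 q.2) (x₀, z)) (N : ℕ) {η : ℝ}
    (hη : 0 < η) : ∃ δ > 0, ∀ x, ‖x - x₀‖ < δ → ∀ k ≤ N, ∀ z ∈ K,
      ‖iteratedFDeriv ℝ k (fun z => f x z - f x₀ z) z‖ ≤ η := by
  have h1 : ∀ k : ℕ, ∀ᶠ x in 𝓝 x₀, ∀ z ∈ K,
      ‖iteratedFDeriv ℝ k (fun z => f x z - f x₀ z) z‖ ≤ η := by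
    intro k
    refine hK.eventually_forall_of_forall_eventually
      (P := fun x z => ‖iteratedFDeriv ℝ k (fun z => f x z - f x₀ z) z‖ ≤ η) fun z hz => ?_
    have h2 : ContDiffAt ℝ ∞ (fun q : P × A => f q.1 q.2 - f x₀ q.2) (x₀, z) := by
      refine (hf z hz).sub ?_
      have h4 : ContDiffAt ℝ ∞ (fun q : P × A => ((x₀, q.2) : P × A)) (x₀, z) :=
        contDiffAt_const.prodMk contDiffAt_snd
      exact ContDiffAt.comp (g := fun q : P × A => f q.1 q.2) (x₀, z) (hf z hz) h4
    have h3 := (contDiffAt_iter (f := fun x z => f x z - f x₀ z) h2 k).continuousAt.norm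
    have h5 : ‖iteratedFDeriv ℝ k (fun z => f x₀ z - f x₀ z) z‖ < η := by
      have e : (fun z => f x₀ z - f x₀ z) = fun _ : A => (0 : F) := by
        funext z; exact sub_self _
      rw [e]
      rw [show (iteratedFDeriv ℝ k (fun _ : A => (0 : F)) z) = 0 from by
        have := iteratedFDeriv_fun_zero (𝕜 := ℝ) (E := A) (F := F) (n := k)
        exact congrFun this z]
      rw [norm_zero]
      exact hη
    exact (h3.eventually_lt continuousAt_const h5).mono fun q hq => hq.le
  have h2 : ∀ᶠ x in 𝓝 x₀, ∀ k ∈ Finset.range (N + 1), ∀ z ∈ K,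
      ‖iteratedFDeriv ℝ k (fun z => f x z - f x₀ z) z‖ ≤ η :=
    (Filter.eventually_all_finset _).2 fun k _ => h1 k
  obtain ⟨δ, hδ, h3⟩ := Metric.eventually_nhds_iff.1 h2
  exact ⟨δ, hδ, fun x hx k hk z hz => h3 (by rw [dist_eq_norm]; exact hx) k
    (Finset.mem_range.2 (by omega)) z hz⟩

end calculus

section close

variable {E : Type*} [NormedAddCommGroup E] [NormedSpace ℝ E]
  {H : Type*} [TopologicalSpace H] {I : ModelWithCorners ℝ E H}
  {M : Type*} [TopologicalSpace M] [ChartedSpace H M] [IsManifold I ∞ M]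
  {A : Type*} [NormedAddCommGroup A] [NormedSpace ℝ A]

/-- For a manifold `M` immersed in a normed vector space `A` by `j`: the metrics `g` and `g'` on
`M` are `η`-close in `C^N`, that is, their difference is induced by a field `h` of bilinear forms on
`A`, smooth at the points of `j(M)`, all of whose derivatives of order at most `N` have norm at
most `η` at the points of `j(M)`. -/
def CloseCN (j : M → A) (N : ℕ) (η : ℝ)
    (g g' : ContMDiffRiemannianMetric I ∞ E (fun x : M => TangentSpace I x)) : Prop :=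
  ∃ h : A → A →L[ℝ] A →L[ℝ] ℝ, (∀ p : M, ContDiffAt ℝ ∞ h (j p)) ∧
    (∀ (p : M) (u v : TangentSpace I p),
      g.inner p u v - g'.inner p u v = h (j p) (mvfderiv I j p u) (mvfderiv I j p v)) ∧
    ∀ k : ℕ, k ≤ N → ∀ p : M, ‖iteratedFDeriv ℝ k h (j p)‖ ≤ η

end close

open Pool.Agent.H821R2 Pool.Agent.H821R3 H907H Pool.Agent.H893R5.HO

variable {E : Type*} [NormedAddCommGroup E] [NormedSpace ℝ E] [FiniteDimensional ℝ E]
  {H : Type*} [TopologicalSpace H] {I : ModelWithCorners ℝ E H}
  {M : Type*} [TopologicalSpace M] [ChartedSpace H M] [IsManifold I ∞ M]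
  {A : Type*} [NormedAddCommGroup A] [NormedSpace ℝ A] [FiniteDimensional ℝ A]
  {P : Type*} [NormedAddCommGroup P] [NormedSpace ℝ P]

/-- the metric in terms of the inverse matrix -/
theorem inner_eq {X : Emb I M A} {W : A → A →L[ℝ] A} (hW : X.Com W)
    {g : ContMDiffRiemannianMetric I ∞ E (fun x : M => TangentSpace I x)} (hg : X.Dual g W)
    (p : M) (u v : TangentSpace I p) :
    g.inner p u v = X.B (X.G W (X.j p) (X.d p u)) (X.d p v) := by
  have h := Emb.full_G hW p (X.d p u)
  rw [Emb.full_apply] at h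
  have h2 := congrArg (X.P (X.j p)) h
  rw [map_add, map_sub, hW.tan, X.PP, sub_self, add_zero, X.P_d] at h2
  exact hg p _ u h2.symm v

/-- metrics whose cometrics depend smoothly on parameters are close in `C^N` -/
theorem close_of_param [CompactSpace M] (X : Emb I M A) {W : P → A → A →L[ℝ] A}
    (hs : ContDiff ℝ ∞ (fun q : P × A => W q.1 q.2)) {x₀ : P} (h0 : X.Com (W x₀)) (N : ℕ) {η : ℝ}
    (hη : 0 < η) : ∃ δ > 0, ∀ x, ‖x - x₀‖ < δ → X.Com (W x) →
      ∀ g g' : ContMDiffRiemannianMetric I ∞ E (fun x : M => TangentSpace I x),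
        X.Dual g (W x) → X.Dual g' (W x₀) → CloseCN X.j N η g g' := by
  have hfull : ContDiff ℝ ∞ (fun q : P × A => X.full (W q.1) q.2) :=
    hs.add (contDiff_const.sub (X.hP.comp contDiff_snd))
  have hloc : ∀ (x : P) (p : M), X.Com (W x) →
      ContDiffAt ℝ ∞ (fun q : P × A => X.B.comp (X.G (W q.1) q.2)) (x, X.j p) := by
    intro x p hx
    obtain ⟨u, hu⟩ := Emb.full_isUnit hx p
    have h1 : ContDiffAt ℝ ∞ Ring.inverse (X.full (W x) (X.j p)) := by
      rw [← hu]
      exact contDiffAt_ringInverse ℝ u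
    have h3 : ContDiffAt ℝ ∞ (fun q : P × A => X.G (W q.1) q.2) (x, X.j p) :=
      ContDiffAt.comp (g := Ring.inverse) (f := fun q : P × A => X.full (W q.1) q.2) (x, X.j p)
        h1 hfull.contDiffAt
    exact contDiffAt_const.clm_comp h3
  obtain ⟨δ, hδ, h⟩ := small_deriv (f := fun x z => X.B.comp (X.G (W x) z)) (x₀ := x₀)
    (K := Set.range X.j) (isCompact_range X.hj.continuous)
    (by rintro _ ⟨p, rfl⟩; exact hloc x₀ p h0) N hη
  refine ⟨δ, hδ, fun x hx hC g g' hg hg' => ⟨fun z => X.B.comp (X.G (W x) z) -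
    X.B.comp (X.G (W x₀) z), fun p => ?_, fun p u v => ?_, fun k hk p => ?_⟩⟩
  · have c : ∀ y, X.Com (W y) → ContDiffAt ℝ ∞ (fun z => X.B.comp (X.G (W y) z)) (X.j p) := by
      intro y hy
      have h4 : ContDiffAt ℝ ∞ (fun z : A => ((y, z) : P × A)) (X.j p) :=
        contDiffAt_const.prodMk contDiffAt_id
      exact ContDiffAt.comp (g := fun q : P × A => X.B.comp (X.G (W q.1) q.2)) (X.j p)
        (hloc y p hy) h4
    exact (c x hC).sub (c x₀ h0)
  · rw [inner_eq hC hg, inner_eq h0 hg']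
    rfl
  · exact h x hx k hk _ ⟨p, rfl⟩

end Y934.PR
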