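import Mathlib

/-!
Smooth functions on the line which vanish on the negative axis and are small and positive on the
positive axis.
-/

open Set Filter
open scoped Topology ContDiff

set_option autoImplicit false

noncomputable section

namespace Y934.PR

/-- the derivatives of the smooth transition function are bounded -/
theorem transition_bdd (k : ℕ) : ∃ B : ℝ, 0 ≤ B ∧ ∀ t : ℝ,
    ‖iteratedFDeriv ℝ k Real.smoothTransition t‖ ≤ B := by
  have hc : Continuous fun t : ℝ => ‖iteratedFDeriv ℝ k Real.smoothTransition t‖ :=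
    ((Real.smoothTransition.contDiff (n := (k : ℕ∞))).continuous_iteratedFDeriv le_rfl).norm
  obtain ⟨B, hB⟩ := (isCompact_Icc (a := (-1 : ℝ)) (b := 2)).exists_bound_of_continuousOn
    hc.continuousOn
  refine ⟨max B 1, zero_le_one.trans (le_max_right _ _), fun t => ?_⟩
  by_cases ht : t ∈ Icc (-1 : ℝ) 2
  · have := hB t ht
    rw [Real.norm_eq_abs, abs_of_nonneg (norm_nonneg _)] at this
    exact this.trans (le_max_left _ _)
  · have hcst : ∃ c : ℝ, |c| ≤ 1 ∧ Real.smoothTransition =ᶠ[𝓝 t] fun _ => c := by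
      rw [mem_Icc, not_and_or, not_le, not_le] at ht
      rcases ht with ht | ht
      · refine ⟨0, by simp, ?_⟩
        filter_upwards [Iio_mem_nhds (show t < 0 by linarith)] with u hu
        exact Real.smoothTransition.zero_of_nonpos (le_of_lt hu)
      · refine ⟨1, by simp, ?_⟩
        filter_upwards [Ioi_mem_nhds (show 1 < t by linarith)] with u hu
        exact Real.smoothTransition.one_of_one_le (le_of_lt hu)
    obtain ⟨c, hc1, hc2⟩ := hcst
    rw [(hc2.iteratedFDeriv ℝ k).eq_of_nhds]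
    refine le_trans ?_ (le_max_right _ _)
    rcases Nat.eq_zero_or_pos k with rfl | hk
    · rw [norm_iteratedFDeriv_zero, Real.norm_eq_abs]
      exact hc1
    · rw [iteratedFDeriv_const_of_ne hk.ne']
      simp

/-- a decreasing sequence below a given positive sequence -/
theorem exists_antitone (c : ℕ → ℝ) (hc : ∀ n, 0 < c n) :
    ∃ d : ℕ → ℝ, Antitone d ∧ (∀ n, 0 < d n) ∧ (∀ n, d n ≤ 1) ∧ ∀ n, d n ≤ c n := by
  have hm : ∀ i, 0 < min 1 (c i) := fun i => lt_min one_pos (hc i)
  refine ⟨fun n => ∏ i ∈ Finset.range (n + 1), min 1 (c i), ?_, ?_, ?_, ?_⟩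
  · refine antitone_nat_of_succ_le fun n => ?_
    rw [Finset.prod_range_succ]
    have h0 : 0 ≤ ∏ i ∈ Finset.range (n + 1), min 1 (c i) :=
      Finset.prod_nonneg fun i _ => (hm i).le
    calc (∏ i ∈ Finset.range (n + 1), min 1 (c i)) * min 1 (c (n + 1)) ≤
        (∏ i ∈ Finset.range (n + 1), min 1 (c i)) * 1 :=
          mul_le_mul_of_nonneg_left (min_le_left _ _) h0
      _ = _ := mul_one _
  · exact fun n => Finset.prod_pos fun i _ => hm i
  · exact fun n => Finset.prod_le_one (fun i _ => (hm i).le) fun i _ => min_le_left _ _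
  · intro n
    have h1 : ∏ i ∈ Finset.range n, min 1 (c i) ≤ 1 :=
      Finset.prod_le_one (fun i _ => (hm i).le) fun i _ => min_le_left _ _
    change ∏ i ∈ Finset.range (n + 1), min 1 (c i) ≤ c n
    rw [Finset.prod_range_succ]
    calc (∏ i ∈ Finset.range n, min 1 (c i)) * min 1 (c n) ≤ 1 * min 1 (c n) :=
          mul_le_mul_of_nonneg_right h1 (hm n).le
      _ = min 1 (c n) := one_mul _
      _ ≤ c n := min_le_right _ _

/-- **Selection**: if, locally uniformly in `t ∈ (0, 1]`, all small `y > 0` have `(t, y) ∈ S`, then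
there is a smooth function `f` with `f = 0` on the negative axis and `f t > 0`, `(t, f t) ∈ S` for
`0 < t ≤ 1`. -/
theorem exists_select (S : Set (ℝ × ℝ))
    (hS : ∀ t1, 0 < t1 → t1 ≤ 1 → ∃ c > 0, ∀ t, t1 ≤ t → t ≤ 1 → ∀ y, 0 < y → y < c → (t, y) ∈ S) :
    ∃ f : ℝ → ℝ, ContDiff ℝ ∞ f ∧ (∀ t ≤ 0, f t = 0) ∧
      ∀ t, 0 < t → t ≤ 1 → 0 < f t ∧ (t, f t) ∈ S := by
  have hr : ∀ n : ℕ, (0 : ℝ) < 1 / ((n : ℝ) + 2) ∧ 1 / ((n : ℝ) + 2) ≤ 1 := by
    intro n
    have h0 : (0 : ℝ) ≤ n := Nat.cast_nonneg n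
    exact ⟨by positivity, by rw [div_le_one (by positivity)]; linarith⟩
  choose c hc hcS using fun n : ℕ => hS (1 / ((n : ℝ) + 2)) (hr n).1 (hr n).2
  obtain ⟨d, hd1, hd2, hd3, hd4⟩ := exists_antitone c hc
  obtain ⟨a, ha⟩ : ∃ a : ℕ → ℝ, ∀ n, a n = d n / 4 * (1 / 2) ^ n := ⟨_, fun _ => rfl⟩
  have ha0 : ∀ n, 0 < a n := fun n => by
    rw [ha]; have := hd2 n; positivity
  have hgeo : Summable fun n : ℕ => ((1 : ℝ) / 2) ^ n := summable_geometric_two
  have haS : Summable a := by
    refine Summable.of_nonneg_of_le (fun n => (ha0 n).le) (fun n => ?_) hgeo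
    rw [ha]
    have h1 := hd3 n
    have h2 : (0 : ℝ) ≤ (1 / 2) ^ n := by positivity
    nlinarith
  obtain ⟨g, hg⟩ : ∃ g : ℕ → ℝ → ℝ, ∀ n t, g n t = a n *
    Real.smoothTransition (t - 1 / ((n : ℝ) + 2)) := ⟨_, fun _ _ => rfl⟩
  have hg' : ∀ n, g n = fun t => a n • Real.smoothTransition (t - 1 / ((n : ℝ) + 2)) :=
    fun n => funext fun t => hg n t
  have hg0 : ∀ n t, 0 ≤ g n t := fun n t => by
    rw [hg]; exact mul_nonneg (ha0 n).le (Real.smoothTransition.nonneg _)
  have hgl : ∀ n t, g n t ≤ a n := fun n t => by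
    rw [hg]; exact mul_le_of_le_one_right (ha0 n).le (Real.smoothTransition.le_one _)
  have hgs : ∀ t, Summable fun n => g n t := fun t =>
    Summable.of_nonneg_of_le (fun n => hg0 n t) (fun n => hgl n t) haS
  have hsm : ∀ n, ContDiff ℝ ∞ (g n) := by
    intro n
    rw [hg']
    have h1 : ContDiff ℝ ∞ Real.smoothTransition := Real.smoothTransition.contDiff
    exact (h1.comp (contDiff_id.sub contDiff_const)).const_smul (a n)
  choose B hB0 hB using transition_bdd
  refine ⟨fun t => ∑' n, g n t, ?_, ?_, ?_⟩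
  · refine contDiff_tsum (N := ⊤) (v := fun k n => a n * B k) (fun n => hsm n)
      (fun k _ => haS.mul_right _) (fun k n t _ => ?_)
    rw [hg']
    have h1 : ContDiffAt ℝ k (fun t : ℝ => Real.smoothTransition (t - 1 / ((n : ℝ) + 2))) t := by
      have h1 : ContDiff ℝ k Real.smoothTransition := Real.smoothTransition.contDiff
      exact (h1.comp (contDiff_id.sub contDiff_const)).contDiffAt
    rw [show (fun t : ℝ => a n • Real.smoothTransition (t - 1 / ((n : ℝ) + 2))) =
      a n • (fun t : ℝ => Real.smoothTransition (t - 1 / ((n : ℝ) + 2))) from rfl,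
      iteratedFDeriv_const_smul_apply h1, norm_smul, Real.norm_eq_abs, abs_of_pos (ha0 n)]
    refine mul_le_mul_of_nonneg_left ?_ (ha0 n).le
    rw [iteratedFDeriv_comp_sub]
    exact hB k _
  · intro t ht
    have h : ∀ n, g n t = 0 := fun n => by
      rw [hg, Real.smoothTransition.zero_of_nonpos (by linarith [(hr n).1]), mul_zero]
    simp only [h, tsum_zero]
  · intro t h0 h1
    have hex : ∃ n : ℕ, 1 / ((n : ℝ) + 2) < t := by
      obtain ⟨n, hn⟩ := exists_nat_gt (1 / t)
      refine ⟨n, ?_⟩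
      rw [div_lt_iff₀ (by positivity)]
      rw [div_lt_iff₀ h0] at hn
      nlinarith
    obtain ⟨m, hm, hmin⟩ : ∃ m : ℕ, 1 / ((m : ℝ) + 2) < t ∧ ∀ n < m, t ≤ 1 / ((n : ℝ) + 2) := by
      classical
      exact ⟨Nat.find hex, Nat.find_spec hex, fun n hn => not_lt.1 (Nat.find_min hex hn)⟩
    have hpos : 0 < ∑' n, g n t := by
      refine (hgs t).tsum_pos (fun n => hg0 n t) m ?_
      rw [hg]
      exact mul_pos (ha0 m) (Real.smoothTransition.pos_of_pos (by linarith))
    refine ⟨hpos, hcS m t hm.le h1 _ hpos ?_⟩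
    have hle : ∑' n, g n t ≤ ∑' n : ℕ, d m / 4 * ((1 : ℝ) / 2) ^ n := by
      refine (hgs t).tsum_le_tsum (fun n => ?_) (hgeo.mul_left _)
      by_cases hn : n < m
      · rw [hg, Real.smoothTransition.zero_of_nonpos (by linarith [hmin n hn]), mul_zero]
        have := hd2 m
        positivity
      · refine (hgl n t).trans ?_
        rw [ha]
        have := hd1 (not_lt.1 hn)
        have h2 : (0 : ℝ) ≤ (1 / 2) ^ n := by positivity
        nlinarith
    rw [tsum_mul_left, tsum_geometric_two] at hle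
    have := hd4 m
    have := hd2 m
    linarith

end Y934.PR
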