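import Pool.Agent.Y934.PR.Fib
import Pool.Agent.Y934.PR.GlobW
import Pool.Agent.Y934.PR.Sel
import Pool.Agent.H472R3.Pinch
import Pool.Agent.Y934.PR.Defs

/-!
Smooth deformations of the metrics with cometric `a |L|² + |M|² + w |L + M|²`, `w ≥ 0`, to metrics of
positive curvature.
-/

open Bundle Manifold ContDiff ContinuousLinearMap Filter
open scoped Topology RealInnerProductSpace

set_option autoImplicit false
set_option synthInstance.maxHeartbeats 400000
set_option maxHeartbeats 4000000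
set_option linter.unusedSectionVars false

noncomputable section

namespace Y934.PR

open Pool.Agent.H821R2 Pool.Agent.H821R3 H907H Pool.Agent.H893R5.HO Pool.Agent.H878R5 HopfPP

/-- the parameters of the deformation -/
def path (a w₀ : ℝ) (m n : ℝ → ℝ) (t : ℝ) : Pa :=
  (w₀ + t, m t, a * (n t ^ 2 / 128), m t * n t)

/-- smooth paths of good parameters -/
theorem exists_path {a w₀ : ℝ} (ha : 0 < a) (hw : 0 ≤ w₀) :
    ∃ m n : ℝ → ℝ, ContDiff ℝ ∞ m ∧ ContDiff ℝ ∞ n ∧ m 0 = 0 ∧ n 0 = 0 ∧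
      ∀ t, 0 < t → t ≤ 1 → 0 < m t ∧ 0 < n t ∧
        Good (Y934.PR.Dfr a (w₀ + t) (m t) (a * (n t ^ 2 / 128)) (m t * n t)) := by
  obtain ⟨m, m1, m2, m3⟩ := exists_select {q : ℝ × ℝ | Adm a (w₀ + q.1) q.2 ∧ q.2 ≤ q.1} (by
    intro t1 h0 h1
    obtain ⟨μ0, hμ0, h⟩ := exists_adm (a := a) (w1 := w₀ + t1) (w2 := w₀ + 1) ha (by linarith)
    refine ⟨min μ0 t1, lt_min hμ0 h0, fun t ht1 ht2 y hy0 hy1 => ⟨?_, ?_⟩⟩
    · exact h (w₀ + t) ⟨by linarith, by linarith⟩ y hy0 (hy1.trans_le (min_le_left _ _))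
    · exact (hy1.trans_le (min_le_right _ _)).le.trans ht1)
  have hm1 : ∀ t, 0 < t → t ≤ 1 → m t ≤ 1 := fun t h0 h1 => (m3 t h0 h1).2.1.le
  obtain ⟨n, n1, n2, n3⟩ := exists_select {q : ℝ × ℝ | (∀ x (α β Γ : A6), ‖x‖ = 1 →
      ⟪x, α.1⟫ = 0 → ⟪x, β.1⟫ = 0 → ⟪x, Γ.1⟫ = 0 → pr α α = 1 → pr β β = 1 → pr α β = 0 →
      0 < PPf a (w₀ + q.1) (m q.1) (a * (q.2 ^ 2 / 128)) (m q.1 * q.2) x α β Γ) ∧
      q.2 < 1 / 2 ∧ q.2 < a / 4} (by
    intro t1 h0 h1
    have hC : IsCompact ((fun t : ℝ => (w₀ + t, m t)) '' Set.Icc t1 1) :=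
      isCompact_Icc.image (by have := m1.continuous; fun_prop)
    obtain ⟨ν0, hν0, h⟩ := exists_nu (a := a) hC (by
      rintro _ ⟨t, ht, rfl⟩
      exact (m3 t (h0.trans_le ht.1) ht.2).2.1)
    refine ⟨min ν0 (min (1 / 2) (a / 4)), lt_min hν0 (lt_min (by norm_num) (by linarith)),
      fun t ht1 ht2 y hy0 hy1 => ⟨?_, ?_, ?_⟩⟩
    · intro x α β Γ
      exact h y hy0 (hy1.trans_le (min_le_left _ _)) (w₀ + t, m t) ⟨t, ⟨ht1, ht2⟩, rfl⟩ x α β Γ
    · exact hy1.trans_le ((min_le_right _ _).trans (min_le_left _ _))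
    · exact hy1.trans_le ((min_le_right _ _).trans (min_le_right _ _)))
  refine ⟨m, n, m1, n1, m2 0 le_rfl, n2 0 le_rfl, fun t h0 h1 => ?_⟩
  obtain ⟨c1, c2, c3⟩ := m3 t h0 h1
  obtain ⟨d1, d2, d3, d4⟩ := n3 t h0 h1
  simp only at c2 c3 d2 d3 d4
  have hm := hm1 t h0 h1
  have k0 : 0 ≤ a * (n t ^ 2 / 128) := by positivity
  have e1 : 0 < m t * n t := mul_pos c1 d1
  have e2 : m t * n t ≤ n t := by nlinarith
  have k1 : a * (n t ^ 2 / 128) < a / 2 := by
    have : n t ^ 2 ≤ 1 := by nlinarith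
    nlinarith
  refine ⟨c1, d1, ?_, ?_, ?_, ?_, ?_⟩
  · intro i j
    fin_cases i <;> fin_cases j <;> rfl
  · intro i j
    fin_cases i <;> fin_cases j <;> rfl
  · intro x b hx hb
    exact Dfr_pos (by rw [abs_of_pos c1]; linarith) k0
      (by rw [abs_of_pos e1]; linarith) (by rw [abs_of_pos e1]; linarith) x b hx hb
  · intro x α β Γ hx hα hβ hΓ h1 h2 h3
    have hn : ‖(WithLp.toLp 2 x : V3)‖ = 1 := by
      have h4 : ⟪(WithLp.toLp 2 x : V3), (WithLp.toLp 2 x : V3)⟫ = 1 := by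
        rw [← dt_toV]; exact hx
      rw [real_inner_self_eq_norm_sq] at h4
      exact (pow_eq_one_iff_of_nonneg (norm_nonneg _) two_ne_zero).1 h4
    exact d2 (WithLp.toLp 2 x) (WithLp.toLp 2 α.1, WithLp.toLp 2 α.2)
      (WithLp.toLp 2 β.1, WithLp.toLp 2 β.2) (WithLp.toLp 2 Γ.1, WithLp.toLp 2 Γ.2) hn
      (by rw [← dt_toV]; exact hα) (by rw [← dt_toV]; exact hβ) (by rw [← dt_toV]; exact hΓ)
      (by rw [pr, ← dt_toV, ← dt_toV]; exact h1) (by rw [pr, ← dt_toV, ← dt_toV]; exact h2)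
      (by rw [pr, ← dt_toV, ← dt_toV]; exact h3)
  · intro x α β Γ a' b' c' d'
    exact Y934.PR.GL2_fr _ _ _ _ _ x α β Γ a' b' c' d'


variable {E : Type*} [NormedAddCommGroup E] [NormedSpace ℝ E] [FiniteDimensional ℝ E]
  {H : Type*} [TopologicalSpace H] {I : ModelWithCorners ℝ E H}
  {M : Type*} [TopologicalSpace M] [ChartedSpace H M] [IsManifold I ∞ M]
  {A : Type*} [NormedAddCommGroup A] [NormedSpace ℝ A] [FiniteDimensional ℝ A]

/-- positive curvature of homothetic metrics -/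
theorem curved_scale [Nontrivial E] [T2Space M] [SigmaCompactSpace M]
    {g : ContMDiffRiemannianMetric I ∞ E (fun x : M => TangentSpace I x)}
    (hg : PositivelyCurved g) {c : ℝ} (hc : 0 < c) :
    PositivelyCurved (Pool.Agent.H472R3.scale g c hc) := by
  obtain ⟨⟨cov, R, hLC, hR⟩, hpos⟩ := hg
  have hLC' : IsLeviCivita (Pool.Agent.H472R3.scale g c hc) cov := Pool.Agent.H472R3.lc_scale hc hLC
  refine ⟨⟨cov, R, hLC', hR⟩, ?_⟩
  intro cov' R' h' hR' x u v huv
  have hs : sec (Pool.Agent.H472R3.scale g c hc) R' x u v =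
      sec (Pool.Agent.H472R3.scale g c hc) R x u v := by
    unfold sec
    rw [riemann_unique h' hLC' hR' hR]
  rw [hs]
  obtain ⟨s, hs0, hss⟩ : ∃ s : ℝ, 0 < s ∧ s * s = c :=
    ⟨Real.sqrt c, Real.sqrt_pos.2 hc, Real.mul_self_sqrt hc.le⟩
  have smul_l : ∀ (c : ℝ) (a b : TangentSpace I x), g.inner x (c • a) b = c * g.inner x a b := by
    intro c a b
    rw [map_smul]; rfl
  have smul_r : ∀ (c : ℝ) (a b : TangentSpace I x), g.inner x a (c • b) = c * g.inner x a b := by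
    intro c a b
    rw [map_smul]; rfl
  obtain ⟨h1, h2, h3⟩ := huv
  rw [Pool.Agent.H472R3.scale_inner] at h1 h2 h3
  have hop : OrthoPair g x (s • u) (s • v) := by
    refine ⟨?_, ?_, ?_⟩
    · rw [smul_l, smul_r, ← mul_assoc, hss, h1]
    · rw [smul_l, smul_r, ← mul_assoc, hss, h2]
    · rw [smul_l, smul_r, ← mul_assoc, hss, h3]
  have hk := hpos cov R hLC hR x _ _ hop
  have hsec : sec g R x (s • u) (s • v) = c * sec (Pool.Agent.H472R3.scale g c hc) R x u v := by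
    unfold sec
    rw [Pool.Agent.H472R3.scale_inner]
    have e1 : R x (s • u) (s • v) (s • v) = (s * s * s) • R x u v v := by
      simp only [map_smul, LinearMap.smul_apply, smul_smul]
      congr 1
      ring
    rw [e1, smul_l, smul_r]
    calc s * s * s * (s * g.inner x (R x u v v) u) =
        (s * s) * (s * s) * g.inner x (R x u v v) u := by ring
      _ = _ := by rw [hss]; ring
  rw [hsec] at hk
  exact (pos_iff_pos_of_mul_pos hk).1 hc

section

variable {X : Emb I M A} {Y : LA X} {pj : A →L[ℝ] V ℝ} (hF : Fib Y pj)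
  [T2Space M] [SigmaCompactSpace M] [Nontrivial E]

include hF

/-- **The deformation theorem**: the metric with cometric `a |L|² + |M|² + w |L + M|²`, `a > 0`,
`w ≥ 0`, multiplied by a constant `c > 0`, has a smooth deformation to positive curvature. -/
theorem deformation {a w c : ℝ} (ha : 0 < a) (hw : 0 ≤ w) (hc : 0 < c) :
    ∃ G : ℝ → ContMDiffRiemannianMetric I ∞ E (fun x : M => TangentSpace I x),
      SmoothFamily X.j G ∧
      (∀ (p : M) (u v : TangentSpace I p), (G 0).inner p u v =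
        c * X.B (X.G (Wa Y pj a (w, 0, 0, 0)) (X.j p) (X.d p u)) (X.d p v)) ∧
      (∀ t, 0 < t → t ≤ 1 → PositivelyCurved (G t)) ∧
      ∀ t, 0 ≤ t → t ≤ 1 → ∃ (D : Dat ℝ) (g : ContMDiffRiemannianMetric I ∞ E
        (fun x : M => TangentSpace I x)), X.Com (Y.W (LA.KD D pj)) ∧
        X.Dual g (Y.W (LA.KD D pj)) ∧ ∀ (p : M) (u v : TangentSpace I p),
          (G t).inner p u v = c * g.inner p u v := by
  obtain ⟨m, n, m1, n1, m2, n2, h⟩ := exists_path ha hw
  have hp0 : path a w m n 0 = (w, 0, 0, 0) := by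
    simp [path, m2, n2]
  have hcom : ∀ t, 0 ≤ t → t ≤ 1 → X.Com (Wa Y pj a (path a w m n t)) := by
    intro t h0 h1
    rcases h0.lt_or_eq with h2 | h2
    · obtain ⟨-, -, hD⟩ := h t h2 h1
      exact com' hF hD.symW hD.symQ hD.pos
    · rw [← h2, hp0]
      exact com_base hF ha hw
  have hex : ∀ t, ∃ g : ContMDiffRiemannianMetric I ∞ E (fun x : M => TangentSpace I x),
      0 ≤ t → t ≤ 1 → X.Dual g (Wa Y pj a (path a w m n t)) := by
    intro t
    by_cases ht : 0 ≤ t ∧ t ≤ 1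
    · obtain ⟨g, hg⟩ := Emb.exists_metric (hcom t ht.1 ht.2)
      exact ⟨g, fun _ _ => hg⟩
    · obtain ⟨g, hg⟩ := Emb.exists_metric (hcom 0 le_rfl zero_le_one)
      exact ⟨g, fun h0 h1 => absurd ⟨h0, h1⟩ ht⟩
  choose g hg using hex
  have hin : ∀ t, 0 ≤ t → t ≤ 1 → ∀ (p : M) (u v : TangentSpace I p),
      (Pool.Agent.H472R3.scale (g t) c hc).inner p u v =
        c * X.B (X.G (Wa Y pj a (path a w m n t)) (X.j p) (X.d p u)) (X.d p v) := by
    intro t h0 h1 p u v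
    rw [Pool.Agent.H472R3.scale_inner, inner_eq (hcom t h0 h1) (hg t h0 h1)]
  refine ⟨fun t => Pool.Agent.H472R3.scale (g t) c hc, ?_, ?_, ?_, ?_⟩
  · refine ⟨fun q => c • X.B.comp (X.G (Wa Y pj a (path a w m n q.1)) q.2), fun t h0 h1 p =>
      ⟨?_, fun u v => ?_⟩⟩
    · have hpath : ContDiff ℝ ∞ (fun q : ℝ × A => ((path a w m n q.1, q.2) : Pa × A)) := by
        have k1 : ContDiff ℝ ∞ (fun q : ℝ × A => m q.1) := m1.comp contDiff_fst
        have k2 : ContDiff ℝ ∞ (fun q : ℝ × A => n q.1) := n1.comp contDiff_fst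
        exact (((contDiff_const.add contDiff_fst).prodMk (k1.prodMk
          ((contDiff_const.mul ((k2.pow 2).div_const 128)).prodMk (k1.mul k2))))).prodMk
          contDiff_snd
      have hfull : ContDiff ℝ ∞ (fun q : ℝ × A =>
          X.full (Wa Y pj a (path a w m n q.1)) q.2) :=
        ((smooth_Wa Y pj a).comp hpath).add (contDiff_const.sub (X.hP.comp contDiff_snd))
      obtain ⟨u, hu⟩ := Emb.full_isUnit (hcom t h0 h1) p
      have h1 : ContDiffAt ℝ ∞ Ring.inverse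
          (X.full (Wa Y pj a (path a w m n t)) (X.j p)) := by
        rw [← hu]
        exact contDiffAt_ringInverse ℝ u
      have h3 : ContDiffAt ℝ ∞ (fun q : ℝ × A =>
          X.G (Wa Y pj a (path a w m n q.1)) q.2) (t, X.j p) :=
        ContDiffAt.comp (g := Ring.inverse)
          (f := fun q : ℝ × A => X.full (Wa Y pj a (path a w m n q.1)) q.2) (t, X.j p)
          h1 hfull.contDiffAt
      exact (contDiffAt_const.clm_comp h3).const_smul c
    · exact hin t h0 h1 p u v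
  · intro p u v
    have := hin 0 le_rfl zero_le_one p u v
    rw [hp0] at this
    exact this
  · intro t h0 h1
    refine curved_scale ?_ hc
    obtain ⟨-, -, hD⟩ := h t h0 h1
    exact curved hF hD (hg t h0.le h1)
  · intro t h0 h1
    exact ⟨_, g t, hcom t h0 h1, hg t h0 h1, fun p u v => rfl⟩

end

end Y934.PR
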