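import Pool.Agent.Y934.PR.P0
import Pool.Agent.H754R2.HO.Fro

/-!
Second order expansion of the polynomial `PP` at the zero set, for the cometrics
`a |L|² + |M|² + ⟨W (L + M), L + M⟩ + ⟨Q L, L⟩ + 2 e (L·v)(M·x)`.
-/

open H563H HopfPP

noncomputable section

namespace Y934.PR

variable {A : Type*} [CommRing A]

/-- a multiple of the unit matrix -/
def ida (a : A) : Fin 3 → V A := ![![a, 0, 0], ![0, a, 0], ![0, 0, a]]

/-- parameters depending on `t` -/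
def DT (a : A) (W Q : Fin 3 → V A) (e : A) (v : V A) : Dat (T3 A) :=
  ⟨fun i => tv (W i) 0 0, fun i => tv (ida (a - 1) i) 0 (Q i), ⟨0, e, 0⟩, tv v 0 0⟩

theorem mvQ (a : A) (Q : Fin 3 → V A) (b c d : V A) :
    mv (fun i => tv (ida a i) 0 (Q i)) (tv b c d) = tv (a • b) (a • c) (a • d + mv Q b) := by
  refine V_ext ?_ ?_ ?_ <;> simp only [mv_0, mv_1, mv_2, tv_dt] <;> simp [tv, dt, ida] <;> ring

theorem KK_DT (a : A) (W Q : Fin 3 → V A) (e : A) (v x p q r p' q' r' : V A) :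
    KK (DT a W Q e v) (tv x 0 0) (tv p q r, tv p' q' r') =
      (tv (a • p + mv W (p + p')) (a • q + mv W (q + q') + (e * dt x p') • v)
          (a • r + mv W (r + r') + mv Q p + (e * dt x q') • v),
        tv (p' + mv W (p + p')) (q' + mv W (q + q') + (e * dt v p) • x)
          (r' + mv W (r + r') + (e * dt v q) • x)) := by
  have h1 : (⟨0, e, 0⟩ : T3 A) * dt (tv x 0 0) (tv p' q' r') = ⟨0, e * dt x p', e * dt x q'⟩ := by
    rw [tv_dt]; ext <;> simp [dt]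
  have h2 : (⟨0, e, 0⟩ : T3 A) * dt (tv v 0 0) (tv p q r) = ⟨0, e * dt v p, e * dt v q⟩ := by
    rw [tv_dt]; ext <;> simp [dt]
  simp only [KK, DT, tv_add, mvW, mvQ, h1, h2, tv_smul]
  have e1 : ∀ u z : V A, u + z + (a - 1) • u = a • u + z := by
    intro u z; module
  have e2 : ∀ u z y : V A, u + z + ((a - 1) • u + y) = a • u + z + y := by
    intro u z y; module
  refine Prod.ext ?_ ?_
  · simp [e1, e2]
  · simp

theorem TT_DT (a : A) (W Q : Fin 3 → V A) (e : A) (v : V A) : TT (DT a W Q e v) =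
    TT (HopfPP.DT W Q e v) := rfl

theorem c01_eq (a w11 w12 w13 w22 w23 w33 : A) (Q : Fin 3 → V A) (e : A) (v r d g h : V A) (s : A) :
    (PP (DT a (symm3 w11 w12 w13 w22 w23 w33) Q e v) (tv ![1, 0, 0] 0 0) (aT r) (bT s d)
      (gTT g h)).c0 = 0 ∧
    (PP (DT a (symm3 w11 w12 w13 w22 w23 w33) Q e v) (tv ![1, 0, 0] 0 0) (aT r) (bT s d)
      (gTT g h)).c1 = 0 := by
  simp only [PP, PPg, sS, aT, bT, gTT, KK_DT, TT_DT, HopfPP.TT_DT, gT_DT, tv_cx, tv_add, tv_sub,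
    dt6, cx6, tv_dt,
    mv_zero, cx_zl, cx_zr, dt_zl, dt_zr, add_zero, zero_add, mul_zero, zero_smul, smul_zero,
    sub_zero, Prod.mk_add_mk, Prod.mk_sub_mk, tv_zero, lit2, lit3, lit4, mk_add, mk_sub, mk_mul]
  constructor
  · simp [dt, cx, mv, symm3, Matrix.vecHead, Matrix.vecTail]
    ring
  · simp [dt, cx, mv, symm3, Matrix.vecHead, Matrix.vecTail]
    ring

/-- The quadratic part for `W = w`, `Q = 0`. -/
theorem c2_one (a w e : A) (v r d g h : V A) (s : A) :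
    (PP (DT a (symm3 w 0 0 w 0 w) (fun _ => 0) e v) (tv ![1, 0, 0] 0 0) (aT r) (bT s d)
      (gTT g h)).c2 =
    a ^ 3 * s ^ 2 + (r 0 ^ 2 + r 1 ^ 2) + w ^ 3 * ((s + r 1 - d 1) ^ 2 + (r 0 - d 0) ^ 2) +
      3 * (a * ((g 0 - a * s) ^ 2 + g 1 ^ 2 + g 2 ^ 2) +
        ((h 0 - r 1) ^ 2 + (h 1 + r 0) ^ 2 + h 2 ^ 2) +
        w * ((g 0 + h 0 - (2 * a + w) * s - (2 + w) * r 1 + w * d 1) ^ 2 +
          (g 1 + h 1 + (2 + w) * r 0 - w * d 0 + e * v 2) ^ 2 + (g 2 + h 2) ^ 2)) +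
      a * (e * v 2) ^ 2 := by
  simp only [PP, PPg, sS, aT, bT, gTT, KK_DT, TT_DT, HopfPP.TT_DT, gT_DT, tv_cx, tv_add, tv_sub,
    dt6, cx6, tv_dt,
    mv_zero, cx_zl, cx_zr, dt_zl, dt_zr, add_zero, zero_add, mul_zero, zero_smul, smul_zero,
    sub_zero, Prod.mk_add_mk, Prod.mk_sub_mk, tv_zero, lit2, lit3, lit4, mk_add, mk_sub, mk_mul]
  simp [dt, cx, mv, symm3, Matrix.vecHead, Matrix.vecTail]
  ring

/-- the influence of `Q` -/
theorem c2_Q (a w11 w12 w13 w22 w23 w33 q11 q12 q13 q22 q23 q33 : A) (e : A) (v r d g h : V A)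
    (s : A) :
    (PP (DT a (symm3 w11 w12 w13 w22 w23 w33) (symm3 q11 q12 q13 q22 q23 q33) e v)
      (tv ![1, 0, 0] 0 0) (aT r) (bT s d) (gTT g h)).c2 =
    (PP (DT a (symm3 w11 w12 w13 w22 w23 w33) (fun _ => 0) e v)
      (tv ![1, 0, 0] 0 0) (aT r) (bT s d) (gTT g h)).c2 +
    4 * (w23 ^ 2 * (q11 - q33) + w13 ^ 2 * (q22 - q33) - 2 * w13 * w23 * q12 +
      (w33 - w22) * w13 * q13 + w12 * w23 * q13 + (w33 - w11) * w23 * q23 + w12 * w13 * q23) := by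
  simp only [PP, PPg, sS, aT, bT, gTT, KK_DT, TT_DT, HopfPP.TT_DT, gT_DT, tv_cx, tv_add, tv_sub,
    dt6, cx6, tv_dt,
    mv_zero, cx_zl, cx_zr, dt_zl, dt_zr, add_zero, zero_add, mul_zero, zero_smul, smul_zero,
    sub_zero, Prod.mk_add_mk, Prod.mk_sub_mk, tv_zero, lit2, lit3, lit4, mk_add, mk_sub, mk_mul]
  simp [dt, cx, mv, symm3, Matrix.vecHead, Matrix.vecTail]
  ring

end Y934.PR
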